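import Mathlib

/-!
# From the measure of bad parameters to the number of good windows, and the count
-/

set_option autoImplicit false

open Set Filter Topology MeasureTheory
open scoped Real NNReal ENNReal

noncomputable section

namespace Pool.Agent.H240.SC

/-- if the measures of the sets `B k n` tend to zero then almost every point lies in few of them, for
infinitely many lengths -/
theorem avg_bad {s1 s2 : ℝ} (B : ℕ → ℕ → Set ℝ) (hB1 : ∀ k n, B k n ⊆ Icc s1 s2)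
    (hB : ∀ k, ∀ η : ℝ, 0 < η → ∀ᶠ n in atTop, volume (B k n) ≤ ENNReal.ofReal η) :
    ∀ᵐ s : ℝ, ∀ K l : ℕ, ∃ᶠ N : ℕ in atTop, ∀ k < K,
      ({n | n < N ∧ s ∈ B k n}.ncard : ℝ) ≤ N / ((l : ℝ) + 1) := by
  classical
  rw [ae_all_iff]
  intro K
  set B' : ℕ → ℕ → Set ℝ := fun k n => toMeasurable volume (B k n) with hB'
  have hB'm : ∀ k n, MeasurableSet (B' k n) := fun k n => measurableSet_toMeasurable _ _
  have hB'v : ∀ k n, volume (B' k n) = volume (B k n) := fun k n => measure_toMeasurable _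
  have hfinv : ∀ k n, volume (B k n) ≠ ∞ := fun k n =>
    ((measure_mono (hB1 k n)).trans_lt isCompact_Icc.measure_lt_top).ne
  set v : ℕ → ℕ → ℝ := fun k n => (volume (B k n)).toReal with hv
  have hv0 : ∀ k n, 0 ≤ v k n := fun k n => ENNReal.toReal_nonneg
  have hvt : ∀ k, Tendsto (v k) atTop (𝓝 0) := by
    intro k
    rw [Metric.tendsto_atTop']
    intro ε hε
    obtain ⟨n0, hn0⟩ := (hB k (ε / 2) (by positivity)).exists_forall_of_atTop
    refine ⟨n0, fun n hn => ?_⟩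
    rw [Real.dist_eq, sub_zero, abs_of_nonneg (hv0 k n)]
    have h1 := ENNReal.toReal_mono ENNReal.ofReal_ne_top (hn0 n hn.le)
    rw [ENNReal.toReal_ofReal (by positivity)] at h1
    have : v k n ≤ ε / 2 := h1
    linarith
  set f : ℕ → ℝ → ℝ≥0∞ := fun N s => ((N : ℝ≥0∞))⁻¹ * ∑ k ∈ Finset.range K,
    ∑ n ∈ Finset.range N, (B' k n).indicator (1 : ℝ → ℝ≥0∞) s with hf
  have hfm : ∀ N, Measurable (f N) := fun N =>
    (Finset.measurable_fun_sum _ fun k _ => Finset.measurable_fun_sum _ fun n _ =>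
      measurable_one.indicator (hB'm k n)).const_mul _
  have hfi : ∀ N : ℕ, 0 < N → ∫⁻ s, f N s =
      ENNReal.ofReal (∑ k ∈ Finset.range K, (N : ℝ)⁻¹ * ∑ n ∈ Finset.range N, v k n) := by
    intro N hN
    have e1 : ∫⁻ s, f N s = ((N : ℝ≥0∞))⁻¹ * ∑ k ∈ Finset.range K,
        ∑ n ∈ Finset.range N, volume (B k n) := by
      simp only [hf]
      rw [lintegral_const_mul _ (Finset.measurable_fun_sum _ fun k _ =>
        Finset.measurable_fun_sum _ fun n _ => measurable_one.indicator (hB'm k n))]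
      congr 1
      rw [lintegral_finsetSum _ fun k _ => Finset.measurable_fun_sum _ fun n _ =>
        measurable_one.indicator (hB'm k n)]
      refine Finset.sum_congr rfl fun k _ => ?_
      rw [lintegral_finsetSum _ fun n _ => measurable_one.indicator (hB'm k n)]
      refine Finset.sum_congr rfl fun n _ => ?_
      rw [lintegral_indicator_one (hB'm k n), hB'v]
    rw [e1, ← Finset.mul_sum, ENNReal.ofReal_mul (by positivity),
      ENNReal.ofReal_inv_of_pos (by exact_mod_cast hN), ENNReal.ofReal_natCast,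
      ENNReal.ofReal_sum_of_nonneg fun k _ => Finset.sum_nonneg fun n _ => hv0 k n]
    congr 1
    refine Finset.sum_congr rfl fun k _ => ?_
    rw [ENNReal.ofReal_sum_of_nonneg fun n _ => hv0 k n]
    exact Finset.sum_congr rfl fun n _ => (ENNReal.ofReal_toReal (hfinv k n)).symm
  have hlim : Tendsto (fun N => ∫⁻ s, f N s) atTop (𝓝 0) := by
    have h1 : Tendsto (fun N : ℕ => ∑ k ∈ Finset.range K, (N : ℝ)⁻¹ * ∑ n ∈ Finset.range N, v k n)
        atTop (𝓝 (∑ k ∈ Finset.range K, (0 : ℝ))) :=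
      tendsto_finsetSum _ fun k _ => (hvt k).cesaro
    rw [Finset.sum_const_zero] at h1
    have h2 := (ENNReal.continuous_ofReal.tendsto 0).comp h1
    rw [ENNReal.ofReal_zero] at h2
    refine h2.congr' ?_
    filter_upwards [eventually_gt_atTop 0] with N hN
    exact (hfi N hN).symm
  have hfat : ∫⁻ s, liminf (fun N => f N s) atTop = 0 := by
    have h1 := lintegral_liminf_le (μ := volume) (u := atTop) hfm
    rw [hlim.liminf_eq] at h1
    exact le_antisymm h1 bot_le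
  have hae := (lintegral_eq_zero_iff (Measurable.liminf hfm)).1 hfat
  filter_upwards [hae] with s hs l
  have hs0 : liminf (fun N => f N s) atTop < ENNReal.ofReal (1 / ((l : ℝ) + 1)) := by
    have h1 : liminf (fun N => f N s) atTop = 0 := hs
    rw [h1]
    exact ENNReal.ofReal_pos.2 (by positivity)
  have hfreq := frequently_lt_of_liminf_lt (by isBoundedDefault) hs0
  refine (hfreq.and_eventually (eventually_gt_atTop 0)).mono fun N hN k hk => ?_
  obtain ⟨hN1, hN0⟩ := hN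
  have hN0' : (0 : ℝ) < N := by exact_mod_cast hN0
  have h1 : ((N : ℝ≥0∞))⁻¹ * ∑ n ∈ Finset.range N, (B' k n).indicator (1 : ℝ → ℝ≥0∞) s ≤ f N s := by
    simp only [hf]
    refine mul_le_mul_right ?_ _
    exact Finset.single_le_sum (f := fun k => ∑ n ∈ Finset.range N,
      (B' k n).indicator (1 : ℝ → ℝ≥0∞) s) (fun _ _ => bot_le) (Finset.mem_range.2 hk)
  have h2 : ∑ n ∈ Finset.range N, (B' k n).indicator (1 : ℝ → ℝ≥0∞) s =
      (((Finset.range N).filter fun n => s ∈ B' k n).card : ℝ≥0∞) := by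
    simp only [indicator_apply, Pi.one_apply]
    rw [Finset.sum_boole]
  have h3 : ({n | n < N ∧ s ∈ B k n}.ncard : ℝ) ≤
      (((Finset.range N).filter fun n => s ∈ B' k n).card : ℝ) := by
    have h4 : {n | n < N ∧ s ∈ B k n} ⊆ (((Finset.range N).filter fun n => s ∈ B' k n : Finset ℕ) :
        Set ℕ) := by
      rintro n ⟨h4, h5⟩
      rw [Finset.mem_coe, Finset.mem_filter, Finset.mem_range]
      exact ⟨h4, subset_toMeasurable _ _ h5⟩
    have h5 := ncard_le_ncard h4 (Finset.finite_toSet _)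
    rw [ncard_coe_finset] at h5
    exact_mod_cast h5
  refine h3.trans ?_
  rw [h2] at h1
  have h6 := h1.trans_lt hN1
  rw [← ENNReal.ofReal_natCast N, ← ENNReal.ofReal_inv_of_pos hN0', ← ENNReal.ofReal_natCast,
    ← ENNReal.ofReal_mul (by positivity)] at h6
  have h7 := (ENNReal.ofReal_lt_ofReal_iff_of_nonneg (by positivity)).1 h6
  rw [inv_mul_lt_iff₀ hN0'] at h7
  rw [le_div_iff₀ (by positivity)]
  rw [mul_one_div, lt_div_iff₀ (by positivity)] at h7
  exact h7.le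

/-- the number of eigenvalues in the good windows -/
theorem count {q : ℝ} (hq : 0 < q) (E : ℕ → ℝ) (hEf : ∀ Λ : ℝ, {j | E j ≤ Λ}.Finite)
    (P : ℕ → Prop) {c : ℝ} (hc : 0 < c) (hcq : c ≤ q)
    (hfreq : ∀ K : ℕ, ∃ᶠ N : ℕ in atTop, ∀ k < K,
      ({n : ℕ | n < N ∧ ¬ ∃ j, |E j - (((n : ℝ) + 1) ^ 2 + ((k : ℝ) + 1) ^ 2 * q)| ≤ c ∧
        P j}.ncard : ℝ) ≤ N / 2) (C : ℝ) :
    ∃ᶠ Λ : ℝ in atTop, C * Real.sqrt Λ < ({j | P j ∧ E j ≤ Λ}.ncard : ℝ) := by
  classical
  obtain ⟨K, hK⟩ := exists_nat_ge (4 * |C| + 4)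
  obtain ⟨n0, hn0⟩ := exists_nat_ge ((K : ℝ) ^ 2 * q + 2 * c)
  obtain ⟨N0, hN0⟩ := exists_nat_ge (K * n0 + |C| * ((K : ℝ) ^ 2 * q + c + 1) + 1)
  have hlim : Tendsto (fun N : ℕ => (N : ℝ) ^ 2 + ((K : ℝ) ^ 2 * q + c)) atTop atTop := by
    refine tendsto_atTop_add_const_right _ _ ?_
    exact (tendsto_pow_atTop two_ne_zero).comp tendsto_natCast_atTop_atTop
  refine hlim.frequently (((hfreq K).and_eventually (eventually_ge_atTop (N0 + n0))).mono ?_)
  rintro N ⟨hN1, hN2⟩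
  have hNN : (N0 : ℝ) + n0 ≤ N := by exact_mod_cast hN2
  set Gk : ℕ → ℕ → Prop := fun k n => ∃ j, |E j - (((n : ℝ) + 1) ^ 2 + ((k : ℝ) + 1) ^ 2 * q)| ≤ c ∧
    P j with hGk
  set A : Finset (Σ _ : ℕ, ℕ) := (Finset.range K).sigma fun k => (Finset.Ico n0 N).filter (Gk k)
    with hA
  have hch : ∀ x : (Σ _ : ℕ, ℕ), ∃ j, Gk x.1 x.2 →
      |E j - (((x.2 : ℝ) + 1) ^ 2 + ((x.1 : ℝ) + 1) ^ 2 * q)| ≤ c ∧ P j := by
    intro x
    by_cases hx : Gk x.1 x.2
    · obtain ⟨j, hj⟩ := hx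
      exact ⟨j, fun _ => hj⟩
    · exact ⟨0, fun h => absurd h hx⟩
  choose J hJ using hch
  have hmem : ∀ x ∈ A, x.1 < K ∧ n0 ≤ x.2 ∧ x.2 < N ∧ Gk x.1 x.2 := by
    intro x hx
    rw [hA, Finset.mem_sigma, Finset.mem_range, Finset.mem_filter, Finset.mem_Ico] at hx
    exact ⟨hx.1, hx.2.1.1, hx.2.1.2, hx.2.2⟩
  have hk1 : ∀ k : ℕ, k < K → (((k : ℝ) + 1) ^ 2 * q) ≤ (K : ℝ) ^ 2 * q := by
    intro k hk
    have h1 : (k : ℝ) + 1 ≤ K := by exact_mod_cast hk
    exact mul_le_mul_of_nonneg_right (pow_le_pow_left₀ (by positivity) h1 2) hq.le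
  have hinj : InjOn J (A : Set (Σ _ : ℕ, ℕ)) := by
    rintro ⟨k, n⟩ hx ⟨k', n'⟩ hx' hJJ
    obtain ⟨h1, h2, h3, h4⟩ := hmem _ hx
    obtain ⟨h1', h2', h3', h4'⟩ := hmem _ hx'
    have g := (hJ _ h4).1
    have g' := (hJ _ h4').1
    rw [← hJJ] at g'
    simp only at g g' h1 h1' h2 h2'
    have hkk := hk1 k h1
    have hkk' := hk1 k' h1'
    have hp1 : 0 < ((k : ℝ) + 1) ^ 2 * q := by positivity
    have hp2 : 0 < ((k' : ℝ) + 1) ^ 2 * q := by positivity
    rw [abs_le] at g g'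
    have hn : n = n' := by
      by_contra hne
      have key : ∀ u w : ℕ, n0 ≤ u → u < w →
          ((u : ℝ) + 1) ^ 2 + ((K : ℝ) ^ 2 * q + 2 * c) < ((w : ℝ) + 1) ^ 2 := by
        intro u w hu huw
        have a1 : (u : ℝ) + 1 ≤ w := by exact_mod_cast huw
        have a2 : (n0 : ℝ) ≤ u := by exact_mod_cast hu
        have a3 : (0 : ℝ) ≤ n0 := Nat.cast_nonneg _
        nlinarith
      rcases lt_or_gt_of_ne hne with h | h
      · have := key n n' h2 h
        linarith [g.1, g.2, g'.1, g'.2]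
      · have := key n' n h2' h
        linarith [g.1, g.2, g'.1, g'.2]
    subst hn
    have hk : k = k' := by
      by_contra hne
      have key : ∀ u w : ℕ, u < w → ((u : ℝ) + 1) ^ 2 * q + 3 * q ≤ ((w : ℝ) + 1) ^ 2 * q := by
        intro u w huw
        have a1 : (u : ℝ) + 1 ≤ w := by exact_mod_cast huw
        have a2 : (0 : ℝ) ≤ u := Nat.cast_nonneg _
        have a3 : ((u : ℝ) + 1) ^ 2 + 3 ≤ ((w : ℝ) + 1) ^ 2 := by nlinarith
        nlinarith
      rcases lt_or_gt_of_ne hne with h | h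
      · have := key k k' h
        linarith [g.1, g.2, g'.1, g'.2]
      · have := key k' k h
        linarith [g.1, g.2, g'.1, g'.2]
    subst hk
    rfl
  have hcard : (A.card : ℝ) ≤ ({j | P j ∧ E j ≤ (N : ℝ) ^ 2 + ((K : ℝ) ^ 2 * q + c)}.ncard : ℝ) := by
    have h1 : (A : Set (Σ _ : ℕ, ℕ)).ncard ≤
        {j | P j ∧ E j ≤ (N : ℝ) ^ 2 + ((K : ℝ) ^ 2 * q + c)}.ncard := by
      refine ncard_le_ncard_of_injOn J (fun x hx => ?_) hinj
        ((hEf ((N : ℝ) ^ 2 + ((K : ℝ) ^ 2 * q + c))).subset fun j hj => hj.2)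
      obtain ⟨h1, h2, h3, h4⟩ := hmem _ hx
      obtain ⟨g1, g2⟩ := hJ _ h4
      refine ⟨g2, ?_⟩
      have a1 : ((x.2 : ℝ) + 1) ≤ N := by exact_mod_cast h3
      have a2 : ((x.2 : ℝ) + 1) ^ 2 ≤ (N : ℝ) ^ 2 := pow_le_pow_left₀ (by positivity) a1 2
      have a3 := hk1 x.1 h1
      have a4 := (abs_le.1 g1).2
      linarith
    rw [ncard_coe_finset] at h1
    exact_mod_cast h1
  have hAc : (K : ℝ) * (N / 2 - n0) ≤ (A.card : ℝ) := by
    rw [hA, Finset.card_sigma]
    push_cast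
    have h1 : ∀ k ∈ Finset.range K, (N : ℝ) / 2 - n0 ≤
        (((Finset.Ico n0 N).filter (Gk k)).card : ℝ) := by
      intro k hk
      have h2 := hN1 k (Finset.mem_range.1 hk)
      have h3 : (((Finset.Ico n0 N).filter fun n => ¬ Gk k n).card : ℝ) ≤ N / 2 := by
        refine le_trans ?_ h2
        have h4 : (((Finset.Ico n0 N).filter fun n => ¬ Gk k n : Finset ℕ) : Set ℕ) ⊆
            {n : ℕ | n < N ∧ ¬ Gk k n} := by
          intro n hn
          rw [Finset.mem_coe, Finset.mem_filter, Finset.mem_Ico] at hn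
          exact ⟨hn.1.2, hn.2⟩
        have h5 := ncard_le_ncard h4 ((finite_Iio N).subset fun n hn => hn.1)
        rw [ncard_coe_finset] at h5
        exact Nat.cast_le.2 h5
      have h4 := Finset.card_filter_add_card_filter_not (s := Finset.Ico n0 N) (fun n => Gk k n)
      have h5 : (((Finset.Ico n0 N).filter fun n => Gk k n).card : ℝ) +
          (((Finset.Ico n0 N).filter fun n => ¬ Gk k n).card : ℝ) = ((Finset.Ico n0 N).card : ℝ) := by
        exact_mod_cast h4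
      rw [Nat.card_Ico, Nat.cast_sub (by omega)] at h5
      linarith
    have h2 := Finset.card_nsmul_le_sum (Finset.range K)
      (fun k => (((Finset.Ico n0 N).filter (Gk k)).card : ℝ)) _ h1
    rwa [Finset.card_range, nsmul_eq_mul] at h2
  refine lt_of_lt_of_le ?_ (hAc.trans hcard)
  have hD : 0 ≤ (K : ℝ) ^ 2 * q + c := by positivity
  have hsq : Real.sqrt ((N : ℝ) ^ 2 + ((K : ℝ) ^ 2 * q + c)) ≤ N + ((K : ℝ) ^ 2 * q + c + 1) := by
    rw [Real.sqrt_le_left (by positivity)]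
    have : (0 : ℝ) ≤ N := Nat.cast_nonneg _
    nlinarith
  have h1 : C * Real.sqrt ((N : ℝ) ^ 2 + ((K : ℝ) ^ 2 * q + c)) ≤
      |C| * (N + ((K : ℝ) ^ 2 * q + c + 1)) :=
    mul_le_mul (le_abs_self C) hsq (Real.sqrt_nonneg _) (abs_nonneg _)
  refine h1.trans_lt ?_
  have hC0 := abs_nonneg C
  have hn00 : (0 : ℝ) ≤ n0 := Nat.cast_nonneg _
  have hNn : (0 : ℝ) ≤ N := Nat.cast_nonneg _
  have h2 : (2 * |C| + 2) * N ≤ K * (N / 2) := by nlinarith
  nlinarith

end Pool.Agent.H240.SC
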