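import Pool.Agent.H240.SC.Fst
import Pool.Agent.H240.SC.Avg

/-!
# The abstract theorem on complete localization
-/

set_option autoImplicit false
set_option linter.unusedSectionVars false

open Set Filter Topology MeasureTheory
open scoped Real ContDiff NNReal ENNReal

noncomputable section

namespace Pool.Agent.H240.SC

open Pool.Agent.Y262.QE Pool.Agent.Y264.QR

/-- one set of indices for all tolerances -/
theorem J_ex (E : ℕ → ℝ) (hEf : ∀ Λ : ℝ, {j | E j ≤ Λ}.Finite) (x : ℕ → ℝ) (hx : ∀ j, 0 ≤ x j)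
    (h : ∀ c : ℝ, 0 < c → ∀ C : ℝ, ∃ᶠ Λ : ℝ in atTop,
      C * Real.sqrt Λ < ({j | x j ≤ c ∧ E j ≤ Λ}.ncard : ℝ)) :
    ∃ J : Set ℕ, (∀ C : ℝ, ∃ᶠ Λ : ℝ in atTop, C * Real.sqrt Λ < ({j | j ∈ J ∧ E j ≤ Λ}.ncard : ℝ)) ∧
      Tendsto x (atTop ⊓ 𝓟 J) (𝓝 0) := by
  classical
  have step : ∀ (Λ : ℝ) (n : ℕ), ∃ Λ' : ℝ, Λ + 1 ≤ Λ' ∧ 1 ≤ Λ' ∧
      ((n : ℝ) + ({j | E j ≤ Λ}.ncard : ℝ)) * Real.sqrt Λ' <
        ({j | x j ≤ 1 / ((n : ℝ) + 1) ∧ E j ≤ Λ'}.ncard : ℝ) := by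
    intro Λ n
    obtain ⟨Λ', h1, h2, h3⟩ := ((h (1 / ((n : ℝ) + 1)) (by positivity)
      ((n : ℝ) + ({j | E j ≤ Λ}.ncard : ℝ))).and_eventually
      ((eventually_ge_atTop (Λ + 1)).and (eventually_ge_atTop 1))).exists
    exact ⟨Λ', h2, h3, h1⟩
  choose nxt n1 n2 n3 using step
  set Λs : ℕ → ℝ := fun n => Nat.rec 1 (fun n Λ => nxt Λ n) n with hΛs
  have hs : ∀ n, Λs (n + 1) = nxt (Λs n) n := fun n => rfl
  have hs1 : ∀ n, Λs n + 1 ≤ Λs (n + 1) := fun n => by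
    rw [hs]
    exact n1 _ _
  have hmono : Monotone Λs := monotone_nat_of_le_succ fun n => by linarith [hs1 n]
  have hs2 : ∀ n : ℕ, (n : ℝ) ≤ Λs n := by
    intro n
    induction n with
    | zero => simp [hΛs]
    | succ n ih =>
      have := hs1 n
      push_cast
      linarith
  set J : Set ℕ := {j | ∃ n : ℕ, x j ≤ 1 / ((n : ℝ) + 1) ∧ Λs n < E j ∧ E j ≤ Λs (n + 1)} with hJ
  refine ⟨J, fun C => ?_, ?_⟩
  · have hΛt : Tendsto (fun n => Λs (n + 1)) atTop atTop := by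
      refine tendsto_atTop_mono (fun n => ?_) tendsto_natCast_atTop_atTop
      have := hs2 (n + 1)
      push_cast at this
      linarith
    refine hΛt.frequently (Eventually.frequently ?_)
    obtain ⟨m, hm⟩ := exists_nat_ge C
    filter_upwards [eventually_ge_atTop m] with n hn
    have h1 := n3 (Λs n) n
    rw [← hs] at h1
    have h2 : 1 ≤ Λs (n + 1) := by
      rw [hs]
      exact n2 _ _
    have h3 : 1 ≤ Real.sqrt (Λs (n + 1)) := Real.one_le_sqrt.2 h2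
    have h4 : {j | x j ≤ 1 / ((n : ℝ) + 1) ∧ E j ≤ Λs (n + 1)} ⊆
        {j | j ∈ J ∧ E j ≤ Λs (n + 1)} ∪ {j | E j ≤ Λs n} := by
      rintro j ⟨g1, g2⟩
      by_cases hj : E j ≤ Λs n
      · exact Or.inr hj
      · exact Or.inl ⟨⟨n, g1, not_le.1 hj, g2⟩, g2⟩
    have h5 := (ncard_le_ncard h4 (((hEf (Λs (n + 1))).subset fun j hj => hj.2).union
      (hEf (Λs n)))).trans (ncard_union_le _ _)
    have h6 : ({j | x j ≤ 1 / ((n : ℝ) + 1) ∧ E j ≤ Λs (n + 1)}.ncard : ℝ) ≤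
        ({j | j ∈ J ∧ E j ≤ Λs (n + 1)}.ncard : ℝ) + ({j | E j ≤ Λs n}.ncard : ℝ) := by
      exact_mod_cast h5
    have h7 : (m : ℝ) ≤ n := by exact_mod_cast hn
    have h8 : (0 : ℝ) ≤ ({j | E j ≤ Λs n}.ncard : ℝ) := Nat.cast_nonneg _
    have h9 : C * Real.sqrt (Λs (n + 1)) ≤ n * Real.sqrt (Λs (n + 1)) :=
      mul_le_mul_of_nonneg_right (hm.trans h7) (by linarith)
    have h10 : ({j | E j ≤ Λs n}.ncard : ℝ) ≤ ({j | E j ≤ Λs n}.ncard : ℝ) *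
        Real.sqrt (Λs (n + 1)) := le_mul_of_one_le_right h8 h3
    show C * Real.sqrt (Λs (n + 1)) < _
    nlinarith
  · rw [Metric.tendsto_nhds]
    intro ε hε
    obtain ⟨n0, hn0⟩ := exists_nat_one_div_lt hε
    rw [eventually_inf_principal]
    have h1 : ∀ᶠ j in atTop, ¬ E j ≤ Λs n0 := by
      have h2 := (hEf (Λs n0)).subset (s := {j | E j ≤ Λs n0}) (fun j hj => hj)
      obtain ⟨b, hb⟩ := h2.bddAbove
      filter_upwards [eventually_gt_atTop b] with j hj hcon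
      have := hb hcon
      omega
    filter_upwards [h1] with j hj hjJ
    obtain ⟨n, g1, g2, g3⟩ := hjJ
    have hnn : n0 ≤ n := by
      by_contra hlt
      have hle : n + 1 ≤ n0 := by omega
      exact hj (g3.trans (hmono hle))
    rw [Real.dist_eq, sub_zero, abs_of_nonneg (hx j)]
    refine (g1.trans ?_).trans_lt hn0
    apply one_div_le_one_div_of_le (by positivity)
    have : (n0 : ℝ) ≤ n := by exact_mod_cast hnn
    linarith

section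

variable {M : Type} [MetricSpace M] [CompactSpace M] [MeasurableSpace M] [BorelSpace M]
  {μ : Measure M} [IsFiniteMeasure μ]
  {H : Type} [NormedAddCommGroup H] [InnerProductSpace ℝ H] [CompleteSpace H]
  {i : H →L[ℝ] Lp ℝ 2 μ} {a : H →L[ℝ] H →L[ℝ] ℝ}
  {p : H → ℕ → ℝ → ℝ} {L : ℝ}
  {Φ : ℂ → M} {x1 x2 C0 : ℝ} {κ h : C(M, ℝ)} {κ0 h0 : ℝ → ℝ}

/-- almost every metric on the line has completely localized eigenfunctions -/
theorem abs_main (hS : Sf μ i a) {b : C(M, ℝ) → H →L[ℝ] H →L[ℝ] ℝ}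
    (hB : IsB μ i b) (hF : ∀ φ, Fm a (b φ)) (hC : CyF μ L Φ i a p)
    (hG : Geo L x1 x2 C0 Φ κ h κ0 h0) :
    ∀ᵐ s : ℝ, ∀ (g : ℕ → H) (E : ℕ → ℝ), Eg a (b (κ + s • h)) g E →
      ∃ J : Set ℕ, (∀ C : ℝ, ∃ᶠ Λ : ℝ in atTop,
        C * Real.sqrt Λ < ({j | j ∈ J ∧ E j ≤ Λ}.ncard : ℝ)) ∧
        Tendsto (fun j => kap μ i h (κ + s • h) (g j)) (atTop ⊓ 𝓟 J) (𝓝 0) := by
  classical
  obtain ⟨m, hm⟩ := isM_ex μ i
  have x12 := hG.prm.x12
  set q : ℝ := (π / (x2 - x1)) ^ 2 with hq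
  have hq0 : 0 < q := by
    have : 0 < x2 - x1 := by linarith
    positivity
  have hee : ∀ k : ℕ, ee x1 x2 k = ((k : ℝ) + 1) ^ 2 * q := by
    intro k
    unfold ee
    rw [hq]
    ring
  have hmain : ∀ᵐ s : ℝ, ∀ (R l : ℕ), s ∈ Icc (-((R : ℝ) + 1)) ((R : ℝ) + 1) → ∀ K : ℕ,
      ∃ᶠ N : ℕ in atTop, ∀ k < K, ({n : ℕ | n < N ∧ ¬ Gd μ i a b κ h (min q (1 / ((l : ℝ) + 1)))
        (((n : ℝ) + 1) ^ 2 + ee x1 x2 k) s}.ncard : ℝ) ≤ N / 2 := by
    rw [ae_all_iff]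
    intro R
    rw [ae_all_iff]
    intro l
    have hR : -((R : ℝ) + 1) < (R : ℝ) + 1 := by
      have : (0 : ℝ) ≤ R := Nat.cast_nonneg _
      linarith
    have hc0 : 0 < min q (1 / ((l : ℝ) + 1)) := lt_min hq0 (by positivity)
    have h1 := avg_bad (s1 := -((R : ℝ) + 1)) (s2 := (R : ℝ) + 1)
      (fun k n => {s : ℝ | s ∈ Icc (-((R : ℝ) + 1)) ((R : ℝ) + 1) ∧
        ¬ Gd μ i a b κ h (min q (1 / ((l : ℝ) + 1))) (((n : ℝ) + 1) ^ 2 + ee x1 x2 k) s})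
      (fun k n s hs => hs.1)
      (fun k η hη => good_vol hS hm hB hF hC hG hR k hc0 η hη)
    filter_upwards [h1] with s hs hsR K
    refine (hs K 1).mono fun N hN k hk => ?_
    have h2 := hN k hk
    have e1 : {n : ℕ | n < N ∧ s ∈ {s : ℝ | s ∈ Icc (-((R : ℝ) + 1)) ((R : ℝ) + 1) ∧
        ¬ Gd μ i a b κ h (min q (1 / ((l : ℝ) + 1))) (((n : ℝ) + 1) ^ 2 + ee x1 x2 k) s}} =
        {n : ℕ | n < N ∧ ¬ Gd μ i a b κ h (min q (1 / ((l : ℝ) + 1)))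
        (((n : ℝ) + 1) ^ 2 + ee x1 x2 k) s} := by
      ext n
      constructor
      · rintro ⟨g1, g2⟩
        exact ⟨g1, g2.2⟩
      · rintro ⟨g1, g2⟩
        exact ⟨g1, hsR, g2⟩
    rw [← e1]
    refine le_trans h2 (le_of_eq ?_)
    norm_num
  filter_upwards [hmain] with s hs g E hE
  have hEf : ∀ Λ : ℝ, {j | E j ≤ Λ}.Finite := by
    intro Λ
    obtain ⟨j0, hj0⟩ := (hE.tt.eventually (eventually_gt_atTop Λ)).exists_forall_of_atTop
    refine (Set.finite_Iio j0).subset fun j hj => ?_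
    by_contra hcon
    have h1 := hj0 j (not_lt.1 hcon)
    have h2 : E j ≤ Λ := hj
    linarith
  obtain ⟨R, hR⟩ := exists_nat_ge |s|
  have hsR : s ∈ Icc (-((R : ℝ) + 1)) ((R : ℝ) + 1) := by
    have := abs_le.1 hR
    exact ⟨by linarith [this.1], by linarith [this.2]⟩
  refine J_ex E hEf _ (fun j => ?_) fun c hc C => ?_
  · exact integral_nonneg fun x => mul_nonneg (hG.hn x) (mul_nonneg (Real.exp_pos _).le (sq_nonneg _))
  · obtain ⟨l, hl⟩ := exists_nat_one_div_lt hc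
    set c' : ℝ := min q (1 / ((l : ℝ) + 1)) with hc'
    have hc0 : 0 < c' := lt_min hq0 (by positivity)
    have hcc : c' ≤ c := (min_le_right _ _).trans hl.le
    have h1 := count hq0 E hEf (fun j => kap μ i h (κ + s • h) (g j) ≤ c') hc0 (min_le_left _ _)
      (fun K => ?_) C
    · refine h1.mono fun Λ hΛ => hΛ.trans_le ?_
      have h2 : {j | kap μ i h (κ + s • h) (g j) ≤ c' ∧ E j ≤ Λ} ⊆
          {j | kap μ i h (κ + s • h) (g j) ≤ c ∧ E j ≤ Λ} := fun j hj => ⟨hj.1.trans hcc, hj.2⟩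
      exact Nat.cast_le.2 (ncard_le_ncard h2 ((hEf Λ).subset fun j hj => hj.2))
    · refine (hs R l hsR K).mono fun N hN k hk => ?_
      refine le_trans ?_ (hN k hk)
      refine Nat.cast_le.2 (ncard_le_ncard ?_ ((finite_Iio N).subset fun n hn => hn.1))
      rintro n ⟨g1, g2⟩
      refine ⟨g1, fun hgd => g2 ?_⟩
      obtain ⟨j, g3, g4⟩ := hgd g E hE
      rw [hee] at g3
      exact ⟨j, g3, g4⟩

end

end Pool.Agent.H240.SC
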