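import Pool.Agent.H240.SC.CyfEx
import Pool.Agent.H240.SC.AbsThm

/-!
# Complete localization on surfaces with a flat cylinder
-/

set_option autoImplicit false
set_option linter.unusedSectionVars false

open Set Filter Topology MeasureTheory
open scoped Real ContDiff ComplexConjugate

noncomputable section

namespace Pool.Agent.H240.SC

open Pool.Agent.Y262.QE Pool.Agent.Y264.QR

theorem surf_main {M : Type} [MetricSpace M] [CompactSpace M] [MeasurableSpace M] [BorelSpace M]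
    {μ : Measure M} {D : Data M} {L : ℝ} {Φ : ℂ → M} {σ : M → M} (hD : D.IsSurf μ)
    (hC : D.IsCyl μ L Φ σ) {x1 x2 C0 : ℝ} {κ h : C(M, ℝ)} {κ0 h0 : ℝ → ℝ}
    (hG : Geo L x1 x2 C0 Φ κ h κ0 h0) :
    ∀ᵐ s : ℝ, ∀ (u : ℕ → M → ℝ) (lam : ℕ → ℝ),
      EigBasis (D.conf fun x => Real.exp ((κ + s • h) x))
        (wm μ fun x => Real.exp ((κ + s • h) x)) u lam →
      ∃ J : Set ℕ, (∀ C : ℝ, ∃ᶠ Λ : ℝ in atTop,
        C * Real.sqrt Λ < ({j | j ∈ J ∧ lam j ≤ Λ}.ncard : ℝ)) ∧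
        Tendsto (fun j => ∫ x, h x * (u j x) ^ 2 ∂(wm μ fun x => Real.exp ((κ + s • h) x)))
          (atTop ⊓ 𝓟 J) (𝓝 0) := by
  obtain ⟨hfin, hpos⟩ := tFin M μ D hD
  have hM : Nonempty M := ⟨Φ 0⟩
  obtain ⟨iF, aF, hSf, hiF, haF⟩ := tPackF M μ D hD hM
  have : CompleteSpace (HF D μ) :=
    (Submodule.isClosed_topologicalClosure _).completeSpace_coe
  obtain ⟨bF, hBF, hFF, -⟩ := tFm M μ (HF D μ) iF aF hSf
  have hCy := cyF_ex hD hC hiF haF
  filter_upwards [abs_main hSf hBF hFF hCy hG] with s hs u lam hu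
  obtain ⟨e, heu, hEg⟩ := tBr M μ D hD iF aF bF hSf hiF haF hBF hFF (κ + s • h) u lam hu
  obtain ⟨J, hJ1, hJ2⟩ := hs e lam hEg
  refine ⟨J, hJ1, ?_⟩
  refine hJ2.congr fun j => ?_
  exact kap_eq μ iF h (κ + s • h) (e j) (u j) (heu j)

end Pool.Agent.H240.SC
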