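import Pool.Agent.H240.SC.Ode

/-!
# The boundary values tend to zero
-/

set_option autoImplicit false

open Set Filter Topology MeasureTheory intervalIntegral
open scoped Real ContDiff

noncomputable section

namespace Pool.Agent.H240.SC

open Pool.Agent.Y262.QE

section

variable {L : ℝ} {P Q R U1 U1' U2 U2' : ℝ → ℝ}

/-- a point `y` and an interval `[u, v]` which contains it: the value at `y` is small if the weighted
mean over the interval is small -/
theorem bdry (hd1 : ∀ x, HasDerivAt U1 (U1' x) x) (hc1 : Continuous U1')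
    (hd2 : ∀ x, HasDerivAt U2 (U2' x) x) (hc2 : Continuous U2')
    {u v y : ℝ} (huv : u ≤ v) (hy : y ∈ Icc u v) {w : ℝ → ℝ} (hw : ContinuousOn w (Icc u v))
    (hw0 : ∀ x ∈ Icc u v, 0 ≤ w x) {J B : ℝ}
    (hJ : ∫ x in u..v, ((U1' x) ^ 2 + (U2' x) ^ 2) ≤ J)
    (hB : ∫ x in u..v, w x * ((U1 x) ^ 2 + (U2 x) ^ 2) ≤ B) :
    ((U1 y) ^ 2 + (U2 y) ^ 2) * ∫ x in u..v, w x ≤ 2 * B + 2 * (v - u) * J * ∫ x in u..v, w x := by
  have hk1 : Continuous U1 := continuous_iff_continuousAt.2 fun x => (hd1 x).continuousAt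
  have hk2 : Continuous U2 := continuous_iff_continuousAt.2 fun x => (hd2 x).continuousAt
  have hD : Continuous fun x => (U1' x) ^ 2 + (U2' x) ^ 2 := by fun_prop
  have hDi : ∀ a b : ℝ, IntervalIntegrable (fun x => (U1' x) ^ 2 + (U2' x) ^ 2) volume a b :=
    fun a b => hD.intervalIntegrable _ _
  -- the difference
  have hdiff : ∀ x ∈ Icc u v, (U1 y - U1 x) ^ 2 + (U2 y - U2 x) ^ 2 ≤ (v - u) * J := by
    intro x hx
    have hsub : ∀ a b : ℝ, u ≤ a → a ≤ b → b ≤ v →
        (b - a) * ∫ t in a..b, ((U1' t) ^ 2 + (U2' t) ^ 2) ≤ (v - u) * J := by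
      intro a b h1 h2 h3
      have h4 : ∫ t in a..b, ((U1' t) ^ 2 + (U2' t) ^ 2) ≤ J := by
        refine le_trans ?_ hJ
        exact intervalIntegral.integral_mono_interval h1 h2 h3
          (Eventually.of_forall fun t => by positivity) (hDi u v)
      have h5 : 0 ≤ ∫ t in a..b, ((U1' t) ^ 2 + (U2' t) ^ 2) :=
        intervalIntegral.integral_nonneg h2 fun t _ => by positivity
      have h6 : 0 ≤ J := h5.trans h4
      calc (b - a) * ∫ t in a..b, ((U1' t) ^ 2 + (U2' t) ^ 2) ≤ (b - a) * J :=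
            mul_le_mul_of_nonneg_left h4 (by linarith)
        _ ≤ (v - u) * J := mul_le_mul_of_nonneg_right (by linarith) h6
    have hadd : ∀ a b : ℝ, ∫ t in a..b, ((U1' t) ^ 2 + (U2' t) ^ 2) =
        (∫ t in a..b, (U1' t) ^ 2) + ∫ t in a..b, (U2' t) ^ 2 := fun a b =>
      intervalIntegral.integral_add ((hc1.pow 2).intervalIntegrable _ _)
        ((hc2.pow 2).intervalIntegrable _ _)
    rcases le_total x y with h | h
    · have g1 := diff_sq hd1 hc1 h
      have g2 := diff_sq hd2 hc2 h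
      have g3 := hsub x y hx.1 h hy.2
      rw [hadd] at g3
      linarith
    · have g1 := diff_sq hd1 hc1 h
      have g2 := diff_sq hd2 hc2 h
      have g3 := hsub y x hy.1 h hx.2
      rw [hadd] at g3
      have e1 : (U1 y - U1 x) ^ 2 = (U1 x - U1 y) ^ 2 := by ring
      have e2 : (U2 y - U2 x) ^ 2 = (U2 x - U2 y) ^ 2 := by ring
      rw [e1, e2]
      linarith
  have hpt : ∀ x ∈ Icc u v, w x * ((U1 y) ^ 2 + (U2 y) ^ 2) ≤
      2 * (w x * ((U1 x) ^ 2 + (U2 x) ^ 2)) + 2 * (v - u) * J * w x := by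
    intro x hx
    have h1 := hdiff x hx
    have h2 : (U1 y) ^ 2 + (U2 y) ^ 2 ≤ 2 * ((U1 x) ^ 2 + (U2 x) ^ 2) + 2 * ((v - u) * J) := by
      nlinarith [sq_nonneg (U1 y - 2 * U1 x), sq_nonneg (U2 y - 2 * U2 x)]
    have h3 := mul_le_mul_of_nonneg_left h2 (hw0 x hx)
    calc _ ≤ _ := h3
      _ = _ := by ring
  have hwi : IntervalIntegrable w volume u v := by
    refine ContinuousOn.intervalIntegrable ?_
    rwa [uIcc_of_le huv]
  have hwi2 : IntervalIntegrable (fun x => w x * ((U1 x) ^ 2 + (U2 x) ^ 2)) volume u v := by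
    refine ContinuousOn.intervalIntegrable ?_
    rw [uIcc_of_le huv]
    exact hw.mul (by fun_prop : Continuous fun x => (U1 x) ^ 2 + (U2 x) ^ 2).continuousOn
  have h1 : ∫ x in u..v, w x * ((U1 y) ^ 2 + (U2 y) ^ 2) ≤
      ∫ x in u..v, (2 * (w x * ((U1 x) ^ 2 + (U2 x) ^ 2)) + 2 * (v - u) * J * w x) :=
    intervalIntegral.integral_mono_on huv (hwi.mul_const _)
      ((hwi2.const_mul _).add (hwi.const_mul _)) hpt
  rw [intervalIntegral.integral_mul_const, intervalIntegral.integral_add (hwi2.const_mul _)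
    (hwi.const_mul _), intervalIntegral.integral_const_mul, intervalIntegral.integral_const_mul] at h1
  linarith

/-- the test with a sine function -/
theorem sinetest (h : Cls2 L P Q R U1 U1' U2 U2') {x1 x2 e ε' : ℝ} (h1 : 0 < x1) (h12 : x1 < x2)
    (h2 : x2 < L) {S S' : ℝ → ℝ} (hS : ∀ x, HasDerivAt S (S' x) x)
    (hS' : ∀ x, HasDerivAt S' (-e * S x) x) (hS1 : S x1 = 0) (hS2 : S x2 = 0)
    (hP : ∀ x ∈ Icc x1 x2, P x = -e) (hQ : ∀ x ∈ Icc x1 x2, Q x = ε')
    (hR : ContinuousOn R (Icc x1 x2)) :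
    ε' * (∫ x in x1..x2, S x * U2 x) = (∫ x in x1..x2, S x * R x) -
      (S' x2 * U1 x2 - S' x1 * U1 x1) ∧
    ε' * (∫ x in x1..x2, S x * U1 x) = S' x2 * U2 x2 - S' x1 * U2 x1 := by
  have hk1 := h.k1
  have hk2 := h.k2
  have hc1 := h.c1
  have hc2 := h.c2
  have hSc : Continuous S := continuous_iff_continuousAt.2 fun x => (hS x).continuousAt
  have hSc' : Continuous S' := continuous_iff_continuousAt.2 fun x => (hS' x).continuousAt
  have hsub : Ioo x1 x2 ⊆ Ioo 0 L := Ioo_subset_Ioo h1.le h2.le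
  have hRi : ∀ g : ℝ → ℝ, Continuous g → IntervalIntegrable (fun x => g x * R x) volume x1 x2 := by
    intro g hg
    refine ContinuousOn.intervalIntegrable ?_
    rw [uIcc_of_le h12.le]
    exact hg.continuousOn.mul hR
  constructor
  · have key := intervalIntegral.integral_eq_sub_of_hasDerivAt_of_le h12.le
      (f := fun x => S x * U1' x - S' x * U1 x) (f' := fun x => ε' * (S x * U2 x) - S x * R x)
      (by fun_prop) (fun x hx => ?_) ?_
    · have i1 : IntervalIntegrable (fun x => ε' * (S x * U2 x)) volume x1 x2 :=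
        (by fun_prop : Continuous fun x => ε' * (S x * U2 x)).intervalIntegrable _ _
      rw [intervalIntegral.integral_sub i1 (hRi S hSc), intervalIntegral.integral_const_mul] at key
      rw [hS1, hS2] at key
      linarith
    · have a1 := h.d1 x
      have a3 := h.e1 x (hsub hx)
      rw [hP x (Ioo_subset_Icc_self hx), hQ x (Ioo_subset_Icc_self hx)] at a3
      refine (((hS x).mul a3).sub ((hS' x).mul a1)).congr_deriv ?_
      ring
    · exact ((hSc.mul hk2).const_mul _ |>.intervalIntegrable _ _).sub (hRi S hSc)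
  · have key := intervalIntegral.integral_eq_sub_of_hasDerivAt_of_le h12.le
      (f := fun x => S x * U2' x - S' x * U2 x) (f' := fun x => -(ε' * (S x * U1 x)))
      (by fun_prop) (fun x hx => ?_) ?_
    · rw [intervalIntegral.integral_neg, intervalIntegral.integral_const_mul] at key
      rw [hS1, hS2] at key
      linarith
    · have a1 := h.d2 x
      have a3 := h.e2 x (hsub hx)
      rw [hP x (Ioo_subset_Icc_self hx), hQ x (Ioo_subset_Icc_self hx)] at a3
      refine (((hS x).mul a3).sub ((hS' x).mul a1)).congr_deriv ?_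
      ring
    · exact (((hSc.mul hk1).const_mul _).neg |>.intervalIntegrable _ _)

end

end Pool.Agent.H240.SC
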