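import Mathlib

/-!
# Cauchy's theorem on a rectangle for functions which are small in the interior
-/

set_option autoImplicit false

open Set Filter Topology MeasureTheory
open scoped Real ContDiff Interval

noncomputable section

namespace Pool.Agent.H240.SC

theorem dom {a b θ : ℝ} (hab : a ≤ b) (g : ℕ → ℝ → ℝ) (hg : ∀ n, ContinuousOn (g n) (Icc a b))
    (hb : ∀ n, ∀ x ∈ Icc a b, 0 ≤ g n x ∧ g n x ≤ 2)
    (hl : ∀ x ∈ Ioo a b, ∀ ε : ℝ, 0 < ε → ∀ᶠ n in atTop, g n x ≤ θ + ε) :
    ∀ ε : ℝ, 0 < ε → ∀ᶠ n in atTop, ∫ x in a..b, g n x ≤ θ * (b - a) + ε := by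
  intro ε hε
  have hlim : Tendsto (fun n => ∫ x in a..b, max (g n x - θ) 0) atTop (𝓝 (∫ x in a..b, (0 : ℝ))) := by
    refine intervalIntegral.tendsto_integral_filter_of_dominated_convergence
      (F := fun (n : ℕ) x => max (g n x - θ) 0) (fun _ => 2 + |θ|) ?_ ?_ ?_ ?_
    · refine Eventually.of_forall fun n => ?_
      rw [uIoc_of_le hab]
      refine ContinuousOn.aestronglyMeasurable ?_ measurableSet_Ioc
      have := (hg n).mono (Ioc_subset_Icc_self)
      fun_prop
    · refine Eventually.of_forall fun n => ?_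
      refine Eventually.of_forall fun x hx => ?_
      rw [uIoc_of_le hab] at hx
      obtain ⟨h1, h2⟩ := hb n x (Ioc_subset_Icc_self hx)
      rw [Real.norm_eq_abs, abs_of_nonneg (le_max_right _ _)]
      refine max_le ?_ (by positivity)
      have := neg_abs_le θ
      linarith
    · exact intervalIntegrable_const
    · have h1 : ∀ᵐ x : ℝ, x ≠ b := by
        rw [ae_iff]
        simp
      filter_upwards [h1] with x hxb hx
      rw [uIoc_of_le hab] at hx
      have hx' : x ∈ Ioo a b := ⟨hx.1, lt_of_le_of_ne hx.2 hxb⟩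
      rw [Metric.tendsto_nhds]
      intro ε' hε'
      filter_upwards [hl x hx' (ε' / 2) (by positivity)] with n hn
      rw [Real.dist_eq, sub_zero, abs_of_nonneg (le_max_right _ _)]
      exact max_lt (by linarith) hε'
  simp only [intervalIntegral.integral_zero] at hlim
  filter_upwards [hlim.eventually (eventually_lt_nhds hε)] with n hn
  have i1 : IntervalIntegrable (g n) volume a b := by
    refine ContinuousOn.intervalIntegrable ?_
    rw [uIcc_of_le hab]
    exact hg n
  have i2 : IntervalIntegrable (fun x => max (g n x - θ) 0) volume a b := by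
    refine ContinuousOn.intervalIntegrable ?_
    rw [uIcc_of_le hab]
    have := hg n
    fun_prop
  have h1 : ∫ x in a..b, g n x ≤ ∫ x in a..b, (θ + max (g n x - θ) 0) := by
    refine intervalIntegral.integral_mono_on hab i1 (intervalIntegrable_const.add i2) fun x _ => ?_
    have := le_max_left (g n x - θ) 0
    linarith
  rw [intervalIntegral.integral_add intervalIntegrable_const i2, intervalIntegral.integral_const,
    smul_eq_mul] at h1
  linarith

/-- Cauchy's theorem on a rectangle -/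
theorem cauchy_lim {s1 s2 t θ : ℝ} (h12 : s1 < s2) (ht : 0 < t) (F : ℕ → ℂ → ℂ)
    (hc : ∀ n, ContinuousOn (F n) {z | z.re ∈ Icc s1 s2 ∧ z.im ∈ Icc 0 t})
    (hd : ∀ n z, z.re ∈ Ioo s1 s2 → z.im ∈ Ioo 0 t → DifferentiableAt ℂ (F n) z)
    (hb : ∀ n z, z.re ∈ Icc s1 s2 → z.im ∈ Icc 0 t → ‖F n z‖ ≤ 2)
    (hl : ∀ z : ℂ, z.re ∈ Icc s1 s2 → z.im ∈ Ioc 0 t → ∀ ε : ℝ, 0 < ε →
      ∀ᶠ n in atTop, ‖F n z‖ ≤ θ + ε) :
    ∀ ε : ℝ, 0 < ε → ∀ᶠ n in atTop, |∫ x in s1..s2, (F n x).re| ≤ θ * (s2 - s1 + 2 * t) + ε := by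
  intro ε hε
  have hre : ∀ x y : ℝ, ((x : ℂ) + y * Complex.I).re = x := by intro x y; simp
  have him : ∀ x y : ℝ, ((x : ℂ) + y * Complex.I).im = y := by intro x y; simp
  -- the three sides
  have c1 : ∀ (n : ℕ) (y : ℝ), y ∈ Icc 0 t →
      ContinuousOn (fun x : ℝ => F n (x + y * Complex.I)) (Icc s1 s2) := by
    intro n y hy
    refine (hc n).comp (by fun_prop) fun x hx => ?_
    exact ⟨by rw [hre]; exact hx, by rw [him]; exact hy⟩
  have c2 : ∀ (n : ℕ) (x : ℝ), x ∈ Icc s1 s2 →
      ContinuousOn (fun y : ℝ => F n (x + y * Complex.I)) (Icc 0 t) := by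
    intro n x hx
    refine (hc n).comp (by fun_prop) fun y hy => ?_
    exact ⟨by rw [hre]; exact hx, by rw [him]; exact hy⟩
  have d1 := dom (θ := θ) h12.le (fun n x => ‖F n (x + t * Complex.I)‖)
    (fun n => (c1 n t ⟨ht.le, le_rfl⟩).norm)
    (fun n x hx => ⟨norm_nonneg _, hb n _ (by rw [hre]; exact hx) (by rw [him]; exact ⟨ht.le, le_rfl⟩)⟩)
    (fun x hx ε hε => hl _ (by rw [hre]; exact Ioo_subset_Icc_self hx)
      (by rw [him]; exact ⟨ht, le_rfl⟩) ε hε) (ε / 3) (by positivity)
  have d2 := dom (θ := θ) ht.le (fun n y => ‖F n (s2 + y * Complex.I)‖)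
    (fun n => (c2 n s2 ⟨h12.le, le_rfl⟩).norm)
    (fun n y hy => ⟨norm_nonneg _, hb n _ (by rw [hre]; exact ⟨h12.le, le_rfl⟩)
      (by rw [him]; exact hy)⟩)
    (fun y hy ε hε => hl _ (by rw [hre]; exact ⟨h12.le, le_rfl⟩)
      (by rw [him]; exact ⟨hy.1, hy.2.le⟩) ε hε) (ε / 3) (by positivity)
  have d3 := dom (θ := θ) ht.le (fun n y => ‖F n (s1 + y * Complex.I)‖)
    (fun n => (c2 n s1 ⟨le_rfl, h12.le⟩).norm)
    (fun n y hy => ⟨norm_nonneg _, hb n _ (by rw [hre]; exact ⟨le_rfl, h12.le⟩)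
      (by rw [him]; exact hy)⟩)
    (fun y hy ε hε => hl _ (by rw [hre]; exact ⟨le_rfl, h12.le⟩)
      (by rw [him]; exact ⟨hy.1, hy.2.le⟩) ε hε) (ε / 3) (by positivity)
  filter_upwards [d1, d2, d3] with n n1 n2 n3
  have hz := Complex.integral_boundary_rect_eq_zero_of_continuousOn_of_differentiableOn (F n)
    (s1 : ℂ) (s2 + t * Complex.I) ?_ ?_
  · simp only [Complex.ofReal_re, Complex.ofReal_im, hre, him, Complex.ofReal_zero, zero_mul,
      add_zero] at hz
    have e1 : ∫ x in s1..s2, (F n x).re = (∫ x in s1..s2, F n x).re := by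
      have i1 : IntervalIntegrable (fun x : ℝ => F n x) volume s1 s2 := by
        refine ContinuousOn.intervalIntegrable ?_
        rw [uIcc_of_le h12.le]
        have := c1 n 0 ⟨le_rfl, ht.le⟩
        simpa using this
      have := ContinuousLinearMap.intervalIntegral_comp_comm Complex.reCLM i1
      simpa using this
    have e2 : ∫ x in s1..s2, F n x = (∫ x in s1..s2, F n (x + t * Complex.I)) -
        Complex.I • (∫ y in (0 : ℝ)..t, F n (s2 + y * Complex.I)) +
        Complex.I • ∫ y in (0 : ℝ)..t, F n (s1 + y * Complex.I) := by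
      linear_combination hz
    have e3 : ‖∫ x in s1..s2, F n x‖ ≤ ‖∫ x in s1..s2, F n (x + t * Complex.I)‖ +
        ‖∫ y in (0 : ℝ)..t, F n (s2 + y * Complex.I)‖ +
        ‖∫ y in (0 : ℝ)..t, F n (s1 + y * Complex.I)‖ := by
      rw [e2]
      refine (norm_add_le _ _).trans ?_
      refine (add_le_add_left (norm_sub_le _ _) _).trans ?_
      rw [norm_smul, norm_smul, Complex.norm_I, one_mul, one_mul]
    have f1 := intervalIntegral.norm_integral_le_integral_norm
      (f := fun x : ℝ => F n (x + t * Complex.I)) (μ := volume) h12.le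
    have f2 := intervalIntegral.norm_integral_le_integral_norm
      (f := fun y : ℝ => F n (s2 + y * Complex.I)) (μ := volume) ht.le
    have f3 := intervalIntegral.norm_integral_le_integral_norm
      (f := fun y : ℝ => F n (s1 + y * Complex.I)) (μ := volume) ht.le
    rw [e1]
    refine (Complex.abs_re_le_norm _).trans ?_
    simp only [sub_zero] at n2 n3
    have e4 : θ * (s2 - s1 + 2 * t) + ε = (θ * (s2 - s1) + ε / 3) + (θ * t + ε / 3) +
        (θ * t + ε / 3) := by ring
    rw [e4]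
    linarith
  · refine (hc n).mono ?_
    intro z hz
    obtain ⟨h1, h2⟩ := hz
    simp only [mem_preimage, Complex.ofReal_re, Complex.ofReal_im, hre, him] at h1 h2
    rw [uIcc_of_le h12.le] at h1
    rw [uIcc_of_le ht.le] at h2
    exact ⟨h1, h2⟩
  · intro z hz
    obtain ⟨h1, h2⟩ := hz
    simp only [mem_preimage, Complex.ofReal_re, Complex.ofReal_im, hre, him, min_eq_left h12.le,
      max_eq_right h12.le, min_eq_left ht.le, max_eq_right ht.le] at h1 h2
    exact (hd n z h1 h2).differentiableWithinAt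

end Pool.Agent.H240.SC
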