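import Pool.Agent.H240.SC.Hol2

/-!
# The damped equation on the surface in the limit of high frequency
-/

set_option autoImplicit false
set_option linter.unusedSectionVars false

open Set Filter Topology MeasureTheory
open scoped Real ContDiff

noncomputable section

namespace Pool.Agent.H240.SC

open Pool.Agent.Y262.QE Pool.Agent.Y264.QR

/-- everything which is needed of the flat cylinder in the surface: the Fourier coefficients `p v m`
on the cylinder which is parametrized by `Φ` -/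
structure CyF {M : Type} [TopologicalSpace M] [MeasurableSpace M] (μ : Measure M) (L : ℝ)
    (Φ : ℂ → M) {H : Type} [NormedAddCommGroup H] [InnerProductSpace ℝ H] (i : H →L[ℝ] Lp ℝ 2 μ)
    (a : H →L[ℝ] H →L[ℝ] ℝ) (p : H → ℕ → ℝ → ℝ) : Prop where
  pos : 0 < L
  mem : ∀ v m, MemLp (p v m) 2 (volume.restrict (Ioo 0 L))
  bd : ∀ (f : C(M, ℝ)) (f0 : ℝ → ℝ), (∀ x, 0 ≤ f x) → (∀ z ∈ Strip L, f (Φ z) = f0 z.re) →
    ∀ v m, ∫ x in Ioo 0 L, f0 x * (p v m x) ^ 2 ≤ ∫ x, f x * (i v x * i v x) ∂μ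
  tst : ∀ η, Tst L η → ∀ m : ℕ, ∃ e : H,
    (p e m =ᵐ[volume.restrict (Ioo 0 L)] η) ∧
    (∀ (f : C(M, ℝ)) (f0 : ℝ → ℝ), (∀ z ∈ Strip L, f (Φ z) = f0 z.re) →
      ∀ v, ∫ x, f x * (i e x * i v x) ∂μ = ∫ x in Ioo 0 L, f0 x * η x * p v m x) ∧
    ∀ v, a e v = ∫ x in Ioo 0 L, (-(iteratedDeriv 2 η x) + ((m : ℝ) + 1) ^ 2 * η x) * p v m x

/-- the functions `κ` and `h` on the surface are the functions `κ0` and `h0` on the cylinder -/
structure Geo {M : Type} [TopologicalSpace M] (L x1 x2 C0 : ℝ) (Φ : ℂ → M) (κ h : C(M, ℝ))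
    (κ0 h0 : ℝ → ℝ) : Prop where
  prm : Prm L x1 x2 C0 κ0 h0
  κΦ : ∀ z ∈ Strip L, κ (Φ z) = κ0 z.re
  hΦ : ∀ z ∈ Strip L, h (Φ z) = h0 z.re
  hn : ∀ x, 0 ≤ h x

section

variable {M : Type} [MetricSpace M] [CompactSpace M] [MeasurableSpace M] [BorelSpace M]
  {μ : Measure M} [IsFiniteMeasure μ]
  {H : Type} [NormedAddCommGroup H] [InnerProductSpace ℝ H] {i : H →L[ℝ] Lp ℝ 2 μ}
  {a : H →L[ℝ] H →L[ℝ] ℝ} {m : C(M, ℝ) → H →L[ℝ] H →L[ℝ] ℝ} {p : H → ℕ → ℝ → ℝ} {L : ℝ}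
  {Φ : ℂ → M} {x1 x2 C0 : ℝ} {κ h : C(M, ℝ)} {κ0 h0 : ℝ → ℝ}

/-- `χ` is the test vector which belongs to `ρ` and the frequency `n` -/
structure IsT (m : C(M, ℝ) → H →L[ℝ] H →L[ℝ] ℝ) (a : H →L[ℝ] H →L[ℝ] ℝ) (p : H → ℕ → ℝ → ℝ) (L : ℝ)
    (Φ : ℂ → M) (ρ : ℝ → ℝ) (n : ℕ) (χ : H) : Prop where
  pe : p χ n =ᵐ[volume.restrict (Ioo 0 L)] ρ
  me : ∀ (f : C(M, ℝ)) (f0 : ℝ → ℝ), (∀ z ∈ Strip L, f (Φ z) = f0 z.re) →
    ∀ v, m f χ v = ∫ x in Ioo 0 L, f0 x * ρ x * p v n x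
  ae : ∀ v, a χ v = ∫ x in Ioo 0 L, (-(iteratedDeriv 2 ρ x) + ((n : ℝ) + 1) ^ 2 * ρ x) * p v n x

theorem isT_ex (hm : IsM μ i m) (hC : CyF μ L Φ i a p) {ρ : ℝ → ℝ} (hρ : Tst L ρ) (n : ℕ) :
    ∃ χ, IsT m a p L Φ ρ n χ := by
  obtain ⟨e, h1, h2, h3⟩ := hC.tst ρ hρ n
  exact ⟨e, h1, fun f f0 hf v => by rw [hm, h2 f f0 hf], h3⟩

/-- the equation for the Fourier coefficients of the solutions of the damped equation -/
theorem ode_of_sol (hS : Sf μ i a) (hm : IsM μ i m) (hC : CyF μ L Φ i a p)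
    (hG : Geo L x1 x2 C0 Φ κ h κ0 h0) {ρ : ℝ → ℝ} (hρ : Tst L ρ) {n : ℕ} {χ : H}
    (hχ : IsT m a p L Φ ρ n χ) {E ε : ℝ} {s : ℂ} {w1 w2 : H}
    (hw : Sol m a (cA E ε κ h s) (cB E ε κ h s) χ w1 w2) :
    ∃ U1 U1' U2 U2' : ℝ → ℝ, Cls2 L (fun x => ((n : ℝ) + 1) ^ 2 - fA E ε s.re s.im (κ0 x) (h0 x))
        (fun x => fB E ε s.re s.im (κ0 x) (h0 x)) ρ U1 U1' U2 U2' ∧
      p w1 n =ᵐ[volume.restrict (Ioo 0 L)] U1 ∧ p w2 n =ᵐ[volume.restrict (Ioo 0 L)] U2 := by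
  have hκc := hG.prm.κc
  have hhc := hG.prm.hc
  have hPc : ContinuousOn (fun x => fA E ε s.re s.im (κ0 x) (h0 x)) (Icc 0 L) := by
    unfold fA
    fun_prop
  have hQc : ContinuousOn (fun x => fB E ε s.re s.im (κ0 x) (h0 x)) (Icc 0 L) := by
    unfold fB
    fun_prop
  have hA : ∀ z ∈ Strip L, cA E ε κ h s (Φ z) = (fun x => fA E ε s.re s.im (κ0 x) (h0 x)) z.re := by
    intro z hz
    show fA E ε s.re s.im (κ (Φ z)) (h (Φ z)) = _
    rw [hG.κΦ z hz, hG.hΦ z hz]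
  have hB : ∀ z ∈ Strip L, cB E ε κ h s (Φ z) = (fun x => fB E ε s.re s.im (κ0 x) (h0 x)) z.re := by
    intro z hz
    show fB E ε s.re s.im (κ (Φ z)) (h (Φ z)) = _
    rw [hG.κΦ z hz, hG.hΦ z hz]
  have h1 : ∀ z ∈ Strip L, (1 : C(M, ℝ)) (Φ z) = (fun _ => 1 : ℝ → ℝ) z.re := fun z _ => rfl
  -- integrability
  have hint : ∀ (g : ℝ → ℝ) (η : ℝ → ℝ) (v : H), ContinuousOn g (Icc 0 L) → Continuous η →
      Integrable (fun x => g x * η x * p v n x) (volume.restrict (Ioo 0 L)) := by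
    intro g η v hg hη
    have h2 : MemLp (fun x => g x * η x) 2 (volume.restrict (Ioo 0 L)) :=
      cont_memLp (hg.mul hη.continuousOn)
    exact h2.integrable_mul (hC.mem v n)
  have key : ∀ η, Tst L η →
      (∫ x in Ioo 0 L, iteratedDeriv 2 η x * p w1 n x = ∫ x in Ioo 0 L,
        ((((n : ℝ) + 1) ^ 2 - fA E ε s.re s.im (κ0 x) (h0 x)) * p w1 n x +
          fB E ε s.re s.im (κ0 x) (h0 x) * p w2 n x - ρ x) * η x) ∧
      (∫ x in Ioo 0 L, iteratedDeriv 2 η x * p w2 n x = ∫ x in Ioo 0 L,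
        ((((n : ℝ) + 1) ^ 2 - fA E ε s.re s.im (κ0 x) (h0 x)) * p w2 n x -
          fB E ε s.re s.im (κ0 x) (h0 x) * p w1 n x) * η x) := by
    intro η hη
    obtain ⟨v, hv⟩ := isT_ex hm hC hη n
    have hηc : Continuous η := hη.1.continuous
    have hη2 : Continuous (iteratedDeriv 2 η) := hη.1.continuous_iteratedDeriv 2 (by norm_cast)
    have e1 := hw.e1 v
    have e2 := hw.e2 v
    have mA := hv.me (cA E ε κ h s) (fun x => fA E ε s.re s.im (κ0 x) (h0 x)) hA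
    have mB := hv.me (cB E ε κ h s) (fun x => fB E ε s.re s.im (κ0 x) (h0 x)) hB
    have m1 := hv.me 1 (fun _ => 1) h1
    rw [hS.sa w1 v, m_symm hm (cA E ε κ h s) w1 v, m_symm hm (cB E ε κ h s) w2 v,
      m_symm hm 1 χ v, hv.ae, mA, mB, m1] at e1
    rw [hS.sa w2 v, m_symm hm (cA E ε κ h s) w2 v, m_symm hm (cB E ε κ h s) w1 v, hv.ae, mA,
      mB] at e2
    have e3 : ∫ x in Ioo 0 L, (1 : ℝ) * η x * p χ n x = ∫ x in Ioo 0 L, ρ x * η x := by
      refine integral_congr_ae ?_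
      filter_upwards [hχ.pe] with x hx
      rw [hx]
      ring
    rw [e3] at e1
    have i1 : ∀ v, Integrable (fun x => iteratedDeriv 2 η x * p v n x) (volume.restrict (Ioo 0 L)) := by
      intro v
      have := hint (fun _ => 1) (iteratedDeriv 2 η) v continuousOn_const hη2
      simpa using this
    have i2 : ∀ v, Integrable (fun x => ((n : ℝ) + 1) ^ 2 * η x * p v n x)
        (volume.restrict (Ioo 0 L)) := fun v => hint (fun _ => ((n : ℝ) + 1) ^ 2) η v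
          continuousOn_const hηc
    have i3 := fun v => hint _ η v hPc hηc
    have i4 := fun v => hint _ η v hQc hηc
    have i5 : Integrable (fun x => ρ x * η x) (volume.restrict (Ioo 0 L)) := by
      refine IntegrableOn.mono_set (t := Icc 0 L) ?_ Ioo_subset_Icc_self
      exact (hρ.1.continuous.mul hηc).continuousOn.integrableOn_compact isCompact_Icc
    have e4 : ∀ v, ∫ x in Ioo 0 L, (-(iteratedDeriv 2 η x) + ((n : ℝ) + 1) ^ 2 * η x) * p v n x =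
        (∫ x in Ioo 0 L, ((n : ℝ) + 1) ^ 2 * η x * p v n x) -
          ∫ x in Ioo 0 L, iteratedDeriv 2 η x * p v n x := by
      intro v
      rw [← integral_sub (i2 v) (i1 v)]
      refine integral_congr_ae (Eventually.of_forall fun x => ?_)
      beta_reduce
      ring
    rw [e4] at e1 e2
    constructor
    · have e5 : ∫ x in Ioo 0 L, ((((n : ℝ) + 1) ^ 2 - fA E ε s.re s.im (κ0 x) (h0 x)) * p w1 n x +
          fB E ε s.re s.im (κ0 x) (h0 x) * p w2 n x - ρ x) * η x =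
          (∫ x in Ioo 0 L, ((n : ℝ) + 1) ^ 2 * η x * p w1 n x) -
          (∫ x in Ioo 0 L, fA E ε s.re s.im (κ0 x) (h0 x) * η x * p w1 n x) +
          (∫ x in Ioo 0 L, fB E ε s.re s.im (κ0 x) (h0 x) * η x * p w2 n x) -
          ∫ x in Ioo 0 L, ρ x * η x := by
        have j1 : Integrable (fun x => ((n : ℝ) + 1) ^ 2 * η x * p w1 n x -
            fA E ε s.re s.im (κ0 x) (h0 x) * η x * p w1 n x) (volume.restrict (Ioo 0 L)) :=
          (i2 w1).sub (i3 w1)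
        have j2 : Integrable (fun x => (((n : ℝ) + 1) ^ 2 * η x * p w1 n x -
            fA E ε s.re s.im (κ0 x) (h0 x) * η x * p w1 n x) +
            fB E ε s.re s.im (κ0 x) (h0 x) * η x * p w2 n x) (volume.restrict (Ioo 0 L)) :=
          j1.add (i4 w2)
        rw [← integral_sub (i2 w1) (i3 w1), ← integral_add j1 (i4 w2), ← integral_sub j2 i5]
        refine integral_congr_ae (Eventually.of_forall fun x => ?_)
        beta_reduce
        ring
      rw [e5]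
      linarith
    · have e5 : ∫ x in Ioo 0 L, ((((n : ℝ) + 1) ^ 2 - fA E ε s.re s.im (κ0 x) (h0 x)) * p w2 n x -
          fB E ε s.re s.im (κ0 x) (h0 x) * p w1 n x) * η x =
          (∫ x in Ioo 0 L, ((n : ℝ) + 1) ^ 2 * η x * p w2 n x) -
          (∫ x in Ioo 0 L, fA E ε s.re s.im (κ0 x) (h0 x) * η x * p w2 n x) -
          (∫ x in Ioo 0 L, fB E ε s.re s.im (κ0 x) (h0 x) * η x * p w1 n x) := by
        have j1 : Integrable (fun x => ((n : ℝ) + 1) ^ 2 * η x * p w2 n x -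
            fA E ε s.re s.im (κ0 x) (h0 x) * η x * p w2 n x) (volume.restrict (Ioo 0 L)) :=
          (i2 w2).sub (i3 w2)
        rw [← integral_sub (i2 w2) (i3 w2), ← integral_sub j1 (i4 w1)]
        refine integral_congr_ae (Eventually.of_forall fun x => ?_)
        beta_reduce
        ring
      rw [e5]
      linarith
  obtain ⟨U1, U1', U2, U2', hU, hV1, hV2⟩ := sys hC.pos (hC.mem w1 n) (hC.mem w2 n)
    (continuousOn_const.sub hPc) hQc hρ.1.continuous.continuousOn (fun η hη => (key η hη).1)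
    (fun η hη => (key η hη).2)
  exact ⟨U1, U1', U2, U2', hU, hV1, hV2⟩

end

end Pool.Agent.H240.SC
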