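import Pool.Agent.H240.SC.Par0
import Pool.Agent.H240.SC.Cyf

/-!
# The form domain of a surface with a flat cylinder
-/

set_option autoImplicit false
set_option linter.unusedSectionVars false

open Set Filter Topology MeasureTheory
open scoped Real ContDiff ComplexConjugate

noncomputable section

namespace Pool.Agent.H240.SC

open Pool.Agent.Y262.QE Pool.Agent.Y264.QR

theorem tCyf : StCyf := Pool.Agent.Y480.QE.cyf tCyi

theorem tCyd : StCyd := Pool.Agent.Y252.QE.cyd tGr tFin tInt Pool.Agent.Y365.QE.ibp tCyi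

section

variable {M : Type} [MetricSpace M] [CompactSpace M] [MeasurableSpace M] [BorelSpace M]
  {μ : Measure M} {D : Data M} {L : ℝ} {Φ : ℂ → M} {σ : M → M}

/-- `e` is the element of the frequency `m + 1` which belongs to the test function `η` -/
structure ElF (D : Data M) (μ : Measure M) (L : ℝ) (Φ : ℂ → M) (η : ℝ → ℝ) (m : ℕ)
    (e : HF D μ) (V : M → ℝ) : Prop where
  c1 : D.C1 V
  val : ∀ z ∈ Strip L, V (Φ z) = Vf η m z
  off : ∀ x, x ∉ Φ '' Strip L → V x = 0
  fst : (e.1.fst : M → ℝ) =ᵐ[μ] fun x => (√π)⁻¹ * V x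
  snd : (e.1.snd : M → ℂ) =ᵐ[μ] fun x => (√π)⁻¹ • D.gr V x

lemma ex_elF (hD : D.IsSurf μ) (hC : D.IsCyl μ L Φ σ)
    {η : ℝ → ℝ} (hη : Tst L η) (m : ℕ) : ∃ e V, ElF D μ L Φ η m e V := by
  obtain ⟨V, h1, h2, h3, h4⟩ := (tCyf M μ D hD L Φ σ hC η hη).2 m
  obtain ⟨v, hv, hf, hs⟩ := (tDenF M μ D hD).1 V h1
  refine ⟨(√π)⁻¹ • ⟨v, hv⟩, V, h1, h2, h3, ?_, ?_⟩
  · have e : ((√π)⁻¹ • (⟨v, hv⟩ : HF D μ)).1.fst = (√π)⁻¹ • v.fst := rfl
    rw [e]
    filter_upwards [Lp.coeFn_smul (√π)⁻¹ v.fst, hf] with x hx hx'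
    rw [hx, Pi.smul_apply, hx', smul_eq_mul]
  · have e : ((√π)⁻¹ • (⟨v, hv⟩ : HF D μ)).1.snd = (√π)⁻¹ • v.snd := rfl
    rw [e]
    filter_upwards [Lp.coeFn_smul (√π)⁻¹ v.snd, hs] with x hx hx'
    rw [hx, Pi.smul_apply, hx']

/-- pairing of an element with a function -/
lemma elF_int (hyi : ContinuousOn Φ (Strip L) ∧ IsOpen (Φ '' Strip L) ∧
      AEMeasurable Φ (volume.restrict (Rec L (-π))) ∧
      Measure.map Φ (volume.restrict (Rec L (-π))) = μ.restrict (Φ '' Strip L))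
    (hgr : ∀ F, D.C1 F → Continuous F)
    {η : ℝ → ℝ} {m : ℕ} {e : HF D μ} {V : M → ℝ} (he : ElF D μ L Φ η m e V)
    {f v : M → ℝ} (hf : Continuous f) (hv : AEStronglyMeasurable v μ) {f1 : ℝ → ℝ}
    (hf1 : ∀ z ∈ Strip L, f (Φ z) = f1 z.re) :
    ∫ x, f x * ((e.1.fst : M → ℝ) x * v x) ∂μ =
      (√π)⁻¹ * ∫ z in Rec L (-π), (f1 z.re * η z.re) * Real.sin ((m + 1) * z.im) * v (Φ z) := by
  have h1 : ∫ x, f x * ((e.1.fst : M → ℝ) x * v x) ∂μ =
      ∫ x, (√π)⁻¹ * (f x * V x * v x) ∂μ := by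
    refine integral_congr_ae ?_
    filter_upwards [he.fst] with x hx
    rw [hx]
    ring
  rw [h1, integral_const_mul]
  have hm : AEStronglyMeasurable (fun x => f x * V x * v x) μ :=
    (hf.aestronglyMeasurable.mul (hgr V he.c1).aestronglyMeasurable).mul hv
  rw [Pool.Agent.Y291.QE.tr0 hyi hm (fun x hx => by rw [he.off x hx]; simp)]
  congr 1
  refine setIntegral_congr_fun (Pool.Agent.Y291.QE.rec_meas L) fun z hz => ?_
  beta_reduce
  rw [he.val z (Pool.Agent.Y291.QE.rec_sub L hz), hf1 z (Pool.Agent.Y291.QE.rec_sub L hz), Vf]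
  ring

theorem cyF_ex (hD : D.IsSurf μ) (hC : D.IsCyl μ L Φ σ) {iF : HF D μ →L[ℝ] Lp ℝ 2 μ}
    {aF : HF D μ →L[ℝ] HF D μ →L[ℝ] ℝ} (hi : ∀ v, iF v = v.1.fst)
    (ha : ∀ u v, aF u v = inner ℝ u.1.snd v.1.snd) :
    CyF μ L Φ iF aF (fun v m => cf (fun z => (iF v) (Φ z)) m) := by
  have hfin : IsFiniteMeasure μ := (tFin M μ D hD).1
  have hyi := tCyi M μ D hD L Φ σ hC
  obtain ⟨hG1, hG2, hG3⟩ := tGr M μ D hD
  have hgr : ∀ F, D.C1 F → Continuous F := fun F hF => (hG1 F hF).1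
  have hpi : 0 < √π := Real.sqrt_pos.2 Real.pi_pos
  have hmem : ∀ v : HF D μ, MemLp (fun z => (iF v) (Φ z)) 2
      (volume.restrict (Rec L (-π))) := fun v => Pool.Agent.Y291.QE.u_mem hyi _
  have hP := fun v : HF D μ => par0 (hmem v)
  -- measurable versions of the functions on the cylinder
  have hver : ∀ (f : C(M, ℝ)) (f0 : ℝ → ℝ), (∀ z ∈ Strip L, f (Φ z) = f0 z.re) →
      ∃ f1 : ℝ → ℝ, Measurable f1 ∧ (∃ C, ∀ x, |f1 x| ≤ C) ∧ (∀ x ∈ Ioo 0 L, f1 x = f0 x) ∧
        ((∀ x, 0 ≤ f x) → ∀ x, 0 ≤ f1 x) ∧ ∀ z ∈ Strip L, f (Φ z) = f1 z.re := by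
    classical
    intro f f0 hf0
    have hst : ∀ x : ℝ, x ∈ Ioo 0 L → ((x : ℂ)) ∈ Strip L := fun x hx => hx
    have hc : ContinuousOn f0 (Ioo 0 L) := by
      have h1 : ContinuousOn (fun x : ℝ => f (Φ x)) (Ioo 0 L) :=
        f.continuous.comp_continuousOn (hyi.1.comp Complex.continuous_ofReal.continuousOn hst)
      refine h1.congr fun x hx => ?_
      have h2 := hf0 x (hst x hx)
      rw [Complex.ofReal_re] at h2
      exact h2.symm
    refine ⟨(Ioo 0 L).piecewise f0 fun _ => 0, hc.measurable_piecewise continuousOn_const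
      measurableSet_Ioo, ⟨‖f‖, fun x => ?_⟩, fun x hx => piecewise_eq_of_mem _ _ _ hx,
      fun h0 x => ?_, fun z hz => ?_⟩
    · by_cases hx : x ∈ Ioo 0 L
      · rw [piecewise_eq_of_mem _ _ _ hx]
        have h1 := hf0 x (hst x hx)
        rw [Complex.ofReal_re] at h1
        rw [← h1, ← Real.norm_eq_abs]
        exact f.norm_coe_le_norm _
      · rw [piecewise_eq_of_notMem _ _ _ hx, abs_zero]
        exact norm_nonneg _
    · by_cases hx : x ∈ Ioo 0 L
      · rw [piecewise_eq_of_mem _ _ _ hx]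
        have h1 := hf0 x (hst x hx)
        rw [Complex.ofReal_re] at h1
        rw [← h1]
        exact h0 _
      · rw [piecewise_eq_of_notMem _ _ _ hx]
    · rw [piecewise_eq_of_mem _ _ _ (show z.re ∈ Ioo 0 L from hz)]
      exact hf0 z hz
  refine ⟨hC.pos, fun v m => (hP v).1 m, fun f f0 hf hf0 v m => ?_, fun η hη m => ?_⟩
  · obtain ⟨f1, g1, g2, g3, g4, g5⟩ := hver f f0 hf0
    have h1 := (hP v).2.2 f1 g1 g2 (g4 hf) m
    have h2 : ∫ x in Ioo 0 L, f0 x * (cf (fun z => (iF v) (Φ z)) m x) ^ 2 =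
        ∫ x in Ioo 0 L, f1 x * (cf (fun z => (iF v) (Φ z)) m x) ^ 2 := by
      refine setIntegral_congr_fun measurableSet_Ioo fun x hx => ?_
      beta_reduce
      rw [g3 x hx]
    rw [h2]
    refine h1.trans ?_
    have h3 : ∫ z in Rec L (-π), f1 z.re * ((iF v) (Φ z)) ^ 2 =
        ∫ x in Φ '' Strip L, f x * ((iF v) x * (iF v) x) ∂μ := by
      rw [Pool.Agent.Y291.QE.tr hyi (g := fun x => f x * ((iF v) x * (iF v) x))
        (f.continuous.aestronglyMeasurable.mul
          ((Lp.aestronglyMeasurable (iF v)).mul (Lp.aestronglyMeasurable (iF v))))]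
      refine setIntegral_congr_fun (Pool.Agent.Y291.QE.rec_meas L) fun z hz => ?_
      beta_reduce
      rw [g5 z (Pool.Agent.Y291.QE.rec_sub L hz)]
      ring
    rw [h3]
    refine setIntegral_le_integral ?_ (Eventually.of_forall fun x => ?_)
    · exact int_mul f (iF v) (iF v)
    · exact mul_nonneg (hf x) (mul_self_nonneg _)
  · obtain ⟨e, V, he⟩ := ex_elF hD hC hη m
    obtain ⟨e', V', he'⟩ := ex_elF hD hC (Pool.Agent.Y291.QE.tst_op hη m) m
    refine ⟨e, ?_, fun f f0 hf0 v => ?_, fun v => ?_⟩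
    · have h1 : (fun z => (iF e) (Φ z)) =ᵐ[volume.restrict (Rec L (-π))]
          fun z => (√π)⁻¹ * Vf η m z := by
        have h2 := Pool.Agent.Y291.QE.tr_ae hyi he.fst
        filter_upwards [h2, ae_restrict_mem (Pool.Agent.Y291.QE.rec_meas L)] with z hz hzR
        rw [hi, hz, he.val z (Pool.Agent.Y291.QE.rec_sub L hzR)]
      refine (cf_congr h1 m).trans (Eventually.of_forall fun x => ?_)
      exact cf_test η m x
    · obtain ⟨f1, g1, ⟨C1, g2⟩, g3, g4, g5⟩ := hver f f0 hf0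
      rw [hi e, elF_int hyi hgr he f.continuous (Lp.aestronglyMeasurable (iF v)) g5]
      obtain ⟨C2, hC2⟩ := Pool.Agent.Y291.QE.tst_bdd hη
      have h1 := (hP v).2.1 (fun x => f1 x * η x) (g1.mul hη.1.continuous.measurable)
        ⟨C1 * C2, fun x => by
          rw [abs_mul]
          exact mul_le_mul (g2 x) (hC2 x) (abs_nonneg _) ((abs_nonneg _).trans (g2 x))⟩ m
      beta_reduce at h1
      rw [h1, ← mul_assoc, inv_mul_cancel₀ hpi.ne', one_mul]
      refine setIntegral_congr_fun measurableSet_Ioo fun x hx => ?_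
      beta_reduce
      rw [g3 x hx]
    · -- the Dirichlet form
      have h1Φ : ∀ z ∈ Strip L, (1 : C(M, ℝ)) (Φ z) = (fun _ => 1 : ℝ → ℝ) z.re := fun z _ => rfl
      have hkey : ∀ v : HF D μ, aa D μ e v = inner ℝ (ii D μ e') (ii D μ v) := by
        refine dens tDenF hD (P := fun v => aa D μ e v = inner ℝ (ii D μ e') (ii D μ v)) ?_ ?_
        · exact isClosed_eq (aa D μ e).continuous
            (continuous_const.inner (ii D μ).continuous)
        · intro v F hF hf hs
          have h2 : inner ℝ (ii D μ e') (ii D μ v) =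
              ∫ x, (1 : M → ℝ) x * ((e'.1.fst : M → ℝ) x * F x) ∂μ := by
            rw [inn]
            refine integral_congr_ae ?_
            filter_upwards [hf] with x hx
            rw [ii_apply, ii_apply, hx, Pi.one_apply, one_mul]
          rw [h2, elF_int hyi hgr he' (f := (1 : M → ℝ)) continuous_one (hgr F hF).aestronglyMeasurable
            (f1 := fun _ => 1) (fun z _ => rfl), aa_apply, innC]
          have h3 : ∫ x, inner ℝ (e.1.snd x) (v.1.snd x) ∂μ =
              ∫ x, (√π)⁻¹ * inner ℝ (D.gr V x) (D.gr F x) ∂μ := by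
            refine integral_congr_ae ?_
            filter_upwards [he.snd, hs] with x hx hx'
            rw [hx, hx', real_inner_smul_left]
          rw [h3, integral_const_mul, tCyd M μ D hD L Φ σ hC η hη m V he.c1 he.val he.off F hF]
          congr 1
          refine setIntegral_congr_fun (Pool.Agent.Y291.QE.rec_meas L) fun z hz => ?_
          ring
      have h4 : aF e v = aa D μ e v := by rw [ha, aa_apply]
      rw [h4, hkey v]
      have h5 : inner ℝ (ii D μ e') (ii D μ v) =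
          ∫ x, (1 : M → ℝ) x * ((e'.1.fst : M → ℝ) x * (iF v) x) ∂μ := by
        rw [inn]
        refine integral_congr_ae (Eventually.of_forall fun x => ?_)
        beta_reduce
        rw [ii_apply, ii_apply, Pi.one_apply, one_mul, hi]
      rw [h5, elF_int hyi hgr he' (f := (1 : M → ℝ)) continuous_one
        (Lp.aestronglyMeasurable (iF v)) (f1 := fun _ => 1) (fun z _ => rfl)]
      have h6 := (hP v).2.1 (fun x => 1 * (-(iteratedDeriv 2 η x) + ((m : ℝ) + 1) ^ 2 * η x)) (by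
        have := (Pool.Agent.Y291.QE.tst_op hη m).1.continuous.measurable
        simpa using this) (by
        obtain ⟨C, hC⟩ := Pool.Agent.Y291.QE.tst_bdd (Pool.Agent.Y291.QE.tst_op hη m)
        exact ⟨C, fun x => by simpa using hC x⟩) m
      beta_reduce at h6
      rw [h6, ← mul_assoc, inv_mul_cancel₀ hpi.ne', one_mul]
      refine integral_congr_ae (Eventually.of_forall fun x => ?_)
      beta_reduce
      rw [one_mul]

end

end Pool.Agent.H240.SC
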