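import Pool.Graph.R_seed8.Y264.QR.All

/-!
# The damped equation in the form domain
-/

set_option autoImplicit false
set_option linter.unusedSectionVars false

open Set Filter Topology MeasureTheory
open scoped Real ContDiff

noncomputable section

namespace Pool.Agent.H240.SC

open Pool.Agent.Y262.QE Pool.Agent.Y264.QR

section

variable {M : Type} [MetricSpace M] [CompactSpace M] [MeasurableSpace M] [BorelSpace M]
  {μ : Measure M} [IsFiniteMeasure μ]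
  {H : Type} [NormedAddCommGroup H] [InnerProductSpace ℝ H] {i : H →L[ℝ] Lp ℝ 2 μ}
  {a : H →L[ℝ] H →L[ℝ] ℝ}

/-- the multiplication forms -/
def IsM (μ : Measure M) (i : H →L[ℝ] Lp ℝ 2 μ) (m : C(M, ℝ) → H →L[ℝ] H →L[ℝ] ℝ) : Prop :=
  ∀ (f : C(M, ℝ)) (u v : H), m f u v = ∫ x, f x * (i u x * i v x) ∂μ

theorem isM_ex (μ : Measure M) (i : H →L[ℝ] Lp ℝ 2 μ) :
    ∃ m : C(M, ℝ) → H →L[ℝ] H →L[ℝ] ℝ, IsM μ i m := by
  have h : ∀ f : C(M, ℝ), ∃ b : Lp ℝ 2 μ →L[ℝ] Lp ℝ 2 μ →L[ℝ] ℝ,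
      ∀ u v, b u v = ∫ x, f x * (u x * v x) ∂μ := fun f =>
    Pool.Agent.Y469.QE.mul M μ f f.continuous.measurable ‖f‖ fun x => by
      have := f.norm_coe_le_norm x
      rwa [Real.norm_eq_abs] at this
  choose b hb using h
  exact ⟨fun f => (b f).bilinearComp i i, fun f u v => hb f (i u) (i v)⟩

theorem int_mul (f : C(M, ℝ)) (u v : Lp ℝ 2 μ) : Integrable (fun x => f x * (u x * v x)) μ := by
  have h1 : Integrable (fun x => u x * v x) μ := (Lp.memLp u).integrable_mul (Lp.memLp v)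
  refine h1.bdd_mul (c := ‖f‖) f.continuous.aestronglyMeasurable ?_
  exact Eventually.of_forall fun x => f.norm_coe_le_norm x

section

variable {m : C(M, ℝ) → H →L[ℝ] H →L[ℝ] ℝ} (hm : IsM μ i m)

include hm

theorem m_symm (f : C(M, ℝ)) (u v : H) : m f u v = m f v u := by
  rw [hm, hm]
  refine integral_congr_ae (Eventually.of_forall fun x => ?_)
  beta_reduce
  ring

theorem m_add (f g : C(M, ℝ)) (u v : H) : m (f + g) u v = m f u v + m g u v := by
  rw [hm, hm, hm, ← integral_add (int_mul f _ _) (int_mul g _ _)]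
  refine integral_congr_ae (Eventually.of_forall fun x => ?_)
  simp only [ContinuousMap.add_apply]
  ring

theorem m_smul (c : ℝ) (f : C(M, ℝ)) (u v : H) : m (c • f) u v = c * m f u v := by
  rw [hm, hm, ← integral_const_mul]
  refine integral_congr_ae (Eventually.of_forall fun x => ?_)
  simp only [ContinuousMap.smul_apply, smul_eq_mul]
  ring

theorem m_sub (f g : C(M, ℝ)) (u v : H) : m (f - g) u v = m f u v - m g u v := by
  have h : f - g = f + (-1 : ℝ) • g := by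
    ext x
    simp [sub_eq_add_neg]
  rw [h, m_add hm, m_smul hm]
  ring

theorem m_mono {f g : C(M, ℝ)} (hfg : ∀ x, f x ≤ g x) (v : H) : m f v v ≤ m g v v := by
  rw [hm, hm]
  refine integral_mono (int_mul f _ _) (int_mul g _ _) fun x => ?_
  beta_reduce
  have : 0 ≤ i v x * i v x := mul_self_nonneg _
  exact mul_le_mul_of_nonneg_right (hfg x) this

theorem m_nonneg {f : C(M, ℝ)} (hf : ∀ x, 0 ≤ f x) (v : H) : 0 ≤ m f v v := by
  rw [hm]
  refine integral_nonneg fun x => ?_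
  have : 0 ≤ i v x * i v x := mul_self_nonneg _
  exact mul_nonneg (hf x) this

theorem m_one (v : H) : m 1 v v = ‖i v‖ ^ 2 := by
  rw [hm, ← real_inner_self_eq_norm_sq, L2.inner_def]
  refine integral_congr_ae (Eventually.of_forall fun x => ?_)
  simp only [ContinuousMap.one_apply, one_mul, RCLike.inner_apply, conj_trivial]

/-- the Cauchy-Schwarz inequality for the weighted forms -/
theorem m_cs {f : C(M, ℝ)} (hf : ∀ x, 0 ≤ f x) (u v : H) : (m f u v) ^ 2 ≤ m f u u * m f v v := by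
  have h0 : ∀ t : ℝ, 0 ≤ m f (u + t • v) (u + t • v) := fun t => m_nonneg hm hf _
  have h1 : ∀ t : ℝ, m f (u + t • v) (u + t • v) = m f v v * (t * t) + 2 * m f u v * t + m f u u := by
    intro t
    simp only [map_add, map_smul, add_apply, smul_apply, smul_eq_mul]
    rw [m_symm hm f v u]
    ring
  have h2 : ∀ t : ℝ, 0 ≤ m f v v * (t * t) + 2 * m f u v * t + m f u u := fun t => by
    rw [← h1]
    exact h0 t
  have h3 := discrim_le_zero h2
  unfold discrim at h3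
  nlinarith

end

/-- solutions of the damped equation with the right-hand side `χ` -/
structure Sol (m : C(M, ℝ) → H →L[ℝ] H →L[ℝ] ℝ) (a : H →L[ℝ] H →L[ℝ] ℝ) (A B : C(M, ℝ))
    (χ w1 w2 : H) : Prop where
  e1 : ∀ v, a w1 v - m A w1 v + m B w2 v = m 1 χ v
  e2 : ∀ v, a w2 v - m A w2 v - m B w1 v = 0

/-- existence of the solutions -/
theorem sol_ex [CompleteSpace H] (hS : Sf μ i a) {m : C(M, ℝ) → H →L[ℝ] H →L[ℝ] ℝ}
    (hm : IsM μ i m) (A B : C(M, ℝ)) {β : ℝ} (hβ : 0 < β) (hB : ∀ x, β ≤ B x) (χ : H) :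
    ∃ w1 w2, Sol m a A B χ w1 w2 := by
  obtain ⟨k, hk⟩ : ∃ k : ℝ, ‖A‖ + 1 ≤ k * β := ⟨(‖A‖ + 1) / β, by rw [div_mul_cancel₀ _ hβ.ne']⟩
  let p1 : WithLp 2 (H × H) →L[ℝ] H := WithLp.fstL 2 ℝ H H
  let p2 : WithLp 2 (H × H) →L[ℝ] H := WithLp.sndL 2 ℝ H H
  let T : H →L[ℝ] H →L[ℝ] ℝ := a - m A
  have hT : ∀ u v, T u v = a u v - m A u v := fun u v => rfl
  let 𝓑 : WithLp 2 (H × H) →L[ℝ] WithLp 2 (H × H) →L[ℝ] ℝ :=
    T.bilinearComp p1 (p1 + k • p2) + (m B).bilinearComp p2 (p1 + k • p2) +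
      T.bilinearComp p2 (p2 - k • p1) - (m B).bilinearComp p1 (p2 - k • p1)
  have h𝓑 : ∀ w v, 𝓑 w v = (a w.fst (v.fst + k • v.snd) - m A w.fst (v.fst + k • v.snd)) +
      m B w.snd (v.fst + k • v.snd) +
      (a w.snd (v.snd - k • v.fst) - m A w.snd (v.snd - k • v.fst)) -
      m B w.fst (v.snd - k • v.fst) := fun w v => rfl
  have hA : ∀ v : H, m A v v ≤ ‖A‖ * m 1 v v := by
    intro v
    rw [← m_smul hm]
    refine m_mono hm (fun x => ?_) v
    simp only [ContinuousMap.smul_apply, ContinuousMap.one_apply, smul_eq_mul, mul_one]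
    have := A.norm_coe_le_norm x
    rw [Real.norm_eq_abs] at this
    exact (le_abs_self _).trans this
  have hBv : ∀ v : H, β * m 1 v v ≤ m B v v := by
    intro v
    rw [← m_smul hm]
    refine m_mono hm (fun x => ?_) v
    simp only [ContinuousMap.smul_apply, ContinuousMap.one_apply, smul_eq_mul, mul_one]
    exact hB x
  have hk0 : 0 ≤ k := by
    by_contra hcon
    push Not at hcon
    nlinarith [norm_nonneg A]
  have hco : IsCoercive 𝓑 := by
    refine ⟨1, one_pos, fun w => ?_⟩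
    have h1 : 𝓑 w w = (a w.fst w.fst + a w.snd w.snd) - (m A w.fst w.fst + m A w.snd w.snd) +
        k * (m B w.fst w.fst + m B w.snd w.snd) := by
      rw [h𝓑]
      simp only [map_add, map_sub, map_smul, smul_eq_mul]
      rw [hS.sa w.snd w.fst, m_symm hm A w.snd w.fst, m_symm hm B w.snd w.fst]
      ring
    rw [h1, one_mul, ← sq, WithLp.prod_norm_sq_eq_of_L2, hS.nm, hS.nm, ← m_one hm, ← m_one hm]
    have g1 := hA w.fst
    have g2 := hA w.snd
    have g3 := mul_le_mul_of_nonneg_left (hBv w.fst) hk0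
    have g4 := mul_le_mul_of_nonneg_left (hBv w.snd) hk0
    have g5 : 0 ≤ m 1 w.fst w.fst := m_nonneg hm (fun x => by simp) _
    have g6 : 0 ≤ m 1 w.snd w.snd := m_nonneg hm (fun x => by simp) _
    nlinarith
  let ℓ : WithLp 2 (H × H) →L[ℝ] ℝ := (m 1 χ).comp (p1 + k • p2)
  set r := (InnerProductSpace.toDual ℝ (WithLp 2 (H × H))).symm ℓ with hr
  set w := hco.continuousLinearEquivOfBilin.symm r with hw
  have hwv : ∀ v, 𝓑 w v = m 1 χ (v.fst + k • v.snd) := by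
    intro v
    rw [← hco.continuousLinearEquivOfBilin_apply w v, hw, ContinuousLinearEquiv.apply_symm_apply, hr,
      InnerProductSpace.toDual_symm_apply]
    rfl
  have hk2 : (1 + k ^ 2) ≠ 0 := by positivity
  refine ⟨w.fst, w.snd, ⟨fun v => ?_, fun v => ?_⟩⟩
  · have h1 := hwv (WithLp.toLp 2 ((1 + k ^ 2)⁻¹ • v, (k * (1 + k ^ 2)⁻¹) • v))
    rw [h𝓑] at h1
    have e1 : (WithLp.toLp 2 ((1 + k ^ 2)⁻¹ • v, (k * (1 + k ^ 2)⁻¹) • v)).fst +
        k • (WithLp.toLp 2 ((1 + k ^ 2)⁻¹ • v, (k * (1 + k ^ 2)⁻¹) • v)).snd = v := by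
      show (1 + k ^ 2)⁻¹ • v + k • (k * (1 + k ^ 2)⁻¹) • v = v
      rw [smul_smul, ← add_smul]
      have : (1 + k ^ 2)⁻¹ + k * (k * (1 + k ^ 2)⁻¹) = 1 := by
        field_simp
      rw [this, one_smul]
    have e2 : (WithLp.toLp 2 ((1 + k ^ 2)⁻¹ • v, (k * (1 + k ^ 2)⁻¹) • v)).snd -
        k • (WithLp.toLp 2 ((1 + k ^ 2)⁻¹ • v, (k * (1 + k ^ 2)⁻¹) • v)).fst = 0 := by
      show (k * (1 + k ^ 2)⁻¹) • v - k • (1 + k ^ 2)⁻¹ • v = 0
      rw [smul_smul, sub_self]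
    rw [e1, e2] at h1
    simp only [map_zero, sub_zero, add_zero] at h1
    exact h1
  · have h1 := hwv (WithLp.toLp 2 (-(k * (1 + k ^ 2)⁻¹) • v, (1 + k ^ 2)⁻¹ • v))
    rw [h𝓑] at h1
    have e1 : (WithLp.toLp 2 (-(k * (1 + k ^ 2)⁻¹) • v, (1 + k ^ 2)⁻¹ • v)).fst +
        k • (WithLp.toLp 2 (-(k * (1 + k ^ 2)⁻¹) • v, (1 + k ^ 2)⁻¹ • v)).snd = 0 := by
      show -(k * (1 + k ^ 2)⁻¹) • v + k • (1 + k ^ 2)⁻¹ • v = 0
      rw [smul_smul, ← add_smul, neg_add_cancel, zero_smul]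
    have e2 : (WithLp.toLp 2 (-(k * (1 + k ^ 2)⁻¹) • v, (1 + k ^ 2)⁻¹ • v)).snd -
        k • (WithLp.toLp 2 (-(k * (1 + k ^ 2)⁻¹) • v, (1 + k ^ 2)⁻¹ • v)).fst = v := by
      show (1 + k ^ 2)⁻¹ • v - k • (-(k * (1 + k ^ 2)⁻¹)) • v = v
      rw [smul_smul, ← sub_smul]
      have : (1 + k ^ 2)⁻¹ - k * -(k * (1 + k ^ 2)⁻¹) = 1 := by
        field_simp
        ring
      rw [this, one_smul]
    rw [e1, e2] at h1
    simp only [map_zero, sub_zero, zero_add, add_zero] at h1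
    linarith

section

variable {m : C(M, ℝ) → H →L[ℝ] H →L[ℝ] ℝ} {A B : C(M, ℝ)} {χ w1 w2 : H}

/-- the absorbed energy -/
theorem absorb (hS : Sf μ i a) (hm : IsM μ i m) (h : Sol m a A B χ w1 w2) :
    m B w1 w1 + m B w2 w2 = m 1 χ w2 := by
  have h1 := h.e1 w2
  have h2 := h.e2 w1
  rw [hS.sa w2 w1, m_symm hm A w2 w1] at h2
  linarith

/-- bounds for the solution if `B` is the constant `ε` on the support of `χ` -/
theorem sol_bound (hS : Sf μ i a) (hm : IsM μ i m) (h : Sol m a A B χ w1 w2) {ε : ℝ} (hε : 0 < ε)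
    (hB : ∀ x, 0 ≤ B x) (hχB : ∀ v, m B χ v = ε * m 1 χ v) (hχ1 : m 1 χ χ = 1) :
    0 ≤ m 1 χ w2 ∧ ε * m 1 χ w2 ≤ 1 ∧ (m 1 χ w1) ^ 2 + (m 1 χ w2) ^ 2 ≤ m 1 χ w2 / ε ∧
      (m 1 χ w1) ^ 2 + (m 1 χ w2) ^ 2 ≤ 1 / ε ^ 2 := by
  have h1 := absorb hS hm h
  have h2 := m_nonneg hm hB w1
  have h3 := m_nonneg hm hB w2
  have h4 := m_cs hm hB χ w1
  have h5 := m_cs hm hB χ w2
  rw [hχB, hχB, hχ1, mul_one] at h4 h5
  set G1 := m 1 χ w1 with hG1
  set G2 := m 1 χ w2 with hG2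
  have h6 : ε ^ 2 * (G1 ^ 2 + G2 ^ 2) ≤ ε * G2 := by nlinarith
  have h7 : ε * (G1 ^ 2 + G2 ^ 2) ≤ G2 := by
    have : ε * (ε * (G1 ^ 2 + G2 ^ 2)) ≤ ε * G2 := by nlinarith
    exact le_of_mul_le_mul_left this hε
  have h8 : 0 ≤ G2 := by linarith
  have h9 : ε * G2 ≤ 1 := by
    rcases eq_or_lt_of_le h8 with h | h
    · rw [← h, mul_zero]
      exact zero_le_one
    · have : ε * G2 * G2 ≤ 1 * G2 := by nlinarith [sq_nonneg G1]
      exact le_of_mul_le_mul_right this h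
  refine ⟨h8, h9, ?_, ?_⟩
  · rw [le_div_iff₀ hε]
    linarith
  · rw [le_div_iff₀ (by positivity)]
    nlinarith

end

end

end Pool.Agent.H240.SC
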