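import Pool.Agent.H240.SC.Cyf

/-!
# The value at the test vector tends to its limit
-/

set_option autoImplicit false
set_option linter.unusedSectionVars false

open Set Filter Topology MeasureTheory
open scoped Real ContDiff

noncomputable section

namespace Pool.Agent.H240.SC

open Pool.Agent.Y262.QE Pool.Agent.Y264.QR

/-- the function which is small in the upper half plane -/
def FF {M : Type} [MetricSpace M] {H : Type} [NormedAddCommGroup H] [InnerProductSpace ℝ H]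
    (ε' : ℝ) (m : C(M, ℝ) → H →L[ℝ] H →L[ℝ] ℝ) (χ w1 w2 : H) : ℂ := 1 + Complex.I * ε' * gv m χ w1 w2

theorem FF_re {M : Type} [MetricSpace M] {H : Type} [NormedAddCommGroup H]
    [InnerProductSpace ℝ H] (ε' : ℝ) (m : C(M, ℝ) → H →L[ℝ] H →L[ℝ] ℝ) (χ w1 w2 : H) :
    (FF ε' m χ w1 w2).re = 1 - ε' * m 1 χ w2 ∧ (FF ε' m χ w1 w2).im = ε' * m 1 χ w1 := by
  constructor
  · simp [FF, gv]
    ring
  · simp [FF, gv]

/-- a mode of the flat cylinder and a test function which is close to it -/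
structure Mode (L x1 x2 e δ : ℝ) (S S' ρ : ℝ → ℝ) : Prop where
  e0 : 0 ≤ e
  dS : ∀ x, HasDerivAt S (S' x) x
  dS' : ∀ x, HasDerivAt S' (-e * S x) x
  S1 : S x1 = 0
  S2 : S x2 = 0
  nS : ∫ x in x1..x2, (S x) ^ 2 = 1
  tρ : Tst L ρ
  sρ : ∀ x, x ∉ Ioo x1 x2 → ρ x = 0
  nρ : ∫ x in x1..x2, (ρ x) ^ 2 = 1
  δ0 : 0 ≤ δ
  δ1 : δ ≤ 1
  cl : ∫ x in x1..x2, (S x - ρ x) ^ 2 ≤ δ ^ 2

theorem ii_cs {f g : ℝ → ℝ} {a b : ℝ} (hab : a ≤ b) (hf : Continuous f) (hg : Continuous g) :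
    (∫ x in a..b, f x * g x) ^ 2 ≤ (∫ x in a..b, (f x) ^ 2) * ∫ x in a..b, (g x) ^ 2 := by
  have h1 : ∀ t : ℝ, 0 ≤ (∫ x in a..b, (g x) ^ 2) * (t * t) + 2 * (∫ x in a..b, f x * g x) * t +
      ∫ x in a..b, (f x) ^ 2 := by
    intro t
    have h2 : 0 ≤ ∫ x in a..b, (f x + t * g x) ^ 2 :=
      intervalIntegral.integral_nonneg hab fun x _ => sq_nonneg _
    have h3 : ∫ x in a..b, (f x + t * g x) ^ 2 = (∫ x in a..b, (g x) ^ 2) * (t * t) +
        2 * (∫ x in a..b, f x * g x) * t + ∫ x in a..b, (f x) ^ 2 := by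
      have i1 : IntervalIntegrable (fun x => (t * t) * (g x) ^ 2) volume a b :=
        (by fun_prop : Continuous fun x => (t * t) * (g x) ^ 2).intervalIntegrable _ _
      have i2 : IntervalIntegrable (fun x => (2 * t) * (f x * g x)) volume a b :=
        (by fun_prop : Continuous fun x => (2 * t) * (f x * g x)).intervalIntegrable _ _
      have i3 : IntervalIntegrable (fun x => (f x) ^ 2) volume a b :=
        (by fun_prop : Continuous fun x => (f x) ^ 2).intervalIntegrable _ _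
      have e1 : ∫ x in a..b, (f x + t * g x) ^ 2 =
          ∫ x in a..b, ((t * t) * (g x) ^ 2 + (2 * t) * (f x * g x) + (f x) ^ 2) := by
        refine intervalIntegral.integral_congr fun x _ => ?_
        beta_reduce
        ring
      rw [e1, intervalIntegral.integral_add (i1.add i2) i3, intervalIntegral.integral_add i1 i2,
        intervalIntegral.integral_const_mul, intervalIntegral.integral_const_mul]
      ring
    rw [← h3]
    exact h2
  have h3 := discrim_le_zero h1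
  unfold discrim at h3
  nlinarith

theorem restr_int {L x1 x2 : ℝ} (h1 : 0 < x1) (h12 : x1 < x2) (h2 : x2 < L) {f : ℝ → ℝ}
    (hf : ∀ x, x ∉ Ioo x1 x2 → f x = 0) : ∫ x in Ioo 0 L, f x = ∫ x in x1..x2, f x := by
  rw [intervalIntegral.integral_of_le h12.le, integral_Ioc_eq_integral_Ioo]
  refine setIntegral_eq_of_subset_of_forall_sdiff_eq_zero measurableSet_Ioo ?_ ?_
  · exact fun x hx => ⟨by linarith [hx.1], by linarith [hx.2]⟩
  · intro x hx
    exact hf x hx.2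

section

variable {M : Type} [MetricSpace M] [CompactSpace M] [MeasurableSpace M] [BorelSpace M]
  {μ : Measure M} [IsFiniteMeasure μ]
  {H : Type} [NormedAddCommGroup H] [InnerProductSpace ℝ H] {i : H →L[ℝ] Lp ℝ 2 μ}
  {a : H →L[ℝ] H →L[ℝ] ℝ} {m : C(M, ℝ) → H →L[ℝ] H →L[ℝ] ℝ} {p : H → ℕ → ℝ → ℝ} {L : ℝ}
  {Φ : ℂ → M} {x1 x2 C0 : ℝ} {κ h : C(M, ℝ)} {κ0 h0 : ℝ → ℝ} {e δ : ℝ} {S S' ρ : ℝ → ℝ}

/-- pairing with a test vector depends on the weight on the flat cylinder only -/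
theorem test_flat (hG : Geo L x1 x2 C0 Φ κ h κ0 h0) (hMo : Mode L x1 x2 e δ S S' ρ) {n : ℕ} {χ : H}
    (hχ : IsT m a p L Φ ρ n χ) {f : C(M, ℝ)} {f0 : ℝ → ℝ} (hf : ∀ z ∈ Strip L, f (Φ z) = f0 z.re)
    {c : ℝ} (hc : ∀ x ∈ Icc x1 x2, f0 x = c) (v : H) : m f χ v = c * m 1 χ v := by
  have h1 : ∀ z ∈ Strip L, (1 : C(M, ℝ)) (Φ z) = (fun _ => 1 : ℝ → ℝ) z.re := fun z _ => rfl
  rw [hχ.me f f0 hf, hχ.me 1 (fun _ => 1) h1, ← integral_const_mul]
  refine integral_congr_ae (Eventually.of_forall fun x => ?_)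
  beta_reduce
  by_cases hx : x ∈ Ioo x1 x2
  · rw [hc x (Ioo_subset_Icc_self hx)]
    ring
  · rw [hMo.sρ x hx]
    ring

theorem test_one (hG : Geo L x1 x2 C0 Φ κ h κ0 h0) (hMo : Mode L x1 x2 e δ S S' ρ) {n : ℕ} {χ : H}
    (hχ : IsT m a p L Φ ρ n χ) : m 1 χ χ = 1 := by
  have h1 : ∀ z ∈ Strip L, (1 : C(M, ℝ)) (Φ z) = (fun _ => 1 : ℝ → ℝ) z.re := fun z _ => rfl
  rw [hχ.me 1 (fun _ => 1) h1]
  have h2 : ∫ x in Ioo 0 L, 1 * ρ x * p χ n x = ∫ x in Ioo 0 L, (ρ x) ^ 2 := by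
    refine integral_congr_ae ?_
    filter_upwards [hχ.pe] with x hx
    rw [hx]
    ring
  rw [h2, restr_int hG.prm.x1p hG.prm.x12 hG.prm.x2L (fun x hx => by
    rw [hMo.sρ x hx]
    ring), hMo.nρ]

/-- the bounds which hold for all parameters of the region -/
theorem sol_bd (hS : Sf μ i a) (hm : IsM μ i m) (hG : Geo L x1 x2 C0 Φ κ h κ0 h0)
    (hMo : Mode L x1 x2 e δ S S' ρ) {n : ℕ} {χ : H} (hχ : IsT m a p L Φ ρ n χ) {E ε' R : ℝ}
    (hE : 0 ≤ E) (hε' : 0 < ε') {s : ℂ} (hs : s ∈ Reg h R) {w1 w2 : H}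
    (hw : Sol m a (cA E ε' κ h s) (cB E ε' κ h s) χ w1 w2) :
    0 ≤ m 1 χ w2 ∧ ε' * m 1 χ w2 ≤ 1 ∧ (m 1 χ w1) ^ 2 + (m 1 χ w2) ^ 2 ≤ m 1 χ w2 / ε' ∧
      (m 1 χ w1) ^ 2 + (m 1 χ w2) ^ 2 ≤ 1 / ε' ^ 2 := by
  have hβ : 0 < bW ε' κ h R := by
    unfold bW
    positivity
  have hB0 : ∀ x, 0 ≤ cB E ε' κ h s x := fun x =>
    hβ.le.trans (cB_ge' hE hε'.le hG.hn hs x)
  refine sol_bound hS hm hw hε' hB0 (fun v => ?_) (test_one hG hMo hχ)
  refine test_flat hG hMo hχ (f0 := fun x => fB E ε' s.re s.im (κ0 x) (h0 x)) (fun z hz => ?_)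
    (fun x hx => ?_) v
  · show fB E ε' s.re s.im (κ (Φ z)) (h (Φ z)) = _
    rw [hG.κΦ z hz, hG.hΦ z hz]
  · obtain ⟨f1, f2⟩ := hG.prm.fl x hx
    unfold fB
    rw [f1, f2]
    simp

theorem FF_bd (hS : Sf μ i a) (hm : IsM μ i m) (hG : Geo L x1 x2 C0 Φ κ h κ0 h0)
    (hMo : Mode L x1 x2 e δ S S' ρ) {n : ℕ} {χ : H} (hχ : IsT m a p L Φ ρ n χ) {E ε' R : ℝ}
    (hE : 0 ≤ E) (hε' : 0 < ε') {s : ℂ} (hs : s ∈ Reg h R) {w1 w2 : H}
    (hw : Sol m a (cA E ε' κ h s) (cB E ε' κ h s) χ w1 w2) :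
    ‖FF ε' m χ w1 w2‖ ≤ 2 ∧ 0 ≤ (FF ε' m χ w1 w2).re := by
  obtain ⟨g1, g2, g3, g4⟩ := sol_bd hS hm hG hMo hχ hE hε' hs hw
  constructor
  · have h1 : ‖gv m χ w1 w2‖ ≤ 1 / ε' := by
      have h2 : ‖gv m χ w1 w2‖ ^ 2 ≤ (1 / ε') ^ 2 := by
        rw [Complex.sq_norm, Complex.normSq_apply]
        show m 1 χ w1 * m 1 χ w1 + m 1 χ w2 * m 1 χ w2 ≤ _
        have : (1 / ε') ^ 2 = 1 / ε' ^ 2 := by ring
        rw [this]
        nlinarith
      exact (pow_le_pow_iff_left₀ (norm_nonneg _) (by positivity) two_ne_zero).1 h2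
    unfold FF
    refine (norm_add_le _ _).trans ?_
    rw [norm_mul, norm_mul, Complex.norm_I, Complex.norm_real, norm_one, Real.norm_eq_abs,
      abs_of_pos hε', one_mul]
    have h3 : ε' * ‖gv m χ w1 w2‖ ≤ ε' * (1 / ε') := mul_le_mul_of_nonneg_left h1 hε'.le
    have h4 : ε' * (1 / ε') = 1 := by field_simp
    linarith
  · rw [(FF_re ε' m χ w1 w2).1]
    linarith

/-- the limit of high frequency -/
theorem F_lim (hS : Sf μ i a) (hm : IsM μ i m) (hC : CyF μ L Φ i a p)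
    (hG : Geo L x1 x2 C0 Φ κ h κ0 h0) (hMo : Mode L x1 x2 e δ S S' ρ) {ε' R : ℝ} (hε' : 0 < ε')
    {s : ℂ} (hs : s ∈ Reg h R) (hsi : 0 < s.im) :
    ∀ ε : ℝ, 0 < ε → ∃ N0 : ℕ, ∀ n : ℕ, N0 ≤ n → ∀ χ w1 w2 : H, IsT m a p L Φ ρ n χ →
      Sol m a (cA (((n : ℝ) + 1) ^ 2 + e) ε' κ h s) (cB (((n : ℝ) + 1) ^ 2 + e) ε' κ h s) χ w1 w2 →
      ‖FF ε' m χ w1 w2‖ ≤ 3 * δ + ε := by
  intro ε hε
  have x1p := hG.prm.x1p
  have x12 := hG.prm.x12
  have x2L := hG.prm.x2L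
  have hL : 0 < L := hC.pos
  have hβ : 0 < bW ε' κ h R := by
    unfold bW
    positivity
  set β := bW ε' κ h R with hβd
  set Y := Real.exp (-(‖κ‖ + R * ‖h‖)) with hY
  have hY0 : 0 < Y := Real.exp_pos _
  set K : ℝ := (2 / β) ^ 2 + 2 / (ε' * (s.im * Y)) with hK
  have hK0 : 0 ≤ K := by positivity
  have hsih : ∀ x ∈ Icc 0 L, s.im * h0 x ≤ π := by
    have h1 : ∀ x ∈ Ioo 0 L, s.im * h0 x ≤ 1 := by
      intro x hx
      have h2 : ((x : ℂ)) ∈ Strip L := hx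
      have h3 := hG.hΦ x h2
      have h4 : h (Φ x) ≤ ‖h‖ := (le_abs_self _).trans (h.norm_coe_le_norm _)
      have h5 : h0 x ≤ ‖h‖ := by
        rw [h3] at h4
        exact h4
      exact (mul_le_mul_of_nonneg_left h5 hs.2.1).trans hs.2.2
    have h2 : Icc (0 : ℝ) L ⊆ {x | x ∈ Icc (0 : ℝ) L ∧ s.im * h0 x ≤ 1} := by
      have hcl : IsClosed {x | x ∈ Icc (0 : ℝ) L ∧ s.im * h0 x ≤ 1} :=
        (isClosed_Icc).isClosed_le (continuousOn_const.mul hG.prm.hc) continuousOn_const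
      have h3 : closure (Ioo (0 : ℝ) L) ⊆ {x | x ∈ Icc (0 : ℝ) L ∧ s.im * h0 x ≤ 1} :=
        closure_minimal (fun x hx => ⟨Ioo_subset_Icc_self hx, h1 x hx⟩) hcl
      rwa [closure_Ioo hL.ne] at h3
    intro x hx
    have := (h2 hx).2
    linarith [Real.pi_gt_three]
  obtain ⟨N1, hN1⟩ := main1 hG.prm hMo.e0 hMo.tρ.1.continuous hMo.dS hMo.dS' hMo.S1 hMo.S2
    (sr := s.re) (si := s.im) hs.2.1 hsih hε' hK0 (ε / 2) (by positivity)
  obtain ⟨N0, hN0⟩ := exists_nat_ge N1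
  refine ⟨N0, fun n hn χ w1 w2 hχ hw => ?_⟩
  have hnn : (N0 : ℝ) ≤ n := by exact_mod_cast hn
  set N : ℝ := ((n : ℝ) + 1) ^ 2 with hN
  have hn0 : (0 : ℝ) ≤ n := Nat.cast_nonneg n
  have hNN : N1 ≤ N := by nlinarith
  have hN1' : 1 ≤ N := by nlinarith
  have hE : 0 ≤ N + e := by
    have := hMo.e0
    linarith
  set E := N + e with hEd
  have hB0 : ∀ x, 0 ≤ cB E ε' κ h s x := fun x =>
    hβ.le.trans (cB_ge' hE hε'.le hG.hn hs x)
  obtain ⟨g1, g2, g3, g4⟩ := sol_bd hS hm hG hMo hχ hE hε' hs hw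
  obtain ⟨U1, U1', U2, U2', hU, hV1, hV2⟩ := ode_of_sol hS hm hC hG hMo.tρ hχ hw
  have hk1 := hU.k1
  have hk2 := hU.k2
  have hρc : Continuous ρ := hMo.tρ.1.continuous
  have hSc : Continuous S := continuous_iff_continuousAt.2 fun x => (hMo.dS x).continuousAt
  have h1Φ : ∀ z ∈ Strip L, (1 : C(M, ℝ)) (Φ z) = (fun _ => 1 : ℝ → ℝ) z.re := fun z _ => rfl
  -- sums of bounds
  have hbd : ∀ (f : C(M, ℝ)) (f0 : ℝ → ℝ), ContinuousOn f0 (Icc 0 L) → (∀ x, 0 ≤ f x) →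
      (∀ z ∈ Strip L, f (Φ z) = f0 z.re) →
      ∫ x in (0 : ℝ)..L, f0 x * ((U1 x) ^ 2 + (U2 x) ^ 2) ≤ m f w1 w1 + m f w2 w2 := by
    intro f f0 hf0c hf hf0
    have b1 := hC.bd f f0 hf hf0 w1 n
    have b2 := hC.bd f f0 hf hf0 w2 n
    rw [← hm] at b1 b2
    have e1 : ∫ x in Ioo 0 L, f0 x * (p w1 n x) ^ 2 = ∫ x in (0 : ℝ)..L, f0 x * (U1 x) ^ 2 := by
      rw [intervalIntegral.integral_of_le hL.le, integral_Ioc_eq_integral_Ioo]
      refine integral_congr_ae ?_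
      filter_upwards [hV1] with x hx
      rw [hx]
    have e2 : ∫ x in Ioo 0 L, f0 x * (p w2 n x) ^ 2 = ∫ x in (0 : ℝ)..L, f0 x * (U2 x) ^ 2 := by
      rw [intervalIntegral.integral_of_le hL.le, integral_Ioc_eq_integral_Ioo]
      refine integral_congr_ae ?_
      filter_upwards [hV2] with x hx
      rw [hx]
    rw [e1] at b1
    rw [e2] at b2
    have i1 : IntervalIntegrable (fun x => f0 x * (U1 x) ^ 2) volume 0 L := by
      refine ContinuousOn.intervalIntegrable ?_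
      rw [uIcc_of_le hL.le]
      fun_prop
    have i2 : IntervalIntegrable (fun x => f0 x * (U2 x) ^ 2) volume 0 L := by
      refine ContinuousOn.intervalIntegrable ?_
      rw [uIcc_of_le hL.le]
      fun_prop
    have e3 : ∫ x in (0 : ℝ)..L, f0 x * ((U1 x) ^ 2 + (U2 x) ^ 2) =
        (∫ x in (0 : ℝ)..L, f0 x * (U1 x) ^ 2) + ∫ x in (0 : ℝ)..L, f0 x * (U2 x) ^ 2 := by
      rw [← intervalIntegral.integral_add i1 i2]
      refine intervalIntegral.integral_congr fun x _ => ?_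
      beta_reduce
      ring
    rw [e3]
    linarith
  -- the total mass
  have hb1 : ∫ x in (0 : ℝ)..L, ((U1 x) ^ 2 + (U2 x) ^ 2) ≤ K := by
    have b1 := hbd 1 (fun _ => 1) continuousOn_const (fun x => zero_le_one) h1Φ
    simp only [one_mul] at b1
    have b2 := sol_norm hS hm hw hβ (fun x => cB_ge' hE hε'.le hG.hn hs x)
    have b3 : ‖i χ‖ ^ 2 = 1 := by rw [← m_one hm, test_one hG hMo hχ]
    have b4 : ‖i χ‖ = 1 := by
      have := norm_nonneg (i χ)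
      nlinarith
    rw [b4, mul_one] at b2
    rw [m_one hm, m_one hm] at b1
    have n1 := norm_nonneg (i w1)
    have n2 := norm_nonneg (i w2)
    have b5 : ‖i w1‖ ^ 2 + ‖i w2‖ ^ 2 ≤ (2 / β) ^ 2 := by
      have : (‖i w1‖ + ‖i w2‖) ^ 2 ≤ (2 / β) ^ 2 := pow_le_pow_left₀ (by positivity) b2 2
      nlinarith [mul_nonneg n1 n2]
    have b6 : 0 ≤ 2 / (ε' * (s.im * Y)) := by positivity
    rw [hK]
    linarith
  -- the mass of `h`
  have hb2 : ∫ x in (0 : ℝ)..L, h0 x * ((U1 x) ^ 2 + (U2 x) ^ 2) ≤ K / N := by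
    have b1 := hbd h h0 hG.prm.hc hG.hn hG.hΦ
    have b2 := absorb hS hm hw
    have b3 : ∀ w : H, (E * (s.im * Y) / 2) * m h w w ≤ m (cB E ε' κ h s) w w := by
      intro w
      rw [← m_smul hm]
      refine m_mono hm (fun x => ?_) w
      simp only [ContinuousMap.smul_apply, smul_eq_mul]
      have b4 := cB_ge (κ := κ) hE hε'.le hG.hn hs x
      rw [← hβd, ← hY] at b4
      have b5 : E * (s.im * Y) / 2 * h x = E * (s.im * h x / 2 * Y) := by ring
      rw [b5]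
      linarith
    have b4 := b3 w1
    have b5 := b3 w2
    have b6 : (E * (s.im * Y) / 2) * (m h w1 w1 + m h w2 w2) ≤ 1 / ε' := by
      have : m 1 χ w2 ≤ 1 / ε' := by
        rw [le_div_iff₀ hε']
        linarith
      linarith
    have b7 : 0 ≤ m h w1 w1 + m h w2 w2 := add_nonneg (m_nonneg hm hG.hn _) (m_nonneg hm hG.hn _)
    refine b1.trans ?_
    have b8 : (2 / (ε' * (s.im * Y))) / N ≤ K / N := by
      refine div_le_div_of_nonneg_right ?_ (by linarith)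
      rw [hK]
      have : 0 ≤ (2 / β) ^ 2 := by positivity
      linarith
    refine le_trans ?_ b8
    rw [div_div, le_div_iff₀ (by positivity)]
    have b9 : (N * (s.im * Y) / 2) * (m h w1 w1 + m h w2 w2) ≤ 1 / ε' := by
      refine le_trans ?_ b6
      refine mul_le_mul_of_nonneg_right ?_ b7
      have : 0 ≤ s.im * Y := by positivity
      have h6 : N ≤ E := by
        rw [hEd]
        linarith [hMo.e0]
      nlinarith
    rw [le_div_iff₀ hε'] at b9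
    nlinarith
  -- the mass on the flat part
  have hb3 : ε' ^ 2 * ∫ x in x1..x2, ((U1 x) ^ 2 + (U2 x) ^ 2) ≤ 1 := by
    have hBc : ContinuousOn (fun x => fB E ε' s.re s.im (κ0 x) (h0 x)) (Icc 0 L) := by
      have := hG.prm.κc
      have := hG.prm.hc
      unfold fB
      fun_prop
    have hBΦ : ∀ z ∈ Strip L, cB E ε' κ h s (Φ z) = (fun x => fB E ε' s.re s.im (κ0 x) (h0 x)) z.re := by
      intro z hz
      show fB E ε' s.re s.im (κ (Φ z)) (h (Φ z)) = _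
      rw [hG.κΦ z hz, hG.hΦ z hz]
    have b1 := hbd (cB E ε' κ h s) (fun x => fB E ε' s.re s.im (κ0 x) (h0 x)) hBc hB0 hBΦ
    have b2 := absorb hS hm hw
    have b3 : ∫ x in x1..x2, fB E ε' s.re s.im (κ0 x) (h0 x) * ((U1 x) ^ 2 + (U2 x) ^ 2) ≤
        ∫ x in (0 : ℝ)..L, fB E ε' s.re s.im (κ0 x) (h0 x) * ((U1 x) ^ 2 + (U2 x) ^ 2) := by
      refine intervalIntegral.integral_mono_interval x1p.le x12.le x2L.le ?_ ?_
      · have : Ioc (0 : ℝ) L =ᵐ[volume] Ioo 0 L := Ioo_ae_eq_Ioc.symm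
        rw [Measure.restrict_congr_set this]
        filter_upwards [ae_restrict_mem measurableSet_Ioo] with x hx
        have h2 : ((x : ℂ)) ∈ Strip L := hx
        have h3 := hBΦ x h2
        have h4 := hB0 (Φ x)
        rw [h3] at h4
        exact mul_nonneg h4 (by positivity)
      · refine ContinuousOn.intervalIntegrable ?_
        rw [uIcc_of_le hL.le]
        fun_prop
    have b4 : ∫ x in x1..x2, fB E ε' s.re s.im (κ0 x) (h0 x) * ((U1 x) ^ 2 + (U2 x) ^ 2) =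
        ε' * ∫ x in x1..x2, ((U1 x) ^ 2 + (U2 x) ^ 2) := by
      rw [← intervalIntegral.integral_const_mul]
      refine intervalIntegral.integral_congr fun x hx => ?_
      rw [uIcc_of_le x12.le] at hx
      obtain ⟨f1, f2⟩ := hG.prm.fl x hx
      beta_reduce
      unfold fB
      rw [f1, f2]
      simp
    rw [b4] at b3
    have b5 : ε' * ∫ x in x1..x2, ((U1 x) ^ 2 + (U2 x) ^ 2) ≤ m 1 χ w2 := by linarith
    have b6 := mul_le_mul_of_nonneg_left b5 hε'.le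
    nlinarith
  obtain ⟨t1, t2⟩ := hN1 N hNN U1 U1' U2 U2' hU hb1 hb2
  -- the values
  have hval : ∀ (w : H) (U : ℝ → ℝ), p w n =ᵐ[volume.restrict (Ioo 0 L)] U →
      m 1 χ w = ∫ x in x1..x2, ρ x * U x := by
    intro w U hwU
    rw [hχ.me 1 (fun _ => 1) h1Φ, ← restr_int x1p x12 x2L (fun x hx => by
      rw [hMo.sρ x hx]
      ring)]
    refine integral_congr_ae ?_
    filter_upwards [hwU] with x hx
    rw [hx]
    ring
  have hv1 := hval w1 U1 hV1
  have hv2 := hval w2 U2 hV2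
  have hdif : ∀ U : ℝ → ℝ, Continuous U → ε' ^ 2 * ∫ x in x1..x2, (U x) ^ 2 ≤ 1 →
      |ε' * (∫ x in x1..x2, ρ x * U x) - ε' * ∫ x in x1..x2, S x * U x| ≤ δ := by
    intro U hUc hU1
    have e1 : ε' * (∫ x in x1..x2, ρ x * U x) - ε' * ∫ x in x1..x2, S x * U x =
        -(ε' * ∫ x in x1..x2, (S x - ρ x) * U x) := by
      have i1 : IntervalIntegrable (fun x => S x * U x) volume x1 x2 :=
        (hSc.mul hUc).intervalIntegrable _ _
      have i2 : IntervalIntegrable (fun x => ρ x * U x) volume x1 x2 :=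
        (hρc.mul hUc).intervalIntegrable _ _
      have e2 : ∫ x in x1..x2, (S x - ρ x) * U x =
          (∫ x in x1..x2, S x * U x) - ∫ x in x1..x2, ρ x * U x := by
        rw [← intervalIntegral.integral_sub i1 i2]
        refine intervalIntegral.integral_congr fun x _ => ?_
        beta_reduce
        ring
      rw [e2]
      ring
    rw [e1, abs_neg]
    refine abs_le_of_sq_le_sq ?_ hMo.δ0
    have c1 := ii_cs (f := fun x => S x - ρ x) (g := U) x12.le (hSc.sub hρc) hUc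
    have c2 := hMo.cl
    have c3 : 0 ≤ ∫ x in x1..x2, (U x) ^ 2 :=
      intervalIntegral.integral_nonneg x12.le fun x _ => sq_nonneg _
    calc (ε' * ∫ x in x1..x2, (S x - ρ x) * U x) ^ 2
        = ε' ^ 2 * (∫ x in x1..x2, (S x - ρ x) * U x) ^ 2 := by ring
      _ ≤ ε' ^ 2 * ((∫ x in x1..x2, (S x - ρ x) ^ 2) * ∫ x in x1..x2, (U x) ^ 2) :=
          mul_le_mul_of_nonneg_left c1 (by positivity)
      _ ≤ ε' ^ 2 * (δ ^ 2 * ∫ x in x1..x2, (U x) ^ 2) :=
          mul_le_mul_of_nonneg_left (mul_le_mul_of_nonneg_right c2 c3) (by positivity)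
      _ = δ ^ 2 * (ε' ^ 2 * ∫ x in x1..x2, (U x) ^ 2) := by ring
      _ ≤ δ ^ 2 * 1 := mul_le_mul_of_nonneg_left hU1 (by positivity)
      _ = δ ^ 2 := mul_one _
  have hsq1 : ε' ^ 2 * ∫ x in x1..x2, (U1 x) ^ 2 ≤ 1 := by
    refine le_trans (mul_le_mul_of_nonneg_left ?_ (by positivity)) hb3
    refine intervalIntegral.integral_mono_on x12.le
      ((by fun_prop : Continuous fun x => (U1 x) ^ 2).intervalIntegrable _ _)
      ((by fun_prop : Continuous fun x => (U1 x) ^ 2 + (U2 x) ^ 2).intervalIntegrable _ _)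
      fun x _ => by nlinarith [sq_nonneg (U2 x)]
  have hsq2 : ε' ^ 2 * ∫ x in x1..x2, (U2 x) ^ 2 ≤ 1 := by
    refine le_trans (mul_le_mul_of_nonneg_left ?_ (by positivity)) hb3
    refine intervalIntegral.integral_mono_on x12.le
      ((by fun_prop : Continuous fun x => (U2 x) ^ 2).intervalIntegrable _ _)
      ((by fun_prop : Continuous fun x => (U1 x) ^ 2 + (U2 x) ^ 2).intervalIntegrable _ _)
      fun x _ => by nlinarith [sq_nonneg (U1 x)]
  have d1 := hdif U1 hk1 hsq1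
  have d2 := hdif U2 hk2 hsq2
  -- the product of the mode and the test function
  have hσ : |1 - ∫ x in x1..x2, S x * ρ x| ≤ δ ^ 2 / 2 := by
    have i1 : IntervalIntegrable (fun x => (S x) ^ 2) volume x1 x2 :=
      (by fun_prop : Continuous fun x => (S x) ^ 2).intervalIntegrable _ _
    have i2 : IntervalIntegrable (fun x => 2 * (S x * ρ x)) volume x1 x2 :=
      (by fun_prop : Continuous fun x => 2 * (S x * ρ x)).intervalIntegrable _ _
    have i3 : IntervalIntegrable (fun x => (ρ x) ^ 2) volume x1 x2 :=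
      (by fun_prop : Continuous fun x => (ρ x) ^ 2).intervalIntegrable _ _
    have e1 : ∫ x in x1..x2, (S x - ρ x) ^ 2 = 1 - 2 * (∫ x in x1..x2, S x * ρ x) + 1 := by
      have e2 : ∫ x in x1..x2, (S x - ρ x) ^ 2 =
          ∫ x in x1..x2, ((S x) ^ 2 - 2 * (S x * ρ x) + (ρ x) ^ 2) := by
        refine intervalIntegral.integral_congr fun x _ => ?_
        beta_reduce
        ring
      rw [e2, intervalIntegral.integral_add (i1.sub i2) i3, intervalIntegral.integral_sub i1 i2,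
        intervalIntegral.integral_const_mul, hMo.nS, hMo.nρ]
    have e3 := hMo.cl
    have e4 : 0 ≤ ∫ x in x1..x2, (S x - ρ x) ^ 2 :=
      intervalIntegral.integral_nonneg x12.le fun x _ => sq_nonneg _
    rw [e1] at e3 e4
    rw [abs_of_nonneg (by linarith)]
    linarith
  have hδ2 : δ ^ 2 / 2 ≤ δ := by
    have := hMo.δ0
    have := hMo.δ1
    nlinarith
  have hre : |(FF ε' m χ w1 w2).re| ≤ 2 * δ + ε / 2 := by
    rw [(FF_re ε' m χ w1 w2).1, hv2]
    have e1 : 1 - ε' * ∫ x in x1..x2, ρ x * U2 x = (1 - ∫ x in x1..x2, S x * ρ x) -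
        (ε' * (∫ x in x1..x2, S x * U2 x) - ∫ x in x1..x2, S x * ρ x) -
        (ε' * (∫ x in x1..x2, ρ x * U2 x) - ε' * ∫ x in x1..x2, S x * U2 x) := by ring
    rw [e1]
    have q1 := abs_sub ((1 - ∫ x in x1..x2, S x * ρ x) -
        (ε' * (∫ x in x1..x2, S x * U2 x) - ∫ x in x1..x2, S x * ρ x))
        (ε' * (∫ x in x1..x2, ρ x * U2 x) - ε' * ∫ x in x1..x2, S x * U2 x)
    have q2 := abs_sub (1 - ∫ x in x1..x2, S x * ρ x)
        (ε' * (∫ x in x1..x2, S x * U2 x) - ∫ x in x1..x2, S x * ρ x)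
    linarith
  have him : |(FF ε' m χ w1 w2).im| ≤ δ + ε / 2 := by
    rw [(FF_re ε' m χ w1 w2).2, hv1]
    have e1 : ε' * ∫ x in x1..x2, ρ x * U1 x = ε' * (∫ x in x1..x2, S x * U1 x) +
        (ε' * (∫ x in x1..x2, ρ x * U1 x) - ε' * ∫ x in x1..x2, S x * U1 x) := by ring
    rw [e1]
    have q1 := abs_add_le (ε' * (∫ x in x1..x2, S x * U1 x))
        (ε' * (∫ x in x1..x2, ρ x * U1 x) - ε' * ∫ x in x1..x2, S x * U1 x)
    linarith
  refine (Complex.norm_le_abs_re_add_abs_im _).trans ?_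
  linarith

end

end Pool.Agent.H240.SC
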