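import Pool.Agent.H240.SC.Vol

/-!
# The eigenvalues as functions of the parameter; fast eigenvalues
-/

set_option autoImplicit false
set_option linter.unusedSectionVars false

open Set Filter Topology MeasureTheory
open scoped Real ContDiff NNReal ENNReal

noncomputable section

namespace Pool.Agent.H240.SC

open Pool.Agent.Y262.QE Pool.Agent.Y264.QR

/-- the measure of the parameters for which there is a fast eigenvalue in a window -/
theorem fast_vol (E : ℕ → ℝ → ℝ) (K : ℝ≥0) (hanti : ∀ j, Antitone (E j))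
    (hLip : ∀ j, LipschitzWith K (fun s => Real.log (E j s)))
    (hlanti : ∀ j, Antitone (fun s => Real.log (E j s)))
    (R C c r m : ℝ) (hC : 0 ≤ C) (hc : 0 < c) (hr : 0 < r) (hm : 2 * r + 1 ≤ m)
    (hcount : ∀ s, |s| ≤ R → ∀ (j : ℕ) (lam : ℝ), 1 ≤ lam → E j s ≤ lam → (j + 1 : ℝ) ≤ C * lam) :
    volume {s : ℝ | |s| ≤ R ∧ ∃ j, deriv (fun s => Real.log (E j s)) s ≤ -c ∧ |E j s - m| ≤ r} ≤
      ENNReal.ofReal (8 * C * r / c) := by
  have hm0 : 0 < m := by linarith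
  set G : Finset ℕ := Finset.range ⌊2 * C * m⌋₊ with hG
  have hsub : {s : ℝ | |s| ≤ R ∧ ∃ j, deriv (fun s => Real.log (E j s)) s ≤ -c ∧ |E j s - m| ≤ r} ⊆
      ⋃ j ∈ G, ({s | |s| ≤ R ∧ deriv (fun s => Real.log (E j s)) s ≤ -c} ∩
        (fun s => Real.log (E j s)) ⁻¹' Icc (Real.log (m - r)) (Real.log (m + r))) := by
    rintro s ⟨hs, j, h1, h2⟩
    rw [abs_le] at h2
    simp only [mem_iUnion, mem_inter_iff, mem_preimage]
    refine ⟨j, ?_, ⟨hs, h1⟩, ⟨Real.log_le_log (by linarith) (by linarith),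
      Real.log_le_log (by linarith) (by linarith)⟩⟩
    have h3 := hcount s hs j (2 * m) (by linarith) (by linarith)
    have h4 : ((j + 1 : ℕ) : ℝ) ≤ 2 * C * m := by
      push_cast
      linarith
    have h5 := Nat.le_floor h4
    rw [hG, Finset.mem_range]
    omega
  refine (measure_mono hsub).trans ((measure_biUnion_finset_le _ _).trans ?_)
  have h1 : ∀ j ∈ G, volume ({s | |s| ≤ R ∧ deriv (fun s => Real.log (E j s)) s ≤ -c} ∩
        (fun s => Real.log (E j s)) ⁻¹' Icc (Real.log (m - r)) (Real.log (m + r))) ≤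
      ENNReal.ofReal (4 * r / m / c) := by
    intro j _
    have hT : MeasurableSet {s | |s| ≤ R ∧ deriv (fun s => Real.log (E j s)) s ≤ -c} := by
      have h1 : {s | |s| ≤ R ∧ deriv (fun s => Real.log (E j s)) s ≤ -c} =
          {s | |s| ≤ R} ∩ {s | deriv (fun s => Real.log (E j s)) s ≤ -c} := rfl
      rw [h1]
      exact (measurableSet_le continuous_abs.measurable measurable_const).inter
        (measurableSet_le (measurable_deriv _) measurable_const)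
    have h2 := Pool.Agent.Y850.QE.one (fun s => Real.log (E j s)) K (hLip j) (hlanti j) c hc
      {s | |s| ≤ R ∧ deriv (fun s => Real.log (E j s)) s ≤ -c} hT (fun s hs => hs.2)
      (Real.log (m - r)) (Real.log (m + r)) (Real.log_le_log (by linarith) (by linarith))
    refine h2.trans (ENNReal.ofReal_le_ofReal ?_)
    exact div_le_div_of_nonneg_right (Pool.Agent.Y936.QE.log_ratio m r hr hm) hc.le
  refine (Finset.sum_le_card_nsmul _ _ _ h1).trans ?_
  rw [nsmul_eq_mul, ← ENNReal.ofReal_natCast, ← ENNReal.ofReal_mul (Nat.cast_nonneg _)]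
  apply ENNReal.ofReal_le_ofReal
  have h3 : (G.card : ℝ) ≤ 2 * C * m := by
    rw [hG, Finset.card_range]
    exact Nat.floor_le (by positivity)
  calc (G.card : ℝ) * (4 * r / m / c) ≤ 2 * C * m * (4 * r / m / c) :=
        mul_le_mul_of_nonneg_right h3 (by positivity)
    _ = 8 * C * r / c := by
        field_simp
        ring

section

variable {M : Type} [MetricSpace M] [CompactSpace M] [MeasurableSpace M] [BorelSpace M]
  {μ : Measure M} [IsFiniteMeasure μ]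
  {H : Type} [NormedAddCommGroup H] [InnerProductSpace ℝ H] [CompleteSpace H]
  {i : H →L[ℝ] Lp ℝ 2 μ} {a : H →L[ℝ] H →L[ℝ] ℝ}

/-- properties of the eigenvalues on the line `κ + s h` -/
structure EvF (μ : Measure M) (i : H →L[ℝ] Lp ℝ 2 μ) (a : H →L[ℝ] H →L[ℝ] ℝ)
    (b : C(M, ℝ) → H →L[ℝ] H →L[ℝ] ℝ) (κ h : C(M, ℝ)) : Prop where
  nn : ∀ j (s : ℝ), 0 ≤ Ev a (b (κ + s • h)) j
  anti : ∀ j, Antitone fun s : ℝ => Ev a (b (κ + s • h)) j
  lip : ∀ (j : ℕ) (s t : ℝ), Ev a (b (κ + s • h)) j ≤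
    Real.exp (‖h‖ * |s - t|) * Ev a (b (κ + t • h)) j
  cnt : ∀ R : ℝ, ∃ C : ℝ, 0 ≤ C ∧ ∀ s : ℝ, |s| ≤ R → ∀ (j : ℕ) (lam : ℝ), 1 ≤ lam →
    Ev a (b (κ + s • h)) j ≤ lam → (j + 1 : ℝ) ≤ C * lam
  der : ∀ᵐ s : ℝ, ∀ (g : ℕ → H) (E : ℕ → ℝ), Eg a (b (κ + s • h)) g E →
    ∀ j, HasDerivAt (fun t : ℝ => Ev a (b (κ + t • h)) j)
      (-(kap μ i h (κ + s • h) (g j) * Ev a (b (κ + s • h)) j)) s

theorem evF (hSf : Sf μ i a) (b : C(M, ℝ) → H →L[ℝ] H →L[ℝ] ℝ) (hB : IsB μ i b) (κ h : C(M, ℝ))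
    (h0 : ∀ x, 0 ≤ h x) : EvF μ i a b κ h := by
  classical
  obtain ⟨b0, hB0, hF, hA, hexp, hk⟩ := tFm M μ H i a hSf
  have hbb : b0 = b := by
    funext ψ
    ext u v
    rw [hB0, hB]
  subst hbb
  obtain ⟨k, ksym, k1, k2⟩ := hk h
  obtain ⟨l1, l2, l3, -, l5⟩ := tLip M μ H a b0 hF hexp
  have hmono : ∀ (s t : ℝ), s ≤ t → ∀ v, b0 (κ + s • h) v v ≤ b0 (κ + t • h) v v := by
    intro s t hst v
    have h1 := k2 (κ + s • h) v (t - s)
    have e1 : (κ + s • h) + (t - s) • h = κ + t • h := by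
      rw [add_assoc, ← add_smul]
      congr 2
      ring
    rw [e1] at h1
    have h2 : 0 ≤ k (κ + s • h) v v := by
      rw [(k1 _ _).1]
      exact integral_nonneg fun x => mul_nonneg (h0 x) (mul_nonneg (Real.exp_pos _).le (sq_nonneg _))
    nlinarith
  have E1 : ∀ (j : ℕ) (s t : ℝ), s ≤ t → Ev a (b0 (κ + t • h)) j ≤ Ev a (b0 (κ + s • h)) j :=
    fun j s t hst => by
      have h1 := (Pool.Agent.Y592.QE.mon H a (b0 (κ + s • h)) (b0 (κ + t • h)) (hF _) (hF _) 1 one_pos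
        (fun v => by rw [one_mul]; exact hmono s t hst v) j).2
      rwa [one_mul] at h1
  have hLp : ∀ (j : ℕ) (s t : ℝ), Ev a (b0 (κ + s • h)) j ≤
      Real.exp (‖h‖ * |s - t|) * Ev a (b0 (κ + t • h)) j := by
    intro j s t
    have h1 := l3 (κ + s • h) (κ + t • h) j
    have e1 : ‖(κ + s • h) - (κ + t • h)‖ = ‖h‖ * |s - t| := by
      rw [add_sub_add_left_eq_sub, ← sub_smul, norm_smul, Real.norm_eq_abs, mul_comm]
    rw [e1] at h1
    exact h1
  have E3 : ∀ R : ℝ, ∃ C : ℝ, 0 ≤ C ∧ ∀ s : ℝ, |s| ≤ R → ∀ (j : ℕ) (lam : ℝ), 1 ≤ lam →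
      Ev a (b0 (κ + s • h)) j ≤ lam → (j + 1 : ℝ) ≤ C * lam := by
    intro R
    obtain ⟨C, hC⟩ := hSf.wy
    set X : ℝ := Real.exp (‖κ‖ + R * ‖h‖) with hX
    by_cases hR : 0 ≤ R
    swap
    · exact ⟨0, le_rfl, fun s hs => absurd ((abs_nonneg s).trans hs) hR⟩
    have hX1 : 1 ≤ X := by
      rw [hX]
      exact Real.one_le_exp (add_nonneg (norm_nonneg _) (mul_nonneg hR (norm_nonneg _)))
    have hX0 : 0 < X := by linarith
    refine ⟨2 * (|C| * X), by positivity, fun s hs j lam h1 h2 => ?_⟩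
    refine Pool.Agent.Y592.QE.cnt H a (b0 (κ + s • h)) (hF _) (|C| * X) ?_ j lam h1 h2
    intro ε hε hε1
    obtain ⟨N, l, hN, hl⟩ := hC (ε / X) (by positivity) (by
      rw [div_le_one hX0]
      linarith)
    refine ⟨N, fun n => Real.sqrt X • l n, ?_, fun v => ?_⟩
    · refine hN.trans ?_
      rw [div_div_eq_mul_div]
      exact div_le_div_of_nonneg_right (mul_le_mul_of_nonneg_right (le_abs_self C) hX0.le) hε.le
    · have h3 : b0 (κ + s • h) v v ≤ X * ‖i v‖ ^ 2 := by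
        have h4 := hexp (κ + s • h) 0 v
        have h5 : b0 0 v v = ‖i v‖ ^ 2 := by
          rw [hB0, ← real_inner_self_eq_norm_sq, L2.inner_def]
          refine integral_congr_ae (Eventually.of_forall fun x => ?_)
          simp [ContinuousMap.zero_apply, Real.exp_zero, sq]
        rw [h5, sub_zero] at h4
        refine h4.trans (mul_le_mul_of_nonneg_right ?_ (sq_nonneg _))
        refine Real.exp_le_exp.2 ((norm_add_le _ _).trans ?_)
        rw [norm_smul, Real.norm_eq_abs]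
        have := mul_le_mul_of_nonneg_right hs (norm_nonneg h)
        linarith
      have h6 := hl v
      have h7 : ∑ n, ((Real.sqrt X • l n) v) ^ 2 = X * ∑ n, (l n v) ^ 2 := by
        rw [Finset.mul_sum]
        refine Finset.sum_congr rfl fun n _ => ?_
        rw [smul_apply, smul_eq_mul, mul_pow, Real.sq_sqrt hX0.le]
      rw [h7]
      calc b0 (κ + s • h) v v ≤ X * ‖i v‖ ^ 2 := h3
        _ ≤ X * (ε / X * a v v + ∑ n, (l n v) ^ 2) := mul_le_mul_of_nonneg_left h6 hX0.le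
        _ = ε * a v v + X * ∑ n, (l n v) ^ 2 := by
          field_simp
  refine ⟨fun j s => l1 _ _, fun j s t hst => E1 j s t hst, hLp, E3, ?_⟩
  -- a choice of the systems of eigenvectors
  set Bad : ℝ → (ℕ → H) × (ℕ → ℝ) → Prop := fun s x => Eg a (b0 (κ + s • h)) x.1 x.2 ∧
    ∃ j, ¬ HasDerivAt (fun t : ℝ => Ev a (b0 (κ + t • h)) j)
      (-(kap μ i h (κ + s • h) (x.1 j) * Ev a (b0 (κ + s • h)) j)) s with hBad
  have hsel : ∀ s : ℝ, ∃ x : (ℕ → H) × (ℕ → ℝ), Eg a (b0 (κ + s • h)) x.1 x.2 ∧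
      ((∃ y, Bad s y) → Bad s x) := by
    intro s
    by_cases hb : ∃ y, Bad s y
    · obtain ⟨y, hy⟩ := hb
      exact ⟨y, hy.1, fun _ => hy⟩
    · obtain ⟨e, E, hE⟩ := tSp H a (b0 (κ + s • h)) (hF _)
      exact ⟨(e, E), hE, fun h => absurd h hb⟩
  choose x hx hxb using hsel
  have hmm : ∀ s j, Ev a (b0 (κ + s • h)) j = (x s).2 j := fun s j =>
    Pool.Agent.Y592.QE.mm H a (b0 (κ + s • h)) (hF _) (x s).1 (x s).2 (hx s) j
  have c1 := Pool.Agent.Y147.QR.stAE (fun j t => Ev a (b0 (κ + t • h)) j)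
    (fun j t => kap μ i h (κ + t • h) ((x t).1 j)) ‖h‖ (fun j t => l1 _ _)
    (fun i' j t hij => l2 _ _ _ hij) hLp (by
      intro i' j t hij hl ε hε
      have hij' : (x t).2 i' = (x t).2 j := by rw [← hmm, ← hmm]; exact hij
      have hl' : ∀ l, l < i' → (x t).2 l < (x t).2 i' := by
        intro l hli
        rw [← hmm, ← hmm]
        exact hl l hli
      obtain ⟨δ, hδ, h1⟩ := tDer0 H a (b0 (κ + t • h)) (hF _) (x t).1 (x t).2 (hx t)
        (k (κ + t • h)) ‖h‖ (ksym _) (fun v => (k1 _ v).2) i' j hij' hl' ε hε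
      refine ⟨δ, hδ, fun τ hτ => ?_⟩
      have h2 := h1 τ hτ (b0 (κ + (t + τ) • h)) (by
        intro v
        have h3 := k2 (κ + t • h) v τ
        have e1 : (κ + t • h) + τ • h = κ + (t + τ) • h := by rw [add_smul, add_assoc]
        rw [e1] at h3
        exact h3)
      rw [(k1 _ _).1, ← hmm] at h2
      exact h2)
  filter_upwards [c1] with s hs1
  by_contra hcon
  push Not at hcon
  obtain ⟨e, E, hE, j, hj⟩ := hcon
  have hbad := hxb s ⟨(e, E), hE, j, hj⟩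
  obtain ⟨-, j', hj'⟩ := hbad
  exact hj' (hs1 j')

/-- there is an eigenfunction with an eigenvalue near `m` which is almost supported on `h = 0` -/
def Gd (μ : Measure M) (i : H →L[ℝ] Lp ℝ 2 μ) (a : H →L[ℝ] H →L[ℝ] ℝ)
    (b : C(M, ℝ) → H →L[ℝ] H →L[ℝ] ℝ) (κ h : C(M, ℝ)) (c m s : ℝ) : Prop :=
  ∀ (g : ℕ → H) (E : ℕ → ℝ), Eg a (b (κ + s • h)) g E →
    ∃ j, |E j - m| ≤ c ∧ kap μ i h (κ + s • h) (g j) ≤ c

variable {m : C(M, ℝ) → H →L[ℝ] H →L[ℝ] ℝ} {p : H → ℕ → ℝ → ℝ} {L : ℝ}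
  {Φ : ℂ → M} {x1 x2 C0 : ℝ} {κ h : C(M, ℝ)} {κ0 h0 : ℝ → ℝ}

/-- most parameters are good -/
theorem good_vol (hS : Sf μ i a) (hm : IsM μ i m) {b : C(M, ℝ) → H →L[ℝ] H →L[ℝ] ℝ}
    (hB : IsB μ i b) (hF : ∀ φ, Fm a (b φ)) (hC : CyF μ L Φ i a p)
    (hG : Geo L x1 x2 C0 Φ κ h κ0 h0) {s1 s2 : ℝ} (h12 : s1 < s2) (k : ℕ) {c : ℝ}
    (hc : 0 < c) : ∀ η : ℝ, 0 < η → ∀ᶠ n : ℕ in atTop,
      volume {s : ℝ | s ∈ Icc s1 s2 ∧ ¬ Gd μ i a b κ h c (((n : ℝ) + 1) ^ 2 + ee x1 x2 k) s} ≤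
        ENNReal.ofReal η := by
  intro η hη
  have hev := evF hS b hB κ h hG.hn
  set R : ℝ := |s1| + |s2| with hR
  have hR1 : ∀ x ∈ Icc s1 s2, |x| ≤ R := by
    intro x hx
    rw [abs_le]
    have a1 := neg_abs_le s1
    have a2 := le_abs_self s2
    have a3 := abs_nonneg s1
    have a4 := abs_nonneg s2
    constructor
    · linarith [hx.1]
    · linarith [hx.2]
  obtain ⟨C, hC0, hcnt⟩ := hev.cnt R
  set ε' : ℝ := min c (η * c / (16 * (C + 1))) with hε'
  have hε0 : 0 < ε' := lt_min hc (by positivity)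
  have hε1 : ε' ≤ c := min_le_left _ _
  have hε2 : 8 * C * ε' / c ≤ η / 2 := by
    have h1 : ε' ≤ η * c / (16 * (C + 1)) := min_le_right _ _
    rw [le_div_iff₀ (by positivity)] at h1
    rw [div_le_iff₀ hc]
    nlinarith
  -- logarithms
  obtain ⟨K', hK'⟩ : ∃ K' : ℝ≥0, (K' : ℝ) = ‖h‖ := ⟨⟨‖h‖, norm_nonneg _⟩, rfl⟩
  have hpos : ∀ (j : ℕ) (s₀ : ℝ), 0 < Ev a (b (κ + s₀ • h)) j →
      ∀ t : ℝ, 0 < Ev a (b (κ + t • h)) j := by
    intro j s₀ h0 t
    have h1 := hev.lip j s₀ t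
    by_contra hcon
    have h2 : Ev a (b (κ + t • h)) j = 0 := le_antisymm (not_lt.1 hcon) (hev.nn j t)
    rw [h2, mul_zero] at h1
    linarith
  have hdich : ∀ j, (∀ s : ℝ, 0 < Ev a (b (κ + s • h)) j) ∨ (∀ s : ℝ, Ev a (b (κ + s • h)) j = 0) := by
    intro j
    by_cases h : ∃ s₀ : ℝ, 0 < Ev a (b (κ + s₀ • h)) j
    · obtain ⟨s₀, h0⟩ := h
      exact Or.inl (hpos j s₀ h0)
    · push Not at h
      exact Or.inr fun s => le_antisymm (h s) (hev.nn j s)
  have hlanti : ∀ j, Antitone (fun s : ℝ => Real.log (Ev a (b (κ + s • h)) j)) := by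
    intro j s t hst
    rcases hdich j with h1 | h1
    · exact Real.log_le_log (h1 t) (hev.anti j hst)
    · show Real.log (Ev a (b (κ + t • h)) j) ≤ Real.log (Ev a (b (κ + s • h)) j)
      rw [h1, h1]
  have hLip : ∀ j, LipschitzWith K' (fun s : ℝ => Real.log (Ev a (b (κ + s • h)) j)) := by
    intro j
    refine LipschitzWith.of_dist_le_mul fun s t => ?_
    rw [Real.dist_eq, Real.dist_eq, hK']
    have key : ∀ s t : ℝ, Real.log (Ev a (b (κ + s • h)) j) - Real.log (Ev a (b (κ + t • h)) j) ≤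
        ‖h‖ * |s - t| := by
      intro s t
      rcases hdich j with h1 | h1
      · have h2 := Real.log_le_log (h1 s) (hev.lip j s t)
        rw [Real.log_mul (Real.exp_pos _).ne' (h1 t).ne', Real.log_exp] at h2
        linarith
      · rw [h1, h1, sub_self]
        positivity
    rw [abs_le]
    constructor
    · have := key t s
      rw [abs_sub_comm] at this
      linarith
    · exact key s t
  have hwin := vol_win hS hm hB hF hC hG h12 k hε0 (η / 2) (by positivity)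
  have hee : 0 ≤ ee x1 x2 k := by
    unfold ee
    positivity
  obtain ⟨n0, hn0⟩ := exists_nat_ge (2 * ε' + 1)
  filter_upwards [hwin, eventually_ge_atTop n0] with n hn1 hn2
  set En : ℝ := ((n : ℝ) + 1) ^ 2 + ee x1 x2 k with hEn
  have hEn1 : 2 * ε' + 1 ≤ En := by
    have h1 : (n0 : ℝ) ≤ n := by exact_mod_cast hn2
    have h2 : (0 : ℝ) ≤ n := Nat.cast_nonneg n
    rw [hEn]
    nlinarith
  have hfast := fast_vol (fun j s => Ev a (b (κ + s • h)) j) K' hev.anti hLip hlanti R C c ε' En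
    hC0 hc hε0 hEn1 hcnt
  have hnull : volume {s : ℝ | ¬ ∀ (g : ℕ → H) (E : ℕ → ℝ), Eg a (b (κ + s • h)) g E →
      ∀ j, HasDerivAt (fun t : ℝ => Ev a (b (κ + t • h)) j)
      (-(kap μ i h (κ + s • h) (g j) * Ev a (b (κ + s • h)) j)) s} = 0 := ae_iff.1 hev.der
  have hsub : {s : ℝ | s ∈ Icc s1 s2 ∧ ¬ Gd μ i a b κ h c En s} ⊆
      ({s : ℝ | s ∈ Icc s1 s2 ∧ ∀ j, ε' ≤ |Ev a (b (κ + s • h)) j - En|} ∪
      {s : ℝ | |s| ≤ R ∧ ∃ j, deriv (fun s : ℝ => Real.log (Ev a (b (κ + s • h)) j)) s ≤ -c ∧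
        |Ev a (b (κ + s • h)) j - En| ≤ ε'}) ∪
      {s : ℝ | ¬ ∀ (g : ℕ → H) (E : ℕ → ℝ), Eg a (b (κ + s • h)) g E →
      ∀ j, HasDerivAt (fun t : ℝ => Ev a (b (κ + t • h)) j)
      (-(kap μ i h (κ + s • h) (g j) * Ev a (b (κ + s • h)) j)) s} := by
    rintro s ⟨hs, hbad⟩
    by_contra hcon
    rw [mem_union, mem_union] at hcon
    obtain ⟨h12', h3⟩ := not_or.1 hcon
    obtain ⟨h1, h2⟩ := not_or.1 h12'
    apply hbad
    intro g E hE
    have hEv := Pool.Agent.Y592.QE.mm H a (b (κ + s • h)) (hF _) g E hE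
    have h1' : ¬ ∀ j, ε' ≤ |Ev a (b (κ + s • h)) j - En| := fun hh => h1 ⟨hs, hh⟩
    push Not at h1'
    obtain ⟨j, hj⟩ := h1'
    have h3' := (not_not.1 fun hh => h3 hh) g E hE j
    refine ⟨j, ?_, ?_⟩
    · rw [← hEv j]
      exact hj.le.trans hε1
    · have hp : 0 < Ev a (b (κ + s • h)) j := by
        have := (abs_lt.1 hj).1
        linarith
      have h4 := h3'.log hp.ne'
      have h5 : -(kap μ i h (κ + s • h) (g j) * Ev a (b (κ + s • h)) j) / Ev a (b (κ + s • h)) j =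
          -(kap μ i h (κ + s • h) (g j)) := by
        field_simp
      rw [h5] at h4
      by_contra hlt
      push Not at hlt
      refine h2 ⟨hR1 s hs, j, ?_, hj.le⟩
      rw [h4.deriv]
      linarith
  refine (measure_mono hsub).trans ((measure_union_le _ _).trans ?_)
  rw [hnull, add_zero]
  refine (measure_union_le _ _).trans ?_
  refine (add_le_add hn1 (hfast.trans (ENNReal.ofReal_le_ofReal hε2))).trans ?_
  rw [← ENNReal.ofReal_add (by positivity) (by positivity)]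
  exact ENNReal.ofReal_le_ofReal (by linarith)

end

end Pool.Agent.H240.SC
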