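import Pool.Agent.H240.SC.Flim
import Pool.Agent.H240.SC.Cau

/-!
# Real parameters: a small value at the test vector gives an eigenvalue
-/

set_option autoImplicit false
set_option linter.unusedSectionVars false

open Set Filter Topology MeasureTheory
open scoped Real ContDiff

noncomputable section

namespace Pool.Agent.H240.SC

open Pool.Agent.Y262.QE Pool.Agent.Y264.QR

section

variable {M : Type} [MetricSpace M] [CompactSpace M] [MeasurableSpace M] [BorelSpace M]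
  {μ : Measure M} [IsFiniteMeasure μ]
  {H : Type} [NormedAddCommGroup H] [InnerProductSpace ℝ H] {i : H →L[ℝ] Lp ℝ 2 μ}
  {a : H →L[ℝ] H →L[ℝ] ℝ} {m : C(M, ℝ) → H →L[ℝ] H →L[ℝ] ℝ} {p : H → ℕ → ℝ → ℝ} {L : ℝ}
  {Φ : ℂ → M} {x1 x2 C0 : ℝ} {κ h : C(M, ℝ)} {κ0 h0 : ℝ → ℝ} {e δ : ℝ} {S S' ρ : ℝ → ℝ}

theorem m_b (hm : IsM μ i m) {b : C(M, ℝ) → H →L[ℝ] H →L[ℝ] ℝ} (hB : IsB μ i b) {φ f : C(M, ℝ)}
    {c : ℝ} (hf : ∀ x, f x = c * Real.exp (φ x)) (u v : H) : m f u v = c * b φ u v := by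
  rw [hm, hB, ← integral_const_mul]
  refine integral_congr_ae (Eventually.of_forall fun x => ?_)
  beta_reduce
  rw [hf]
  ring

theorem gap (hS : Sf μ i a) (hm : IsM μ i m) {b : C(M, ℝ) → H →L[ℝ] H →L[ℝ] ℝ} (hB : IsB μ i b)
    {φ : C(M, ℝ)} (hF : Fm a (b φ)) {g : ℕ → H} {E : ℕ → ℝ} (hE : Eg a (b φ) g E) {E0 ε' : ℝ}
    (hε' : 0 < ε') {A B : C(M, ℝ)} (hA : ∀ x, A x = E0 * Real.exp (φ x))
    (hBB : ∀ x, B x = ε' * Real.exp (φ x)) {χ w1 w2 : H} (hw : Sol m a A B χ w1 w2)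
    (hχ : ∀ v, m 1 χ v = b φ χ v) (h1 : m 1 χ χ = 1) (hgap : ∀ j, ε' ≤ |E j - E0|) :
    ε' * m 1 χ w2 ≤ 1 / 2 := by
  have mA := fun u v => m_b hm hB hA u v
  have mB := fun u v => m_b hm hB hBB u v
  have hj : ∀ j, (b φ w1 (g j)) ^ 2 + (b φ w2 (g j)) ^ 2 ≤ (b φ χ (g j)) ^ 2 * (1 / (2 * ε' ^ 2)) := by
    intro j
    have e1 := hw.e1 (g j)
    have e2 := hw.e2 (g j)
    rw [mA, mB, hχ, hS.sa, hE.eig, hF.sb (g j) w1] at e1
    rw [mA, mB, hS.sa, hE.eig, hF.sb (g j) w2] at e2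
    set x := b φ w1 (g j) with hx
    set y := b φ w2 (g j) with hy
    set c := b φ χ (g j) with hc
    set d := E j - E0 with hd
    have e3 : d * x + ε' * y = c := by rw [hd]; linarith
    have e4 : d * y - ε' * x = 0 := by rw [hd]; linarith
    have e5 : (d ^ 2 + ε' ^ 2) * (x ^ 2 + y ^ 2) = c ^ 2 := by
      have : (d ^ 2 + ε' ^ 2) * (x ^ 2 + y ^ 2) = (d * x + ε' * y) ^ 2 + (d * y - ε' * x) ^ 2 := by
        ring
      rw [this, e3, e4]
      ring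
    have e6 : ε' ^ 2 ≤ d ^ 2 := by
      have := hgap j
      rw [← hd] at this
      rw [← sq_abs d]
      exact pow_le_pow_left₀ hε'.le this 2
    rw [mul_one_div, le_div_iff₀ (by positivity)]
    have e7 : 0 ≤ x ^ 2 + y ^ 2 := by positivity
    nlinarith
  have s1 := hE.sum w1
  have s2 := hE.sum w2
  have s3 := hE.sum χ
  have s4 : b φ w1 w1 + b φ w2 w2 ≤ b φ χ χ * (1 / (2 * ε' ^ 2)) :=
    hasSum_le hj (s1.add s2) (s3.mul_right _)
  have h2 := absorb hS hm hw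
  rw [mB, mB] at h2
  have h3 : b φ χ χ = 1 := by rw [← hχ, h1]
  rw [h3, one_mul, le_div_iff₀ (by positivity)] at s4
  have h4 : ε' * m 1 χ w2 = ε' ^ 2 * (b φ w1 w1 + b φ w2 w2) := by
    rw [← h2]
    ring
  rw [h4]
  linarith

theorem cA_real {E ε' : ℝ} {κ h : C(M, ℝ)} (s : ℝ) (x : M) :
    cA E ε' κ h (s : ℂ) x = E * Real.exp ((κ + s • h) x) ∧
      cB E ε' κ h (s : ℂ) x = ε' * Real.exp ((κ + s • h) x) := by
  constructor
  · show fA E ε' (s : ℂ).re (s : ℂ).im (κ x) (h x) = E * Real.exp (κ x + s * h x)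
    unfold fA
    simp
  · show fB E ε' (s : ℂ).re (s : ℂ).im (κ x) (h x) = ε' * Real.exp (κ x + s * h x)
    unfold fB
    simp

/-- if there is no eigenvalue in the window then the value at the test vector is not small -/
theorem gap_real (hS : Sf μ i a) (hm : IsM μ i m) {b : C(M, ℝ) → H →L[ℝ] H →L[ℝ] ℝ}
    (hB : IsB μ i b) (hF : ∀ φ, Fm a (b φ)) (hG : Geo L x1 x2 C0 Φ κ h κ0 h0)
    (hMo : Mode L x1 x2 e δ S S' ρ) {n : ℕ} {χ : H} (hχ : IsT m a p L Φ ρ n χ) {E0 ε' : ℝ}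
    (hε' : 0 < ε') {s : ℝ} {w1 w2 : H} (hw : Sol m a (cA E0 ε' κ h s) (cB E0 ε' κ h s) χ w1 w2)
    {g : ℕ → H} {E : ℕ → ℝ} (hE : Eg a (b (κ + s • h)) g E) (hgap : ∀ j, ε' ≤ |E j - E0|) :
    1 / 2 ≤ (FF ε' m χ w1 w2).re := by
  have h1 := gap hS hm hB (hF _) hE hε' (fun x => (cA_real s x).1) (fun x => (cA_real s x).2) hw
    (fun v => ?_) (test_one hG hMo hχ) hgap
  · rw [(FF_re ε' m χ w1 w2).1]
    linarith
  · let W : C(M, ℝ) := ⟨fun x => Real.exp ((κ + s • h) x), by fun_prop⟩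
    have h2 := m_b hm hB (f := W) (φ := κ + s • h) (c := 1) (fun x => by
      show Real.exp _ = _
      rw [one_mul]) χ v
    rw [one_mul] at h2
    rw [← h2, test_flat hG hMo hχ (f := W) (f0 := fun x => Real.exp (κ0 x + s * h0 x)) (c := 1)
      (fun z hz => ?_) (fun x hx => ?_) v, one_mul]
    · show Real.exp (κ (Φ z) + s * h (Φ z)) = _
      rw [hG.κΦ z hz, hG.hΦ z hz]
    · obtain ⟨f1, f2⟩ := hG.prm.fl x hx
      beta_reduce
      rw [f1, f2]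
      simp

end

end Pool.Agent.H240.SC
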