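import Pool.Agent.H240.SC.Bdry

/-!
# The damped equation on the cylinder in the limit of high frequency
-/

set_option autoImplicit false

open Set Filter Topology MeasureTheory intervalIntegral
open scoped Real ContDiff

noncomputable section

namespace Pool.Agent.H240.SC

open Pool.Agent.Y262.QE

/-- the logarithm `κ` of the conformal factor and the direction `h` on the cylinder: they vanish on
`[x1, x2]`, `h` is positive on the rest of the cylinder and `κ` is bounded by a multiple of `h` -/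
structure Prm (L x1 x2 C0 : ℝ) (κ h : ℝ → ℝ) : Prop where
  x1p : 0 < x1
  x12 : x1 < x2
  x2L : x2 < L
  κc : ContinuousOn κ (Icc 0 L)
  hc : ContinuousOn h (Icc 0 L)
  fl : ∀ x ∈ Icc x1 x2, κ x = 0 ∧ h x = 0
  h0 : ∀ x ∈ Icc 0 L, 0 ≤ h x
  hp : ∀ x ∈ Ioo 0 L, x ∉ Icc x1 x2 → 0 < h x
  C0p : 0 ≤ C0
  cmp : ∀ x ∈ Icc 0 L, κ x ≤ C0 * h x

/-- the real part of `(E + iε) exp (κ + (sr + i si) h)` -/
def fA (E ε sr si κ h : ℝ) : ℝ :=
  E * (Real.exp (κ + sr * h) * Real.cos (si * h)) - ε * (Real.exp (κ + sr * h) * Real.sin (si * h))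

/-- the imaginary part of `(E + iε) exp (κ + (sr + i si) h)` -/
def fB (E ε sr si κ h : ℝ) : ℝ :=
  E * (Real.exp (κ + sr * h) * Real.sin (si * h)) + ε * (Real.exp (κ + sr * h) * Real.cos (si * h))

theorem bump_ex {L a b : ℝ} (ha : 0 < a) (hab : a < b) (hb : b < L) :
    ∃ χ : ℝ → ℝ, Tst L χ ∧ (∀ x, 0 ≤ χ x ∧ χ x ≤ 1) ∧ ∀ x ∈ Icc a b, χ x = 1 := by
  set m : ℝ := min a (L - b) / 2 with hm
  have hm0 : 0 < m := by
    have : 0 < min a (L - b) := lt_min ha (by linarith)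
    linarith
  have hm1 : m < a := by
    have := min_le_left a (L - b)
    linarith
  have hm2 : m < L - b := by
    have := min_le_right a (L - b)
    linarith
  let f : ContDiffBump ((a + b) / 2 : ℝ) :=
    { rIn := (b - a) / 2, rOut := (b - a) / 2 + m, rIn_pos := by linarith, rIn_lt_rOut := by linarith }
  refine ⟨f, ⟨f.contDiff, f.hasCompactSupport, ?_⟩, fun x => ⟨f.nonneg, f.le_one⟩, fun x hx => ?_⟩
  · rw [f.tsupport_eq, Real.closedBall_eq_Icc]
    intro x hx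
    have h1 : (a + b) / 2 - ((b - a) / 2 + m) ≤ x := hx.1
    have h2 : x ≤ (a + b) / 2 + ((b - a) / 2 + m) := hx.2
    exact ⟨by linarith, by linarith⟩
  · refine f.one_of_mem_closedBall ?_
    rw [Real.closedBall_eq_Icc]
    show x ∈ Icc ((a + b) / 2 - (b - a) / 2) ((a + b) / 2 + (b - a) / 2)
    exact ⟨by linarith [hx.1], by linarith [hx.2]⟩

theorem fA_le {E ε sr si κ h C0 H : ℝ} (hE : 0 ≤ E) (hε : 0 ≤ ε) (hh : 0 ≤ h) (hH : h ≤ H)
    (hC0 : 0 ≤ C0) (hκ : κ ≤ C0 * h) (hs : 0 ≤ si) (hsi : si * h ≤ π) :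
    fA E ε sr si κ h ≤ E + E * ((C0 + |sr|) * Real.exp ((C0 + |sr|) * H)) * h := by
  unfold fA
  have h1 : 0 ≤ Real.sin (si * h) := Real.sin_nonneg_of_nonneg_of_le_pi (mul_nonneg hs hh) hsi
  have h2 : Real.cos (si * h) ≤ 1 := Real.cos_le_one _
  have h3 : 0 < Real.exp (κ + sr * h) := Real.exp_pos _
  have h4 : E * (Real.exp (κ + sr * h) * Real.cos (si * h)) ≤ E * Real.exp (κ + sr * h) := by
    refine mul_le_mul_of_nonneg_left ?_ hE
    nlinarith
  have h5 : 0 ≤ ε * (Real.exp (κ + sr * h) * Real.sin (si * h)) := by positivity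
  set c := C0 + |sr| with hc
  have hc0 : 0 ≤ c := by positivity
  have h6 : κ + sr * h ≤ c * h := by
    have : sr * h ≤ |sr| * h := mul_le_mul_of_nonneg_right (le_abs_self _) hh
    rw [hc]
    linarith
  have h7 : Real.exp (κ + sr * h) ≤ 1 + c * Real.exp (c * H) * h := by
    have h8 : Real.exp (κ + sr * h) ≤ Real.exp (c * h) := Real.exp_le_exp.2 h6
    have h9 : Real.exp (c * h) - 1 ≤ c * h * Real.exp (c * h) := by
      have h10 := Real.add_one_le_exp (-(c * h))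
      have h11 : Real.exp (-(c * h)) * Real.exp (c * h) = 1 := by
        rw [← Real.exp_add, neg_add_cancel, Real.exp_zero]
      nlinarith [Real.exp_pos (c * h)]
    have h12 : Real.exp (c * h) ≤ Real.exp (c * H) :=
      Real.exp_le_exp.2 (mul_le_mul_of_nonneg_left hH hc0)
    have h13 : c * h * Real.exp (c * h) ≤ c * h * Real.exp (c * H) :=
      mul_le_mul_of_nonneg_left h12 (by positivity)
    linarith
  have h14 := mul_le_mul_of_nonneg_left h7 hE
  linarith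

/-- the limit of high frequency -/
theorem main1 {L x1 x2 C0 : ℝ} {κ h : ℝ → ℝ} (hp : Prm L x1 x2 C0 κ h) {e : ℝ} (he : 0 ≤ e)
    {ρ : ℝ → ℝ} (hρ : Continuous ρ) {S S' : ℝ → ℝ} (hS : ∀ x, HasDerivAt S (S' x) x)
    (hS' : ∀ x, HasDerivAt S' (-e * S x) x) (hS1 : S x1 = 0) (hS2 : S x2 = 0) {sr si ε' : ℝ}
    (hsi : 0 ≤ si) (hsih : ∀ x ∈ Icc 0 L, si * h x ≤ π) (hε' : 0 < ε') {K : ℝ} (hK : 0 ≤ K) :
    ∀ ε : ℝ, 0 < ε → ∃ N0 : ℝ, ∀ N : ℝ, N0 ≤ N → ∀ U1 U1' U2 U2' : ℝ → ℝ,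
      Cls2 L (fun x => N - fA (N + e) ε' sr si (κ x) (h x))
        (fun x => fB (N + e) ε' sr si (κ x) (h x)) ρ U1 U1' U2 U2' →
      ∫ x in (0 : ℝ)..L, ((U1 x) ^ 2 + (U2 x) ^ 2) ≤ K →
      ∫ x in (0 : ℝ)..L, h x * ((U1 x) ^ 2 + (U2 x) ^ 2) ≤ K / N →
      |ε' * (∫ x in x1..x2, S x * U2 x) - ∫ x in x1..x2, S x * ρ x| ≤ ε ∧
      |ε' * ∫ x in x1..x2, S x * U1 x| ≤ ε := by
  intro ε hε
  have hL : 0 < L := hp.x1p.trans (hp.x12.trans hp.x2L)
  have x1p := hp.x1p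
  have x12 := hp.x12
  have x2L := hp.x2L
  set a : ℝ := x1 / 2 with ha
  set b : ℝ := (x2 + L) / 2 with hb
  obtain ⟨χ, hχ, hχ01, hχ1⟩ := bump_ex (L := L) (a := a) (b := b) (by linarith) (by linarith)
    (by linarith)
  have hχc : Continuous χ := hχ.1.continuous
  have hχ2c : Continuous (iteratedDeriv 2 χ) := hχ.1.continuous_iteratedDeriv 2 (by norm_cast)
  obtain ⟨M2, hM2⟩ := isCompact_Icc.exists_bound_of_continuousOn (s := Icc (0 : ℝ) L)
    hχ2c.continuousOn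
  obtain ⟨H, hH⟩ := isCompact_Icc.exists_bound_of_continuousOn (s := Icc (0 : ℝ) L) hp.hc
  have hSc' : Continuous S' := continuous_iff_continuousAt.2 fun x => (hS' x).continuousAt
  obtain ⟨MS, hMS⟩ := isCompact_Icc.exists_bound_of_continuousOn (s := Icc (0 : ℝ) L)
    hSc'.continuousOn
  have hM20 : 0 ≤ M2 := (norm_nonneg _).trans (hM2 0 ⟨le_rfl, hL.le⟩)
  have hMS0 : 0 ≤ MS := (norm_nonneg _).trans (hMS 0 ⟨le_rfl, hL.le⟩)
  set C1 : ℝ := (C0 + |sr|) * Real.exp ((C0 + |sr|) * H) with hC1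
  have hC10 : 0 ≤ C1 := by
    have := hp.C0p
    positivity
  set C4 : ℝ := 1 / 2 * M2 * K + e * K + (1 + e) * C1 * K + 1 / 2 * (∫ x in (0 : ℝ)..L, (ρ x) ^ 2) +
    1 / 2 * K with hC4
  have hρ2 : 0 ≤ ∫ x in (0 : ℝ)..L, (ρ x) ^ 2 :=
    intervalIntegral.integral_nonneg hL.le fun x _ => sq_nonneg _
  have hC40 : 0 ≤ C4 := by positivity
  set ε1 : ℝ := ε / (2 * (MS + 1)) with hε1
  have hε10 : 0 < ε1 := by positivity
  -- the length of the small intervals
  set τ : ℝ := min (min a (b - x2)) (ε1 ^ 2 / (4 * (C4 + 1))) with hτ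
  have hτ0 : 0 < τ := lt_min (lt_min (by linarith) (by linarith)) (by positivity)
  have hτa : τ ≤ a := (min_le_left _ _).trans (min_le_left _ _)
  have hτb : τ ≤ b - x2 := (min_le_left _ _).trans (min_le_right _ _)
  have hτC : 2 * τ * C4 ≤ ε1 ^ 2 / 2 := by
    have h1 : τ ≤ ε1 ^ 2 / (4 * (C4 + 1)) := min_le_right _ _
    rw [le_div_iff₀ (by positivity)] at h1
    nlinarith
  have hI1 : 0 < ∫ x in (x1 - τ)..x1, h x := by
    refine intervalIntegral.intervalIntegral_pos_of_pos_on ?_ (fun x hx => ?_) (by linarith)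
    · refine ContinuousOn.intervalIntegrable ?_
      rw [uIcc_of_le (by linarith)]
      exact hp.hc.mono fun x hx => ⟨by linarith [hx.1], by linarith [hx.2]⟩
    · exact hp.hp x ⟨by linarith [hx.1], by linarith [hx.2]⟩ fun hc => by linarith [hx.2, hc.1]
  have hI2 : 0 < ∫ x in x2..(x2 + τ), h x := by
    refine intervalIntegral.intervalIntegral_pos_of_pos_on ?_ (fun x hx => ?_) (by linarith)
    · refine ContinuousOn.intervalIntegrable ?_
      rw [uIcc_of_le (by linarith)]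
      exact hp.hc.mono fun x hx => ⟨by linarith [hx.1], by linarith [hx.2]⟩
    · exact hp.hp x ⟨by linarith [hx.1], by linarith [hx.2]⟩ fun hc => by linarith [hx.1, hc.2]
  set I1 := ∫ x in (x1 - τ)..x1, h x with hI1d
  set I2 := ∫ x in x2..(x2 + τ), h x with hI2d
  refine ⟨max 1 (max (4 * K / (I1 * ε1 ^ 2)) (4 * K / (I2 * ε1 ^ 2))), ?_⟩
  intro N hN U1 U1' U2 U2' hU hUK hUh
  have hN1 : 1 ≤ N := (le_max_left _ _).trans hN
  have hN2 : 4 * K / (I1 * ε1 ^ 2) ≤ N := ((le_max_left _ _).trans (le_max_right _ _)).trans hN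
  have hN3 : 4 * K / (I2 * ε1 ^ 2) ≤ N := ((le_max_right _ _).trans (le_max_right _ _)).trans hN
  have hN0 : 0 < N := by linarith
  have hk1 := hU.k1
  have hk2 := hU.k2
  have hc1 := hU.c1
  have hc2 := hU.c2
  have hPc : ContinuousOn (fun x => N - fA (N + e) ε' sr si (κ x) (h x)) (Icc 0 L) := by
    unfold fA
    have h1 := hp.κc
    have h2 := hp.hc
    fun_prop
  -- the energy
  have hen := energy hL hU hPc hρ.continuousOn hχ
  have hJ : ∫ x in (0 : ℝ)..L, χ x * ((U1' x) ^ 2 + (U2' x) ^ 2) ≤ C4 := by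
    rw [hen]
    have hbd : ∀ x ∈ Icc (0 : ℝ) L, 1 / 2 * iteratedDeriv 2 χ x * ((U1 x) ^ 2 + (U2 x) ^ 2) -
        χ x * (N - fA (N + e) ε' sr si (κ x) (h x)) * ((U1 x) ^ 2 + (U2 x) ^ 2) +
        χ x * ρ x * U1 x ≤ (1 / 2 * M2 + e + 1 / 2) * ((U1 x) ^ 2 + (U2 x) ^ 2) +
        ((N + e) * C1) * (h x * ((U1 x) ^ 2 + (U2 x) ^ 2)) + 1 / 2 * (ρ x) ^ 2 := by
      intro x hx
      have hq : 0 ≤ (U1 x) ^ 2 + (U2 x) ^ 2 := by positivity
      have g1 : iteratedDeriv 2 χ x ≤ M2 := (le_abs_self _).trans (hM2 x hx)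
      have g2 : h x ≤ H := (le_abs_self _).trans (hH x hx)
      have g3 := fA_le (E := N + e) (ε := ε') (sr := sr) (si := si) (κ := κ x) (h := h x) (C0 := C0)
        (H := H) (by linarith) hε'.le (hp.h0 x hx) g2 hp.C0p (hp.cmp x hx) hsi (hsih x hx)
      rw [← hC1] at g3
      have hh0 := hp.h0 x hx
      have g4 : χ x * (fA (N + e) ε' sr si (κ x) (h x) - N) ≤ e + (N + e) * C1 * h x := by
        have h5 : 0 ≤ e + (N + e) * C1 * h x := by positivity
        calc χ x * (fA (N + e) ε' sr si (κ x) (h x) - N) ≤ χ x * (e + (N + e) * C1 * h x) :=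
              mul_le_mul_of_nonneg_left (by linarith) (hχ01 x).1
          _ ≤ 1 * (e + (N + e) * C1 * h x) := mul_le_mul_of_nonneg_right (hχ01 x).2 h5
          _ = _ := one_mul _
      have g5 := mul_le_mul_of_nonneg_right g4 hq
      have g6 := mul_le_mul_of_nonneg_right g1 hq
      have g7 : χ x * ρ x * U1 x ≤ 1 / 2 * (ρ x) ^ 2 + 1 / 2 * (U1 x) ^ 2 := by
        have h6 : (χ x) ^ 2 * (ρ x) ^ 2 ≤ 1 * (ρ x) ^ 2 := by
          refine mul_le_mul_of_nonneg_right ?_ (sq_nonneg _)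
          exact pow_le_one₀ (hχ01 x).1 (hχ01 x).2
        nlinarith [sq_nonneg (χ x * ρ x - U1 x)]
      have g8 : (U1 x) ^ 2 ≤ (U1 x) ^ 2 + (U2 x) ^ 2 := by nlinarith [sq_nonneg (U2 x)]
      nlinarith
    have hint : ∫ x in (0 : ℝ)..L, (1 / 2 * iteratedDeriv 2 χ x * ((U1 x) ^ 2 + (U2 x) ^ 2) -
        χ x * (N - fA (N + e) ε' sr si (κ x) (h x)) * ((U1 x) ^ 2 + (U2 x) ^ 2) +
        χ x * ρ x * U1 x) ≤ ∫ x in (0 : ℝ)..L, ((1 / 2 * M2 + e + 1 / 2) * ((U1 x) ^ 2 + (U2 x) ^ 2) +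
        ((N + e) * C1) * (h x * ((U1 x) ^ 2 + (U2 x) ^ 2)) + 1 / 2 * (ρ x) ^ 2) := by
      refine intervalIntegral.integral_mono_on hL.le ?_ ?_ hbd
      · refine ContinuousOn.intervalIntegrable ?_
        rw [uIcc_of_le hL.le]
        have := hPc
        fun_prop
      · refine ContinuousOn.intervalIntegrable ?_
        rw [uIcc_of_le hL.le]
        have := hp.hc
        fun_prop
    refine hint.trans ?_
    have i1 : IntervalIntegrable (fun x => (1 / 2 * M2 + e + 1 / 2) * ((U1 x) ^ 2 + (U2 x) ^ 2))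
        volume 0 L := (by fun_prop : Continuous fun x =>
          (1 / 2 * M2 + e + 1 / 2) * ((U1 x) ^ 2 + (U2 x) ^ 2)).intervalIntegrable _ _
    have i2 : IntervalIntegrable (fun x => ((N + e) * C1) * (h x * ((U1 x) ^ 2 + (U2 x) ^ 2)))
        volume 0 L := by
      refine ContinuousOn.intervalIntegrable ?_
      rw [uIcc_of_le hL.le]
      have := hp.hc
      fun_prop
    have i3 : IntervalIntegrable (fun x => 1 / 2 * (ρ x) ^ 2) volume 0 L :=
      (by fun_prop : Continuous fun x => 1 / 2 * (ρ x) ^ 2).intervalIntegrable _ _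
    rw [intervalIntegral.integral_add (i1.add i2) i3, intervalIntegral.integral_add i1 i2,
      intervalIntegral.integral_const_mul, intervalIntegral.integral_const_mul,
      intervalIntegral.integral_const_mul]
    have j1 : (1 / 2 * M2 + e + 1 / 2) * ∫ x in (0 : ℝ)..L, ((U1 x) ^ 2 + (U2 x) ^ 2) ≤
        (1 / 2 * M2 + e + 1 / 2) * K := mul_le_mul_of_nonneg_left hUK (by positivity)
    have j2 : ((N + e) * C1) * ∫ x in (0 : ℝ)..L, h x * ((U1 x) ^ 2 + (U2 x) ^ 2) ≤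
        (1 + e) * C1 * K := by
      have j3 : ((N + e) * C1) * ∫ x in (0 : ℝ)..L, h x * ((U1 x) ^ 2 + (U2 x) ^ 2) ≤
          ((N + e) * C1) * (K / N) := mul_le_mul_of_nonneg_left hUh (by positivity)
      refine j3.trans ?_
      have j4 : (N + e) / N ≤ 1 + e := by
        rw [div_le_iff₀ hN0]
        nlinarith
      calc ((N + e) * C1) * (K / N) = ((N + e) / N) * (C1 * K) := by ring
        _ ≤ (1 + e) * (C1 * K) := mul_le_mul_of_nonneg_right j4 (by positivity)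
        _ = _ := by ring
    rw [hC4]
    linarith
  have hDc : Continuous fun x => (U1' x) ^ 2 + (U2' x) ^ 2 := by fun_prop
  have hJ2 : ∀ u v : ℝ, a ≤ u → u ≤ v → v ≤ b → ∫ x in u..v, ((U1' x) ^ 2 + (U2' x) ^ 2) ≤ C4 := by
    intro u v h1 h2 h3
    refine le_trans ?_ hJ
    have h4 : ∫ x in u..v, ((U1' x) ^ 2 + (U2' x) ^ 2) =
        ∫ x in u..v, χ x * ((U1' x) ^ 2 + (U2' x) ^ 2) := by
      refine intervalIntegral.integral_congr fun x hx => ?_
      rw [uIcc_of_le h2] at hx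
      beta_reduce
      rw [hχ1 x ⟨h1.trans hx.1, hx.2.trans h3⟩, one_mul]
    rw [h4]
    refine intervalIntegral.integral_mono_interval (by linarith) h2 (by linarith)
      (Eventually.of_forall fun x => ?_) ((hχc.mul hDc).intervalIntegrable _ _)
    exact mul_nonneg (hχ01 x).1 (by positivity)
  have hh2 : ∀ u v : ℝ, 0 ≤ u → u ≤ v → v ≤ L → ∫ x in u..v, h x * ((U1 x) ^ 2 + (U2 x) ^ 2) ≤ K / N := by
    intro u v h1 h2 h3
    refine le_trans ?_ hUh
    refine intervalIntegral.integral_mono_interval h1 h2 h3 ?_ ?_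
    · filter_upwards [ae_restrict_mem measurableSet_Ioc] with x hx
      exact mul_nonneg (hp.h0 x (Ioc_subset_Icc_self hx)) (by positivity)
    · refine ContinuousOn.intervalIntegrable ?_
      rw [uIcc_of_le hL.le]
      have := hp.hc
      fun_prop
  -- the boundary values
  have hfin : ∀ (y u v I : ℝ), u ≤ v → y ∈ Icc u v → v - u = τ → a ≤ u → v ≤ b → 0 < I →
      I = ∫ x in u..v, h x → 4 * K / (I * ε1 ^ 2) ≤ N → (U1 y) ^ 2 + (U2 y) ^ 2 ≤ ε1 ^ 2 := by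
    intro y u v I huv hy hτ' hau hvb hI hId hNI
    have g0 := bdry hU.d1 hc1 hU.d2 hc2 huv hy (w := h)
      (hp.hc.mono fun x hx => ⟨by linarith [hx.1], by linarith [hx.2]⟩)
      (fun x hx => hp.h0 x ⟨by linarith [hx.1], by linarith [hx.2]⟩) (hJ2 u v hau huv hvb)
      (hh2 u v (by linarith) huv (by linarith))
    rw [← hId, hτ'] at g0
    have g1 : 4 * K ≤ N * (I * ε1 ^ 2) := by
      rwa [div_le_iff₀ (by positivity)] at hNI
    have g2 : 2 * (K / N) ≤ ε1 ^ 2 / 2 * I := by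
      rw [← mul_div_assoc, div_le_iff₀ hN0]
      nlinarith
    have g3 : 2 * τ * C4 * I ≤ ε1 ^ 2 / 2 * I := mul_le_mul_of_nonneg_right hτC hI.le
    have g4 : ((U1 y) ^ 2 + (U2 y) ^ 2) * I ≤ ε1 ^ 2 * I := by linarith
    exact le_of_mul_le_mul_right g4 hI
  have hb1 := hfin x1 (x1 - τ) x1 I1 (by linarith) ⟨by linarith, le_rfl⟩ (by ring) (by linarith)
    (by linarith) hI1 hI1d hN2
  have hb2 := hfin x2 x2 (x2 + τ) I2 (by linarith) ⟨le_rfl, by linarith⟩ (by ring) (by linarith)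
    (by linarith) hI2 hI2d hN3
  have habs : ∀ p q : ℝ, p ^ 2 + q ^ 2 ≤ ε1 ^ 2 → |p| ≤ ε1 ∧ |q| ≤ ε1 := by
    intro p q hpq
    exact ⟨abs_le_of_sq_le_sq (by nlinarith [sq_nonneg q]) hε10.le,
      abs_le_of_sq_le_sq (by nlinarith [sq_nonneg p]) hε10.le⟩
  obtain ⟨b11, b12⟩ := habs _ _ hb1
  obtain ⟨b21, b22⟩ := habs _ _ hb2
  have hS'b : ∀ x ∈ Icc (0 : ℝ) L, |S' x| ≤ MS := fun x hx => hMS x hx
  have hm1 : x1 ∈ Icc (0 : ℝ) L := ⟨x1p.le, by linarith⟩
  have hm2 : x2 ∈ Icc (0 : ℝ) L := ⟨by linarith, x2L.le⟩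
  have hfinal : ∀ p q : ℝ, |p| ≤ ε1 → |q| ≤ ε1 → |S' x2 * p - S' x1 * q| ≤ ε := by
    intro p q hp' hq'
    have g1 : |S' x2 * p| ≤ MS * ε1 := by
      rw [abs_mul]
      exact mul_le_mul (hS'b x2 hm2) hp' (abs_nonneg _) hMS0
    have g2 : |S' x1 * q| ≤ MS * ε1 := by
      rw [abs_mul]
      exact mul_le_mul (hS'b x1 hm1) hq' (abs_nonneg _) hMS0
    have g3 : |S' x2 * p - S' x1 * q| ≤ |S' x2 * p| + |S' x1 * q| := abs_sub _ _
    have g4 : 2 * (MS + 1) * ε1 = ε := by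
      rw [hε1]
      field_simp
    nlinarith
  have hflat : ∀ x ∈ Icc x1 x2, N - fA (N + e) ε' sr si (κ x) (h x) = -e ∧
      fB (N + e) ε' sr si (κ x) (h x) = ε' := by
    intro x hx
    obtain ⟨f1, f2⟩ := hp.fl x hx
    unfold fA fB
    rw [f1, f2]
    simp
  obtain ⟨t1, t2⟩ := sinetest hU x1p x12 x2L hS hS' hS1 hS2 (fun x hx => (hflat x hx).1)
    (fun x hx => (hflat x hx).2) hρ.continuousOn
  constructor
  · rw [t1]
    have e1 : (∫ x in x1..x2, S x * ρ x) - (S' x2 * U1 x2 - S' x1 * U1 x1) -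
        (∫ x in x1..x2, S x * ρ x) = -(S' x2 * U1 x2 - S' x1 * U1 x1) := by ring
    rw [e1, abs_neg]
    exact hfinal _ _ b21 b11
  · rw [t2]
    exact hfinal _ _ b22 b12

end Pool.Agent.H240.SC
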