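import Pool.Agent.H240.SC.Damp
import Pool.Agent.H240.SC.Main1

/-!
# The damped equation depends holomorphically on the parameter
-/

set_option autoImplicit false
set_option linter.unusedSectionVars false

open Set Filter Topology MeasureTheory
open scoped Real ContDiff

noncomputable section

namespace Pool.Agent.H240.SC

open Pool.Agent.Y262.QE Pool.Agent.Y264.QR

section

variable {M : Type} [MetricSpace M] [CompactSpace M] [MeasurableSpace M] [BorelSpace M]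
  {μ : Measure M} [IsFiniteMeasure μ]
  {H : Type} [NormedAddCommGroup H] [InnerProductSpace ℝ H] {i : H →L[ℝ] Lp ℝ 2 μ}
  {a : H →L[ℝ] H →L[ℝ] ℝ} {m : C(M, ℝ) → H →L[ℝ] H →L[ℝ] ℝ}

/-- the complex bilinear form with the weight `c1 + i c2` -/
def mc (m : C(M, ℝ) → H →L[ℝ] H →L[ℝ] ℝ) (c1 c2 : C(M, ℝ)) (u1 u2 v1 v2 : H) : ℂ :=
  ⟨m c1 u1 v1 - m c1 u2 v2 - m c2 u1 v2 - m c2 u2 v1,
    m c1 u1 v2 + m c1 u2 v1 + m c2 u1 v1 - m c2 u2 v2⟩

/-- the value of the functional `χ` at the solution -/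
def gv (m : C(M, ℝ) → H →L[ℝ] H →L[ℝ] ℝ) (χ w1 w2 : H) : ℂ := ⟨m 1 χ w1, m 1 χ w2⟩

theorem gdiff (hS : Sf μ i a) (hm : IsM μ i m) {A B A' B' : C(M, ℝ)} {χ w1 w2 w1' w2' : H}
    (h : Sol m a A B χ w1 w2) (h' : Sol m a A' B' χ w1' w2') :
    gv m χ w1' w2' - gv m χ w1 w2 = mc m (A' - A) (B' - B) w1 w2 w1' w2' := by
  have e1 := h.e1 w1'
  have e2 := h.e2 w2'
  have e3 := h'.e1 w1
  have e4 := h'.e2 w2
  have f1 := h.e1 w2'
  have f2 := h.e2 w1'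
  have f3 := h'.e1 w2
  have f4 := h'.e2 w1
  have s1 := hS.sa w1' w1
  have s2 := hS.sa w2' w2
  have s3 := hS.sa w1' w2
  have s4 := hS.sa w2' w1
  have sA := fun u v => m_symm hm A' u v
  have sB := fun u v => m_symm hm B' u v
  apply Complex.ext
  · simp only [gv, mc, Complex.sub_re, m_sub hm]
    rw [s1, sA w1' w1, sB w2' w1] at e3
    rw [s2, sA w2' w2, sB w1' w2] at e4
    linarith
  · simp only [gv, mc, Complex.sub_im, m_sub hm]
    rw [s3, sA w1' w2, sB w2' w2] at f3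
    rw [s4, sA w2' w1, sB w1' w1] at f4
    linarith

theorem m_le (hm : IsM μ i m) (f : C(M, ℝ)) (u v : H) : |m f u v| ≤ ‖f‖ * (‖i u‖ * ‖i v‖) := by
  have h1 : |m f u v| ≤ ∫ x, ‖f‖ * (|i u x| * |i v x|) ∂μ := by
    rw [hm]
    refine (abs_integral_le_integral_abs).trans ?_
    have i1 : Integrable (fun x => |i u x| * |i v x|) μ := by
      have := (Lp.memLp (i u)).abs.integrable_mul (Lp.memLp (i v)).abs
      exact this
    refine integral_mono (int_mul f _ _).abs (i1.const_mul _) fun x => ?_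
    beta_reduce
    rw [abs_mul, abs_mul]
    have := f.norm_coe_le_norm x
    rw [Real.norm_eq_abs] at this
    exact mul_le_mul_of_nonneg_right this (by positivity)
  refine h1.trans ?_
  rw [integral_const_mul]
  refine mul_le_mul_of_nonneg_left ?_ (norm_nonneg _)
  have h2 : ∫ x, |i u x| * |i v x| ∂μ = inner ℝ ((Lp.memLp (i u)).abs.toLp _)
      ((Lp.memLp (i v)).abs.toLp _) := by
    rw [L2.inner_def]
    refine integral_congr_ae ?_
    filter_upwards [(Lp.memLp (i u)).abs.coeFn_toLp, (Lp.memLp (i v)).abs.coeFn_toLp] with x h1 h2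
    simp only [RCLike.inner_apply, conj_trivial]
    rw [h1, h2, mul_comm]
    rfl
  rw [h2]
  refine (real_inner_le_norm _ _).trans (le_of_eq ?_)
  congr 1
  · rw [Lp.norm_toLp, Lp.norm_def]
    congr 1
    exact eLpNorm_congr_norm_ae (Eventually.of_forall fun x => by simp)
  · rw [Lp.norm_toLp, Lp.norm_def]
    congr 1
    exact eLpNorm_congr_norm_ae (Eventually.of_forall fun x => by simp)

theorem mc_le (hm : IsM μ i m) (c1 c2 : C(M, ℝ)) (u1 u2 v1 v2 : H) :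
    ‖mc m c1 c2 u1 u2 v1 v2‖ ≤ 2 * (‖c1‖ + ‖c2‖) * ((‖i u1‖ + ‖i u2‖) * (‖i v1‖ + ‖i v2‖)) := by
  have h : ‖mc m c1 c2 u1 u2 v1 v2‖ ≤ |(mc m c1 c2 u1 u2 v1 v2).re| + |(mc m c1 c2 u1 u2 v1 v2).im| :=
    Complex.norm_le_abs_re_add_abs_im _
  refine h.trans ?_
  have b := fun (f : C(M, ℝ)) (u v : H) => m_le hm f u v
  have r1 : |(mc m c1 c2 u1 u2 v1 v2).re| ≤ |m c1 u1 v1| + |m c1 u2 v2| + |m c2 u1 v2| +
      |m c2 u2 v1| := by
    show |m c1 u1 v1 - m c1 u2 v2 - m c2 u1 v2 - m c2 u2 v1| ≤ _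
    have q1 := abs_sub (m c1 u1 v1 - m c1 u2 v2 - m c2 u1 v2) (m c2 u2 v1)
    have q2 := abs_sub (m c1 u1 v1 - m c1 u2 v2) (m c2 u1 v2)
    have q3 := abs_sub (m c1 u1 v1) (m c1 u2 v2)
    linarith
  have r2 : |(mc m c1 c2 u1 u2 v1 v2).im| ≤ |m c1 u1 v2| + |m c1 u2 v1| + |m c2 u1 v1| +
      |m c2 u2 v2| := by
    show |m c1 u1 v2 + m c1 u2 v1 + m c2 u1 v1 - m c2 u2 v2| ≤ _
    have q1 := abs_sub (m c1 u1 v2 + m c1 u2 v1 + m c2 u1 v1) (m c2 u2 v2)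
    have q2 := abs_add_le (m c1 u1 v2 + m c1 u2 v1) (m c2 u1 v1)
    have q3 := abs_add_le (m c1 u1 v2) (m c1 u2 v1)
    linarith
  have b1 := b c1 u1 v1
  have b2 := b c1 u2 v2
  have b3 := b c2 u1 v2
  have b4 := b c2 u2 v1
  have b5 := b c1 u1 v2
  have b6 := b c1 u2 v1
  have b7 := b c2 u1 v1
  have b8 := b c2 u2 v2
  have n1 := norm_nonneg c1
  have n2 := norm_nonneg c2
  have n3 : 0 ≤ ‖i u1‖ * ‖i v1‖ := by positivity
  have n4 : 0 ≤ ‖i u1‖ * ‖i v2‖ := by positivity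
  have n5 : 0 ≤ ‖i u2‖ * ‖i v1‖ := by positivity
  have n6 : 0 ≤ ‖i u2‖ * ‖i v2‖ := by positivity
  nlinarith [mul_nonneg n1 n3, mul_nonneg n1 n4, mul_nonneg n1 n5, mul_nonneg n1 n6,
    mul_nonneg n2 n3, mul_nonneg n2 n4, mul_nonneg n2 n5, mul_nonneg n2 n6]

/-- a bound for the solution -/
theorem sol_norm (hS : Sf μ i a) (hm : IsM μ i m) {A B : C(M, ℝ)} {χ w1 w2 : H}
    (h : Sol m a A B χ w1 w2) {β : ℝ} (hβ : 0 < β) (hB : ∀ x, β ≤ B x) :
    ‖i w1‖ + ‖i w2‖ ≤ 2 / β * ‖i χ‖ := by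
  have h1 := absorb hS hm h
  have hBv : ∀ v : H, β * ‖i v‖ ^ 2 ≤ m B v v := by
    intro v
    rw [← m_one hm, ← m_smul hm]
    refine m_mono hm (fun x => ?_) v
    simp only [ContinuousMap.smul_apply, ContinuousMap.one_apply, smul_eq_mul, mul_one]
    exact hB x
  have h2 := hBv w1
  have h3 := hBv w2
  have h4 := m_le hm 1 χ w2
  have h5 : ‖(1 : C(M, ℝ))‖ ≤ 1 := by
    rw [ContinuousMap.norm_le _ zero_le_one]
    intro x
    simp
  have h6 : |m 1 χ w2| ≤ ‖i χ‖ * ‖i w2‖ := by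
    refine h4.trans ?_
    have : 0 ≤ ‖i χ‖ * ‖i w2‖ := by positivity
    nlinarith
  have h7 : m 1 χ w2 ≤ ‖i χ‖ * ‖i w2‖ := (le_abs_self _).trans h6
  set X := ‖i w1‖ with hX
  set Y := ‖i w2‖ with hY
  have hX0 : 0 ≤ X := norm_nonneg _
  have hY0 : 0 ≤ Y := norm_nonneg _
  have hc0 : 0 ≤ ‖i χ‖ := norm_nonneg _
  have h8 : β * (X ^ 2 + Y ^ 2) ≤ ‖i χ‖ * Y := by nlinarith
  have h9 : β * (X + Y) ^ 2 ≤ 2 * ‖i χ‖ * (X + Y) := by
    have g1 : (X + Y) ^ 2 ≤ 2 * (X ^ 2 + Y ^ 2) := by nlinarith [sq_nonneg (X - Y)]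
    have g2 : β * (X + Y) ^ 2 ≤ β * (2 * (X ^ 2 + Y ^ 2)) := mul_le_mul_of_nonneg_left g1 hβ.le
    nlinarith [mul_nonneg hc0 hX0]
  rw [div_mul_eq_mul_div, le_div_iff₀ hβ]
  rcases eq_or_lt_of_le (add_nonneg hX0 hY0) with hz | hz
  · rw [← hz, zero_mul]
    positivity
  · have h10 : ((X + Y) * β) * (X + Y) ≤ (2 * ‖i χ‖) * (X + Y) := by linarith
    exact le_of_mul_le_mul_right h10 hz

/-- the solution is a Lipschitz function of the weights -/
theorem sol_lip (hS : Sf μ i a) (hm : IsM μ i m) {A B A' B' : C(M, ℝ)} {χ w1 w2 w1' w2' : H}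
    (h : Sol m a A B χ w1 w2) (h' : Sol m a A' B' χ w1' w2') {β : ℝ} (hβ : 0 < β)
    (hB' : ∀ x, β ≤ B' x) :
    ‖i (w1' - w1)‖ + ‖i (w2' - w2)‖ ≤
      2 / β * ((‖A' - A‖ + ‖B' - B‖) * (‖i w1‖ + ‖i w2‖)) := by
  set d1 := w1' - w1 with hd1
  set d2 := w2' - w2 with hd2
  have key : m B' d1 d1 + m B' d2 d2 = m (A' - A) w1 d2 - m (B' - B) w2 d2 - m (A' - A) w2 d1 -
      m (B' - B) w1 d1 := by
    have e1 := h.e1 d2
    have e2 := h.e2 d1
    have e3 := h'.e1 d2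
    have e4 := h'.e2 d1
    have r1 : w1' = w1 + d1 := by rw [hd1]; abel
    have r2 : w2' = w2 + d2 := by rw [hd2]; abel
    rw [r1, r2] at e3 e4
    simp only [map_add, add_apply] at e3 e4
    have s1 := hS.sa d1 d2
    have s2 := m_symm hm A' d1 d2
    rw [s1, s2] at e3
    simp only [m_sub hm]
    linarith
  have hBv : ∀ v : H, β * ‖i v‖ ^ 2 ≤ m B' v v := by
    intro v
    rw [← m_one hm, ← m_smul hm]
    refine m_mono hm (fun x => ?_) v
    simp only [ContinuousMap.smul_apply, ContinuousMap.one_apply, smul_eq_mul, mul_one]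
    exact hB' x
  have b1 := (abs_le.1 (m_le hm (A' - A) w1 d2)).2
  have b2 := (abs_le.1 (m_le hm (B' - B) w2 d2)).1
  have b3 := (abs_le.1 (m_le hm (A' - A) w2 d1)).1
  have b4 := (abs_le.1 (m_le hm (B' - B) w1 d1)).1
  have c1 := hBv d1
  have c2 := hBv d2
  set X := ‖i d1‖ with hX
  set Y := ‖i d2‖ with hY
  set x := ‖i w1‖ with hx
  set y := ‖i w2‖ with hy
  set p := ‖A' - A‖ with hp
  set q := ‖B' - B‖ with hq
  have hX0 : 0 ≤ X := norm_nonneg _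
  have hY0 : 0 ≤ Y := norm_nonneg _
  have hx0 : 0 ≤ x := norm_nonneg _
  have hy0 : 0 ≤ y := norm_nonneg _
  have hp0 : 0 ≤ p := norm_nonneg _
  have hq0 : 0 ≤ q := norm_nonneg _
  have h8 : β * (X ^ 2 + Y ^ 2) ≤ ((p + q) * (x + y)) * (X + Y) := by
    have g1 : β * (X ^ 2 + Y ^ 2) ≤ p * (x * Y) + q * (y * Y) + p * (y * X) + q * (x * X) := by
      nlinarith
    refine g1.trans ?_
    have t1 : 0 ≤ p * (x * X) := by positivity
    have t2 : 0 ≤ p * (y * Y) := by positivity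
    have t3 : 0 ≤ q * (y * X) := by positivity
    have t4 : 0 ≤ q * (x * Y) := by positivity
    nlinarith
  have h9 : β * (X + Y) ^ 2 ≤ 2 * ((p + q) * (x + y)) * (X + Y) := by
    have g1 : (X + Y) ^ 2 ≤ 2 * (X ^ 2 + Y ^ 2) := by nlinarith [sq_nonneg (X - Y)]
    have g2 : β * (X + Y) ^ 2 ≤ β * (2 * (X ^ 2 + Y ^ 2)) := mul_le_mul_of_nonneg_left g1 hβ.le
    nlinarith
  rw [div_mul_eq_mul_div, le_div_iff₀ hβ]
  rcases eq_or_lt_of_le (add_nonneg hX0 hY0) with hz | hz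
  · rw [← hz, zero_mul]
    positivity
  · have h10 : ((X + Y) * β) * (X + Y) ≤ (2 * ((p + q) * (x + y))) * (X + Y) := by linarith
    exact le_of_mul_le_mul_right h10 hz

end

end Pool.Agent.H240.SC
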