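import Pool.Agent.H240.SC.Hol

/-!
# The damped equation depends holomorphically on the parameter, part two
-/

set_option autoImplicit false
set_option linter.unusedSectionVars false

open Set Filter Topology MeasureTheory
open scoped Real ContDiff

noncomputable section

namespace Pool.Agent.H240.SC

open Pool.Agent.Y262.QE Pool.Agent.Y264.QR

section

variable {M : Type} [MetricSpace M] [CompactSpace M] [MeasurableSpace M] [BorelSpace M]
  {μ : Measure M} [IsFiniteMeasure μ]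
  {H : Type} [NormedAddCommGroup H] [InnerProductSpace ℝ H] {i : H →L[ℝ] Lp ℝ 2 μ}
  {a : H →L[ℝ] H →L[ℝ] ℝ} {m : C(M, ℝ) → H →L[ℝ] H →L[ℝ] ℝ}

/-- the complex weight `(E + iε) exp (κ + s h)` -/
def cW (E ε : ℝ) (κ h : C(M, ℝ)) (s : ℂ) (x : M) : ℂ := ⟨E, ε⟩ * Complex.exp (κ x + s * h x)

theorem cW_re (E ε : ℝ) (κ h : C(M, ℝ)) (s : ℂ) (x : M) :
    (cW E ε κ h s x).re = fA E ε s.re s.im (κ x) (h x) ∧
      (cW E ε κ h s x).im = fB E ε s.re s.im (κ x) (h x) := by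
  unfold cW fA fB
  have e1 : ((κ x : ℂ) + s * h x).re = κ x + s.re * h x := by simp
  have e2 : ((κ x : ℂ) + s * h x).im = s.im * h x := by simp
  rw [Complex.mul_re, Complex.mul_im, Complex.exp_re, Complex.exp_im, e1, e2]
  exact ⟨rfl, rfl⟩

/-- the real part of the weight -/
def cA (E ε : ℝ) (κ h : C(M, ℝ)) (s : ℂ) : C(M, ℝ) :=
  ⟨fun x => fA E ε s.re s.im (κ x) (h x), by
    unfold fA
    have := κ.continuous
    have := h.continuous
    fun_prop⟩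

/-- the imaginary part of the weight -/
def cB (E ε : ℝ) (κ h : C(M, ℝ)) (s : ℂ) : C(M, ℝ) :=
  ⟨fun x => fB E ε s.re s.im (κ x) (h x), by
    unfold fB
    have := κ.continuous
    have := h.continuous
    fun_prop⟩

/-- a bound for the weight -/
def kW (E ε : ℝ) (κ h : C(M, ℝ)) (R : ℝ) : ℝ := ‖(⟨E, ε⟩ : ℂ)‖ * Real.exp (‖κ‖ + R * ‖h‖)

theorem cW_le {E ε : ℝ} {κ h : C(M, ℝ)} {R : ℝ} {s : ℂ} (hs : |s.re| ≤ R) (x : M) :
    ‖cW E ε κ h s x‖ ≤ kW E ε κ h R := by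
  unfold cW kW
  rw [norm_mul, Complex.norm_exp]
  refine mul_le_mul_of_nonneg_left (Real.exp_le_exp.2 ?_) (norm_nonneg _)
  have e1 : ((κ x : ℂ) + s * h x).re = κ x + s.re * h x := by simp
  rw [e1]
  have h1 := κ.norm_coe_le_norm x
  have h2 := h.norm_coe_le_norm x
  rw [Real.norm_eq_abs] at h1 h2
  have h3 : s.re * h x ≤ R * ‖h‖ := by
    calc s.re * h x ≤ |s.re * h x| := le_abs_self _
      _ = |s.re| * |h x| := abs_mul _ _
      _ ≤ R * ‖h‖ := mul_le_mul hs h2 (abs_nonneg _) ((abs_nonneg _).trans hs)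
  linarith [(abs_le.1 h1).2]

/-- second order expansion of the weight -/
theorem cW_exp {E ε : ℝ} {κ h : C(M, ℝ)} {R : ℝ} {s s' : ℂ} (hs : |s.re| ≤ R)
    (hss : ‖s' - s‖ * ‖h‖ ≤ 1) (x : M) :
    ‖cW E ε κ h s' x - cW E ε κ h s x - (s' - s) * (h x * cW E ε κ h s x)‖ ≤
      kW E ε κ h R * ‖h‖ ^ 2 * ‖s' - s‖ ^ 2 := by
  set w : ℂ := (s' - s) * h x with hw
  have hwn : ‖w‖ ≤ ‖s' - s‖ * ‖h‖ := by
    rw [hw, norm_mul]
    refine mul_le_mul_of_nonneg_left ?_ (norm_nonneg _)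
    have := h.norm_coe_le_norm x
    rwa [Complex.norm_real]
  have e1 : cW E ε κ h s' x = cW E ε κ h s x * Complex.exp w := by
    unfold cW
    rw [mul_assoc, ← Complex.exp_add]
    congr 2
    rw [hw]
    ring
  have e2 : cW E ε κ h s' x - cW E ε κ h s x - (s' - s) * (h x * cW E ε κ h s x) =
      cW E ε κ h s x * (Complex.exp w - 1 - w) := by
    rw [e1, hw]
    ring
  rw [e2, norm_mul]
  have h1 := Complex.norm_exp_sub_one_sub_id_le (hwn.trans hss)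
  have h2 := cW_le (E := E) (ε := ε) (κ := κ) (h := h) hs x
  calc _ ≤ kW E ε κ h R * ‖w‖ ^ 2 := mul_le_mul h2 h1 (norm_nonneg _) ((norm_nonneg _).trans h2)
    _ ≤ kW E ε κ h R * (‖s' - s‖ * ‖h‖) ^ 2 :=
        mul_le_mul_of_nonneg_left (pow_le_pow_left₀ (norm_nonneg _) hwn 2) ((norm_nonneg _).trans h2)
    _ = _ := by ring

/-- the weights are Lipschitz continuous -/
theorem cW_lip {E ε : ℝ} {κ h : C(M, ℝ)} {R : ℝ} {s s' : ℂ} (hs : |s.re| ≤ R)
    (hss : ‖s' - s‖ * ‖h‖ ≤ 1) (x : M) :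
    ‖cW E ε κ h s' x - cW E ε κ h s x‖ ≤ 2 * kW E ε κ h R * ‖h‖ * ‖s' - s‖ := by
  have h1 := cW_exp (E := E) (ε := ε) (κ := κ) hs hss x
  have h2 := cW_le (E := E) (ε := ε) (κ := κ) (h := h) hs x
  have hk : 0 ≤ kW E ε κ h R := (norm_nonneg _).trans h2
  have h3 : ‖(s' - s) * (h x * cW E ε κ h s x)‖ ≤ ‖s' - s‖ * (‖h‖ * kW E ε κ h R) := by
    rw [norm_mul, norm_mul]
    refine mul_le_mul_of_nonneg_left ?_ (norm_nonneg _)
    refine mul_le_mul ?_ h2 (norm_nonneg _) (norm_nonneg _)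
    rw [Complex.norm_real]
    exact h.norm_coe_le_norm x
  have h4 : ‖cW E ε κ h s' x - cW E ε κ h s x‖ ≤
      ‖cW E ε κ h s' x - cW E ε κ h s x - (s' - s) * (h x * cW E ε κ h s x)‖ +
      ‖(s' - s) * (h x * cW E ε κ h s x)‖ := by
    have := norm_add_le (cW E ε κ h s' x - cW E ε κ h s x - (s' - s) * (h x * cW E ε κ h s x))
      ((s' - s) * (h x * cW E ε κ h s x))
    rwa [sub_add_cancel] at this
  have h5 : kW E ε κ h R * ‖h‖ ^ 2 * ‖s' - s‖ ^ 2 ≤ kW E ε κ h R * ‖h‖ * ‖s' - s‖ := by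
    have : kW E ε κ h R * ‖h‖ ^ 2 * ‖s' - s‖ ^ 2 =
        (kW E ε κ h R * ‖h‖ * ‖s' - s‖) * (‖s' - s‖ * ‖h‖) := by ring
    rw [this]
    exact mul_le_of_le_one_right (by positivity) hss
  linarith

theorem norm_of_re {f : C(M, ℝ)} {F : M → ℂ} {C : ℝ} (hC : 0 ≤ C)
    (hf : ∀ x, f x = (F x).re ∨ f x = (F x).im) (hF : ∀ x, ‖F x‖ ≤ C) : ‖f‖ ≤ C := by
  rw [ContinuousMap.norm_le _ hC]
  intro x
  rw [Real.norm_eq_abs]
  rcases hf x with h | h
  · rw [h]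
    exact (Complex.abs_re_le_norm _).trans (hF x)
  · rw [h]
    exact (Complex.abs_im_le_norm _).trans (hF x)

/-- the region of the parameters -/
def Reg (h : C(M, ℝ)) (R : ℝ) : Set ℂ := {s | |s.re| ≤ R ∧ 0 ≤ s.im ∧ s.im * ‖h‖ ≤ 1}

/-- a lower bound for the imaginary part of the weight -/
def bW (ε : ℝ) (κ h : C(M, ℝ)) (R : ℝ) : ℝ := ε / 2 * Real.exp (-(‖κ‖ + R * ‖h‖))

theorem cB_ge {E ε : ℝ} {κ h : C(M, ℝ)} {R : ℝ} {s : ℂ} (hE : 0 ≤ E) (hε : 0 ≤ ε)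
    (h0 : ∀ x, 0 ≤ h x) (hs : s ∈ Reg h R) (x : M) :
    bW ε κ h R + E * (s.im * h x / 2 * Real.exp (-(‖κ‖ + R * ‖h‖))) ≤ cB E ε κ h s x := by
  obtain ⟨h1, h2, h3⟩ := hs
  have hhx : h x ≤ ‖h‖ := (le_abs_self _).trans (h.norm_coe_le_norm x)
  have hy0 : 0 ≤ s.im * h x := mul_nonneg h2 (h0 x)
  have hy1 : s.im * h x ≤ 1 := (mul_le_mul_of_nonneg_left hhx h2).trans h3
  set y := s.im * h x with hy
  have hcos : 1 / 2 ≤ Real.cos y := by
    have := Real.one_sub_sq_div_two_le_cos (x := y)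
    nlinarith
  have hsin : y / 2 ≤ Real.sin y := by
    rcases eq_or_lt_of_le hy0 with h4 | h4
    · rw [← h4]
      simp
    · have := Real.sin_gt_sub_cube h4
      have h5 : y ^ 3 ≤ y := by nlinarith [mul_nonneg hy0 hy0, mul_nonneg (mul_nonneg hy0 hy0) hy0]
      linarith
  have hexp : Real.exp (-(‖κ‖ + R * ‖h‖)) ≤ Real.exp (κ x + s.re * h x) := by
    refine Real.exp_le_exp.2 ?_
    have g1 := κ.norm_coe_le_norm x
    have g2 := h.norm_coe_le_norm x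
    rw [Real.norm_eq_abs] at g1 g2
    have g3 : -(R * ‖h‖) ≤ s.re * h x := by
      have : |s.re * h x| ≤ R * ‖h‖ := by
        rw [abs_mul]
        exact mul_le_mul h1 g2 (abs_nonneg _) ((abs_nonneg _).trans h1)
      exact (abs_le.1 this).1
    linarith [(abs_le.1 g1).1]
  have hpos : 0 < Real.exp (-(‖κ‖ + R * ‖h‖)) := Real.exp_pos _
  show _ ≤ fB E ε s.re s.im (κ x) (h x)
  unfold fB bW
  set X := Real.exp (κ x + s.re * h x) with hX
  set Y := Real.exp (-(‖κ‖ + R * ‖h‖)) with hY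
  have t1 : Y * (y / 2) ≤ X * Real.sin y := mul_le_mul hexp hsin (by positivity) (hpos.le.trans hexp)
  have t2 : Y * (1 / 2) ≤ X * Real.cos y := mul_le_mul hexp hcos (by positivity) (hpos.le.trans hexp)
  have t3 := mul_le_mul_of_nonneg_left t1 hE
  have t4 := mul_le_mul_of_nonneg_left t2 hε
  linarith

theorem cB_ge' {E ε : ℝ} {κ h : C(M, ℝ)} {R : ℝ} {s : ℂ} (hE : 0 ≤ E) (hε : 0 ≤ ε)
    (h0 : ∀ x, 0 ≤ h x) (hs : s ∈ Reg h R) (x : M) : bW ε κ h R ≤ cB E ε κ h s x := by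
  have h1 := cB_ge (κ := κ) hE hε h0 hs x
  have h2 : 0 ≤ E * (s.im * h x / 2 * Real.exp (-(‖κ‖ + R * ‖h‖))) := by
    have := mul_nonneg hs.2.1 (h0 x)
    positivity
  linarith

theorem mc_lin (hm : IsM μ i m) (l : ℂ) (c1 c2 r1 r2 d1 d2 : C(M, ℝ)) (u1 u2 v1 v2 : H)
    (h1 : ∀ x, c1 x = (l * (⟨d1 x, d2 x⟩ : ℂ)).re + r1 x)
    (h2 : ∀ x, c2 x = (l * (⟨d1 x, d2 x⟩ : ℂ)).im + r2 x) :
    mc m c1 c2 u1 u2 v1 v2 = l * mc m d1 d2 u1 u2 v1 v2 + mc m r1 r2 u1 u2 v1 v2 := by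
  have e1 : c1 = l.re • d1 - l.im • d2 + r1 := by
    ext x
    rw [h1]
    simp [Complex.mul_re]
  have e2 : c2 = l.re • d2 + l.im • d1 + r2 := by
    ext x
    rw [h2]
    simp [Complex.mul_im]
  rw [e1, e2]
  apply Complex.ext
  · simp only [mc, Complex.add_re, Complex.mul_re, m_add hm, m_sub hm, m_smul hm]
    ring
  · simp only [mc, Complex.add_im, Complex.mul_im, m_add hm, m_sub hm, m_smul hm]
    ring

/-- the value is a Lipschitz function of the parameter, locally -/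
theorem gv_lip (hS : Sf μ i a) (hm : IsM μ i m) {E ε : ℝ} (hE : 0 ≤ E) (hε : 0 < ε)
    {κ h : C(M, ℝ)} (h0 : ∀ x, 0 ≤ h x) {R : ℝ} {χ : H} {w1 w2 : ℂ → H}
    (hw : ∀ s ∈ Reg h R, Sol m a (cA E ε κ h s) (cB E ε κ h s) χ (w1 s) (w2 s)) :
    ∃ C : ℝ, 0 ≤ C ∧ ∀ s ∈ Reg h R, ∀ s' ∈ Reg h R, ‖s' - s‖ * ‖h‖ ≤ 1 →
      ‖gv m χ (w1 s') (w2 s') - gv m χ (w1 s) (w2 s)‖ ≤ C * ‖s' - s‖ ∧
      ‖i (w1 s' - w1 s)‖ + ‖i (w2 s' - w2 s)‖ ≤ C * ‖s' - s‖ ∧
      ‖i (w1 s)‖ + ‖i (w2 s)‖ ≤ C := by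
  have hβ : 0 < bW ε κ h R := by
    unfold bW
    positivity
  set β := bW ε κ h R with hβd
  set kk := |kW E ε κ h R| with hkk
  set X := 2 / β * ‖i χ‖ with hX
  set P := 2 * kk * ‖h‖ with hP
  have hX0 : 0 ≤ X := by positivity
  have hP0 : 0 ≤ P := by positivity
  refine ⟨2 * (P + P) * (X * X) + 2 / β * ((P + P) * X) + X, by positivity, fun s hs s' hs' hss => ?_⟩
  have g1 := fun t (ht : t ∈ Reg h R) => sol_norm hS hm (hw t ht) hβ
    (fun x => cB_ge' (κ := κ) hE hε.le h0 ht x)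
  have hk : kW E ε κ h R ≤ kk := le_abs_self _
  have g2 : ∀ x, ‖cW E ε κ h s' x - cW E ε κ h s x‖ ≤ P * ‖s' - s‖ := by
    intro x
    refine (cW_lip (E := E) (ε := ε) (κ := κ) hs.1 hss x).trans ?_
    rw [hP]
    have : 0 ≤ ‖h‖ * ‖s' - s‖ := by positivity
    nlinarith
  have g3 : ‖cA E ε κ h s' - cA E ε κ h s‖ ≤ P * ‖s' - s‖ := by
    refine norm_of_re (by positivity) (fun x => Or.inl ?_) g2
    rw [Complex.sub_re, (cW_re E ε κ h s' x).1, (cW_re E ε κ h s x).1]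
    rfl
  have g4 : ‖cB E ε κ h s' - cB E ε κ h s‖ ≤ P * ‖s' - s‖ := by
    refine norm_of_re (by positivity) (fun x => Or.inr ?_) g2
    rw [Complex.sub_im, (cW_re E ε κ h s' x).2, (cW_re E ε κ h s x).2]
    rfl
  have hns : 0 ≤ ‖s' - s‖ := norm_nonneg _
  have w0 : 0 ≤ ‖i (w1 s)‖ + ‖i (w2 s)‖ := by positivity
  have w0' : 0 ≤ ‖i (w1 s')‖ + ‖i (w2 s')‖ := by positivity
  have wb := g1 s hs
  have wb' := g1 s' hs'
  rw [← hX] at wb wb'
  refine ⟨?_, ?_, ?_⟩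
  · rw [gdiff hS hm (hw s hs) (hw s' hs')]
    refine (mc_le hm _ _ _ _ _ _).trans ?_
    have t1 : ‖cA E ε κ h s' - cA E ε κ h s‖ + ‖cB E ε κ h s' - cB E ε κ h s‖ ≤
        (P + P) * ‖s' - s‖ := by linarith
    have t2 : (‖i (w1 s)‖ + ‖i (w2 s)‖) * (‖i (w1 s')‖ + ‖i (w2 s')‖) ≤ X * X :=
      mul_le_mul wb wb' w0' hX0
    have t3 : 2 * (‖cA E ε κ h s' - cA E ε κ h s‖ + ‖cB E ε κ h s' - cB E ε κ h s‖) *
        ((‖i (w1 s)‖ + ‖i (w2 s)‖) * (‖i (w1 s')‖ + ‖i (w2 s')‖)) ≤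
        2 * ((P + P) * ‖s' - s‖) * (X * X) :=
      mul_le_mul (by linarith) t2 (mul_nonneg w0 w0') (by positivity)
    refine t3.trans ?_
    have t4 : 0 ≤ (2 / β * ((P + P) * X) + X) * ‖s' - s‖ := by positivity
    nlinarith
  · refine (sol_lip hS hm (hw s hs) (hw s' hs') hβ
      (fun x => cB_ge' (κ := κ) hE hε.le h0 hs' x)).trans ?_
    have t1 : ‖cA E ε κ h s' - cA E ε κ h s‖ + ‖cB E ε κ h s' - cB E ε κ h s‖ ≤
        (P + P) * ‖s' - s‖ := by linarith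
    have t2 : (‖cA E ε κ h s' - cA E ε κ h s‖ + ‖cB E ε κ h s' - cB E ε κ h s‖) *
        (‖i (w1 s)‖ + ‖i (w2 s)‖) ≤ ((P + P) * ‖s' - s‖) * X := mul_le_mul t1 wb w0 (by positivity)
    have t3 := mul_le_mul_of_nonneg_left t2 (by positivity : 0 ≤ 2 / β)
    refine t3.trans ?_
    have t4 : 0 ≤ (2 * (P + P) * (X * X) + X) * ‖s' - s‖ := by positivity
    nlinarith
  · refine wb.trans ?_
    have : 0 ≤ 2 * (P + P) * (X * X) + 2 / β * ((P + P) * X) := by positivity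
    linarith

/-- the value is holomorphic in the interior of the region -/
theorem gv_hol (hS : Sf μ i a) (hm : IsM μ i m) {E ε : ℝ} (hE : 0 ≤ E) (hε : 0 < ε)
    {κ h : C(M, ℝ)} (h0 : ∀ x, 0 ≤ h x) {R : ℝ} {χ : H} {w1 w2 : ℂ → H}
    (hw : ∀ s ∈ Reg h R, Sol m a (cA E ε κ h s) (cB E ε κ h s) χ (w1 s) (w2 s)) :
    ContinuousOn (fun s => gv m χ (w1 s) (w2 s)) (Reg h R) ∧
      ∀ s, Reg h R ∈ 𝓝 s → DifferentiableAt ℂ (fun s => gv m χ (w1 s) (w2 s)) s := by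
  obtain ⟨C, hC, hlip⟩ := gv_lip hS hm hE hε h0 hw
  have hnear : ∀ s : ℂ, ∀ᶠ s' in 𝓝 s, ‖s' - s‖ * ‖h‖ ≤ 1 := by
    intro s
    have h1 : ContinuousAt (fun s' : ℂ => ‖s' - s‖ * ‖h‖) s := by fun_prop
    have h2 : (fun s' : ℂ => ‖s' - s‖ * ‖h‖) s < 1 := by simp
    exact (h1.eventually_lt continuousAt_const h2).mono fun s' hs' => hs'.le
  constructor
  · intro s hs
    rw [ContinuousWithinAt, tendsto_iff_norm_sub_tendsto_zero]
    refine squeeze_zero' (g := fun s' => C * ‖s' - s‖) (Eventually.of_forall fun _ => norm_nonneg _) ?_ ?_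
    · filter_upwards [self_mem_nhdsWithin, mem_nhdsWithin_of_mem_nhds (hnear s)] with s' h1 h2
      exact (hlip s hs s' h1 h2).1
    · have h1 : ContinuousAt (fun s' : ℂ => C * ‖s' - s‖) s := by fun_prop
      have h2 : Tendsto (fun s' : ℂ => C * ‖s' - s‖) (𝓝 s) (𝓝 0) := by
        have := h1.tendsto
        simpa using this
      exact h2.mono_left nhdsWithin_le_nhds
  · intro s hs
    have hsR : s ∈ Reg h R := mem_of_mem_nhds hs
    -- the derivative of the weight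
    let D1 : C(M, ℝ) := ⟨fun x => ((h x : ℂ) * cW E ε κ h s x).re, by
      unfold cW
      have := κ.continuous
      have := h.continuous
      fun_prop⟩
    let D2 : C(M, ℝ) := ⟨fun x => ((h x : ℂ) * cW E ε κ h s x).im, by
      unfold cW
      have := κ.continuous
      have := h.continuous
      fun_prop⟩
    set D : ℂ := mc m D1 D2 (w1 s) (w2 s) (w1 s) (w2 s) with hD
    set kk := |kW E ε κ h R| with hkk
    have hbig : (fun s' => gv m χ (w1 s') (w2 s') - gv m χ (w1 s) (w2 s) - (s' - s) * D)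
        =O[𝓝 s] fun s' => ‖s' - s‖ ^ 2 := by
      refine Asymptotics.IsBigO.of_bound
        (2 * (‖D1‖ + ‖D2‖) * (C * C) + 2 * (kk * ‖h‖ ^ 2 + kk * ‖h‖ ^ 2) * (C * C)) ?_
      filter_upwards [hs, hnear s] with s' hs' hn
      obtain ⟨l1, l2, l3⟩ := hlip s hsR s' hs' hn
      have l4 := (hlip s' hs' s' hs' (by simp)).2.2
      -- the remainder of the weight
      let R1 : C(M, ℝ) := ⟨fun x => (cW E ε κ h s' x - cW E ε κ h s x -
        (s' - s) * (h x * cW E ε κ h s x)).re, by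
          unfold cW
          have := κ.continuous
          have := h.continuous
          fun_prop⟩
      let R2 : C(M, ℝ) := ⟨fun x => (cW E ε κ h s' x - cW E ε κ h s x -
        (s' - s) * (h x * cW E ε κ h s x)).im, by
          unfold cW
          have := κ.continuous
          have := h.continuous
          fun_prop⟩
      have rb : ∀ x, ‖cW E ε κ h s' x - cW E ε κ h s x - (s' - s) * (h x * cW E ε κ h s x)‖ ≤
          kk * ‖h‖ ^ 2 * ‖s' - s‖ ^ 2 := by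
        intro x
        refine (cW_exp (E := E) (ε := ε) (κ := κ) hsR.1 hn x).trans ?_
        have : 0 ≤ ‖h‖ ^ 2 * ‖s' - s‖ ^ 2 := by positivity
        have h2 : kW E ε κ h R ≤ kk := le_abs_self _
        nlinarith
      have rn1 : ‖R1‖ ≤ kk * ‖h‖ ^ 2 * ‖s' - s‖ ^ 2 :=
        norm_of_re (by positivity) (fun x => Or.inl rfl) rb
      have rn2 : ‖R2‖ ≤ kk * ‖h‖ ^ 2 * ‖s' - s‖ ^ 2 :=
        norm_of_re (by positivity) (fun x => Or.inr rfl) rb
      have key : gv m χ (w1 s') (w2 s') - gv m χ (w1 s) (w2 s) =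
          (s' - s) * mc m D1 D2 (w1 s) (w2 s) (w1 s') (w2 s') +
          mc m R1 R2 (w1 s) (w2 s) (w1 s') (w2 s') := by
        rw [gdiff hS hm (hw s hsR) (hw s' hs')]
        refine mc_lin hm (s' - s) _ _ _ _ _ _ _ _ _ _ (fun x => ?_) (fun x => ?_)
        · have e1 : (⟨D1 x, D2 x⟩ : ℂ) = h x * cW E ε κ h s x := rfl
          rw [e1]
          show fA E ε s'.re s'.im (κ x) (h x) - fA E ε s.re s.im (κ x) (h x) = _
          rw [← (cW_re E ε κ h s' x).1, ← (cW_re E ε κ h s x).1]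
          show _ = _ + (cW E ε κ h s' x - cW E ε κ h s x - (s' - s) * (h x * cW E ε κ h s x)).re
          rw [Complex.sub_re, Complex.sub_re]
          ring
        · have e1 : (⟨D1 x, D2 x⟩ : ℂ) = h x * cW E ε κ h s x := rfl
          rw [e1]
          show fB E ε s'.re s'.im (κ x) (h x) - fB E ε s.re s.im (κ x) (h x) = _
          rw [← (cW_re E ε κ h s' x).2, ← (cW_re E ε κ h s x).2]
          show _ = _ + (cW E ε κ h s' x - cW E ε κ h s x - (s' - s) * (h x * cW E ε κ h s x)).im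
          rw [Complex.sub_im, Complex.sub_im]
          ring
      have key2 : mc m D1 D2 (w1 s) (w2 s) (w1 s') (w2 s') - D =
          mc m D1 D2 (w1 s) (w2 s) (w1 s' - w1 s) (w2 s' - w2 s) := by
        rw [hD]
        apply Complex.ext
        · simp only [mc, Complex.sub_re, map_sub]
          ring
        · simp only [mc, Complex.sub_im, map_sub]
          ring
      have e3 : gv m χ (w1 s') (w2 s') - gv m χ (w1 s) (w2 s) - (s' - s) * D =
          (s' - s) * mc m D1 D2 (w1 s) (w2 s) (w1 s' - w1 s) (w2 s' - w2 s) +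
          mc m R1 R2 (w1 s) (w2 s) (w1 s') (w2 s') := by
        rw [key, ← key2]
        ring
      rw [e3]
      refine (norm_add_le _ _).trans ?_
      rw [norm_mul]
      have q1 := mc_le hm D1 D2 (w1 s) (w2 s) (w1 s' - w1 s) (w2 s' - w2 s)
      have q2 := mc_le hm R1 R2 (w1 s) (w2 s) (w1 s') (w2 s')
      have hns : 0 ≤ ‖s' - s‖ := norm_nonneg _
      have n1 : 0 ≤ ‖i (w1 s)‖ + ‖i (w2 s)‖ := by positivity
      have n2 : 0 ≤ ‖i (w1 s' - w1 s)‖ + ‖i (w2 s' - w2 s)‖ := by positivity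
      have n3 : 0 ≤ ‖i (w1 s')‖ + ‖i (w2 s')‖ := by positivity
      have p1 : (‖i (w1 s)‖ + ‖i (w2 s)‖) * (‖i (w1 s' - w1 s)‖ + ‖i (w2 s' - w2 s)‖) ≤
          C * (C * ‖s' - s‖) := mul_le_mul l3 l2 n2 hC
      have p2 : (‖i (w1 s)‖ + ‖i (w2 s)‖) * (‖i (w1 s')‖ + ‖i (w2 s')‖) ≤ C * C :=
        mul_le_mul l3 l4 n3 hC
      have q3 : ‖s' - s‖ * ‖mc m D1 D2 (w1 s) (w2 s) (w1 s' - w1 s) (w2 s' - w2 s)‖ ≤
          ‖s' - s‖ * (2 * (‖D1‖ + ‖D2‖) * (C * (C * ‖s' - s‖))) := by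
        refine mul_le_mul_of_nonneg_left (q1.trans ?_) hns
        exact mul_le_mul_of_nonneg_left p1 (by positivity)
      have q4 : ‖mc m R1 R2 (w1 s) (w2 s) (w1 s') (w2 s')‖ ≤
          2 * (kk * ‖h‖ ^ 2 * ‖s' - s‖ ^ 2 + kk * ‖h‖ ^ 2 * ‖s' - s‖ ^ 2) * (C * C) := by
        refine q2.trans ?_
        exact mul_le_mul (by linarith) p2 (mul_nonneg n1 n3) (by positivity)
      rw [Real.norm_eq_abs, abs_of_nonneg (by positivity : (0:ℝ) ≤ ‖s' - s‖ ^ 2)]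
      refine (add_le_add q3 q4).trans (le_of_eq ?_)
      ring
    have hfd := hbig.hasFDerivAt (𝕜 := ℂ) (n := 2) (by norm_num)
    have hd0 : HasDerivAt (fun s' => gv m χ (w1 s') (w2 s') - gv m χ (w1 s) (w2 s) - (s' - s) * D) 0 s := by
      have := hfd.hasDerivAt
      simpa using this
    have hd1 : HasDerivAt (fun s' : ℂ => (s' - s) * D + gv m χ (w1 s) (w2 s)) D s := by
      have := (((hasDerivAt_id s).sub_const s).mul_const D).add_const (gv m χ (w1 s) (w2 s))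
      simpa using this
    have hd2 := hd0.add hd1
    refine (hd2.congr_of_eventuallyEq (Eventually.of_forall fun s' => ?_)).differentiableAt
    simp only [Pi.add_apply]
    ring

end

end Pool.Agent.H240.SC
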