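import Pool.Agent.H240.SC.Flim

/-!
# Existence of the modes of the flat cylinder
-/

set_option autoImplicit false
set_option linter.unusedSectionVars false

open Set Filter Topology MeasureTheory
open scoped Real ContDiff

noncomputable section

namespace Pool.Agent.H240.SC

open Pool.Agent.Y262.QE Pool.Agent.Y264.QR

/-- the square of the frequency -/
def ee (x1 x2 : ℝ) (k : ℕ) : ℝ := (((k : ℝ) + 1) * π / (x2 - x1)) ^ 2

theorem mode_ex {L x1 x2 : ℝ} (h1 : 0 < x1) (h12 : x1 < x2) (h2 : x2 < L) (k : ℕ) {δ : ℝ}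
    (hδ : 0 < δ) (hδ1 : δ ≤ 1) : ∃ S S' ρ : ℝ → ℝ, Mode L x1 x2 (ee x1 x2 k) δ S S' ρ := by
  set ℓ := x2 - x1 with hℓ
  have hℓ0 : 0 < ℓ := by rw [hℓ]; linarith
  set ν : ℝ := ((k : ℝ) + 1) * π / ℓ with hν
  have hν0 : 0 < ν := by positivity
  set A : ℝ := Real.sqrt (2 / ℓ) with hA
  have hA2 : A ^ 2 = 2 / ℓ := Real.sq_sqrt (by positivity)
  set S : ℝ → ℝ := fun x => A * Real.sin (ν * (x - x1)) with hS
  set S' : ℝ → ℝ := fun x => A * (Real.cos (ν * (x - x1)) * ν) with hS'
  have dS : ∀ x, HasDerivAt S (S' x) x := by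
    intro x
    have h3 : HasDerivAt (fun x => ν * (x - x1)) ν x := by
      simpa using ((hasDerivAt_id x).sub_const x1).const_mul ν
    exact (h3.sin).const_mul A
  have dS' : ∀ x, HasDerivAt S' (-(ee x1 x2 k) * S x) x := by
    intro x
    have h3 : HasDerivAt (fun x => ν * (x - x1)) ν x := by
      simpa using ((hasDerivAt_id x).sub_const x1).const_mul ν
    have h4 := ((h3.cos).mul_const ν).const_mul A
    have h5 : A * (-Real.sin (ν * (x - x1)) * ν * ν) = -(ee x1 x2 k) * S x := by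
      show _ = -(ν ^ 2) * (A * Real.sin (ν * (x - x1)))
      ring
    rw [← h5]
    exact h4
  have hS1 : S x1 = 0 := by simp [hS]
  have hS2 : S x2 = 0 := by
    have h3 : ν * (x2 - x1) = ((k + 1 : ℕ) : ℝ) * π := by
      rw [hν, ← hℓ]
      push_cast
      field_simp
    show A * Real.sin (ν * (x2 - x1)) = 0
    rw [h3, Real.sin_nat_mul_pi, mul_zero]
  have hSc : Continuous S := continuous_iff_continuousAt.2 fun x => (dS x).continuousAt
  have hnS : ∫ x in x1..x2, (S x) ^ 2 = 1 := by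
    have h3 : ∀ x ∈ uIcc x1 x2, HasDerivAt
        (fun x => (1 / ℓ) * (x - Real.sin (ν * (x - x1)) * Real.cos (ν * (x - x1)) / ν))
        ((S x) ^ 2) x := by
      intro x _
      have h3 : HasDerivAt (fun x => ν * (x - x1)) ν x := by
        simpa using ((hasDerivAt_id x).sub_const x1).const_mul ν
      have h4 := (((hasDerivAt_id x).sub ((h3.sin.mul h3.cos).div_const ν)).const_mul (1 / ℓ))
      refine h4.congr_deriv ?_
      show _ = (A * Real.sin (ν * (x - x1))) ^ 2
      rw [mul_pow, hA2]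
      have h5 := Real.sin_sq_add_cos_sq (ν * (x - x1))
      field_simp
      nlinarith
    rw [intervalIntegral.integral_eq_sub_of_hasDerivAt h3
      ((hSc.pow 2).intervalIntegrable _ _)]
    have h4 : Real.sin (ν * (x2 - x1)) = 0 := by
      have h5 : A * Real.sin (ν * (x2 - x1)) = 0 := hS2
      have hA0 : A ≠ 0 := by
        intro h
        rw [h] at hA2
        have : 0 < 2 / ℓ := by positivity
        nlinarith
      exact (mul_eq_zero.1 h5).resolve_left hA0
    rw [h4]
    simp only [sub_self, mul_zero, Real.sin_zero, zero_mul, zero_div, sub_zero]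
    rw [← mul_sub, ← hℓ]
    field_simp
  -- the cutoff
  set τ : ℝ := min (ℓ / 4) (δ ^ 2 * ℓ / 8) with hτ
  have hτ0 : 0 < τ := lt_min (by positivity) (by positivity)
  have hτ1 : τ ≤ ℓ / 4 := min_le_left _ _
  have hτ2 : τ ≤ δ ^ 2 * ℓ / 8 := min_le_right _ _
  obtain ⟨χ, hχ, hχ01, hχ1⟩ := bump_ex (L := ℓ) (a := τ) (b := ℓ - τ) hτ0 (by linarith) (by linarith)
  set X : ℝ → ℝ := fun x => χ (x - x1) with hX
  have hXc : Continuous X := hχ.1.continuous.comp (by fun_prop)
  have hX0 : ∀ x, x ∉ Ioo x1 x2 → X x = 0 := by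
    intro x hx
    show χ (x - x1) = 0
    by_contra hne
    have h3 : x - x1 ∈ Ioo 0 ℓ := hχ.2.2 (subset_tsupport χ hne)
    exact hx ⟨by linarith [h3.1], by have := h3.2; rw [hℓ] at this; linarith⟩
  set I : ℝ := ∫ x in x1..x2, (X x * S x) ^ 2 with hI
  have iS : ∀ f : ℝ → ℝ, Continuous f → IntervalIntegrable f volume x1 x2 := fun f hf =>
    hf.intervalIntegrable _ _
  have hI1 : I ≤ 1 := by
    rw [← hnS]
    refine intervalIntegral.integral_mono_on h12.le (iS _ (by fun_prop)) (iS _ (by fun_prop))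
      fun x _ => ?_
    rw [mul_pow]
    have h3 : (X x) ^ 2 ≤ 1 := pow_le_one₀ (hχ01 _).1 (hχ01 _).2
    nlinarith [sq_nonneg (S x)]
  -- the loss by the cutoff
  have hloss : 1 - I ≤ δ ^ 2 / 2 := by
    have e1 : 1 - I = ∫ x in x1..x2, (1 - (X x) ^ 2) * (S x) ^ 2 := by
      have e2 : ∫ x in x1..x2, (1 - (X x) ^ 2) * (S x) ^ 2 =
          ∫ x in x1..x2, ((S x) ^ 2 - (X x * S x) ^ 2) := by
        refine intervalIntegral.integral_congr fun x _ => ?_
        ring
      rw [e2, intervalIntegral.integral_sub (iS _ (by fun_prop)) (iS _ (by fun_prop)), hnS]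
    rw [e1]
    have e2 : ∫ x in x1..x2, (1 - (X x) ^ 2) * (S x) ^ 2 =
        (∫ x in x1..(x1 + τ), (1 - (X x) ^ 2) * (S x) ^ 2) +
        (∫ x in (x1 + τ)..(x2 - τ), (1 - (X x) ^ 2) * (S x) ^ 2) +
        ∫ x in (x2 - τ)..x2, (1 - (X x) ^ 2) * (S x) ^ 2 := by
      have hc : Continuous fun x => (1 - (X x) ^ 2) * (S x) ^ 2 := by fun_prop
      rw [intervalIntegral.integral_add_adjacent_intervals (hc.intervalIntegrable _ _)
        (hc.intervalIntegrable _ _), intervalIntegral.integral_add_adjacent_intervals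
        (hc.intervalIntegrable _ _) (hc.intervalIntegrable _ _)]
    have e3 : ∫ x in (x1 + τ)..(x2 - τ), (1 - (X x) ^ 2) * (S x) ^ 2 = 0 := by
      have : ∀ x ∈ uIcc (x1 + τ) (x2 - τ), (1 - (X x) ^ 2) * (S x) ^ 2 = (fun _ => (0 : ℝ)) x := by
        intro x hx
        rw [uIcc_of_le (by linarith)] at hx
        have h3 : X x = 1 := hχ1 (x - x1) ⟨by linarith [hx.1], by rw [hℓ]; linarith [hx.2]⟩
        rw [h3]
        ring
      rw [intervalIntegral.integral_congr this]
      simp
    have hbd : ∀ x, (1 - (X x) ^ 2) * (S x) ^ 2 ≤ 2 / ℓ := by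
      intro x
      have h3 : (X x) ^ 2 ≤ 1 := pow_le_one₀ (hχ01 _).1 (hχ01 _).2
      have h4 : (S x) ^ 2 ≤ 2 / ℓ := by
        show (A * Real.sin (ν * (x - x1))) ^ 2 ≤ 2 / ℓ
        rw [mul_pow, hA2]
        have h5 : Real.sin (ν * (x - x1)) ^ 2 ≤ 1 := Real.sin_sq_le_one _
        have h6 : 0 ≤ 2 / ℓ := by positivity
        nlinarith
      have h5 := sq_nonneg (X x)
      have h6 := sq_nonneg (S x)
      nlinarith
    have e4 : ∀ u v : ℝ, u ≤ v → ∫ x in u..v, (1 - (X x) ^ 2) * (S x) ^ 2 ≤ (v - u) * (2 / ℓ) := by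
      intro u v huv
      have h3 : ∫ x in u..v, (1 - (X x) ^ 2) * (S x) ^ 2 ≤ ∫ x in u..v, (2 / ℓ) := by
        refine intervalIntegral.integral_mono_on huv
          ((by fun_prop : Continuous fun x => (1 - (X x) ^ 2) * (S x) ^ 2).intervalIntegrable _ _)
          intervalIntegrable_const fun x _ => hbd x
      rwa [intervalIntegral.integral_const, smul_eq_mul] at h3
    have e5 := e4 x1 (x1 + τ) (by linarith)
    have e6 := e4 (x2 - τ) x2 (by linarith)
    rw [e2, e3]
    have e7 : (x1 + τ - x1) * (2 / ℓ) + (x2 - (x2 - τ)) * (2 / ℓ) = 4 * τ / ℓ := by ring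
    have e8 : 4 * τ / ℓ ≤ δ ^ 2 / 2 := by
      rw [div_le_iff₀ hℓ0]
      linarith
    linarith
  have hI0 : 0 < I := by nlinarith
  set c : ℝ := 1 / Real.sqrt I with hc
  have hsI : 0 < Real.sqrt I := Real.sqrt_pos.2 hI0
  have hc2 : c ^ 2 * I = 1 := by
    rw [hc, div_pow, one_pow, Real.sq_sqrt hI0.le]
    field_simp
  refine ⟨S, S', fun x => c * (X x * S x), ?_⟩
  have hcI : c * I = Real.sqrt I := by
    rw [hc]
    nth_rewrite 2 [← Real.mul_self_sqrt hI0.le]
    field_simp
  refine ⟨by unfold ee; positivity, dS, dS', hS1, hS2, hnS, ?_, ?_, ?_, hδ.le, hδ1, ?_⟩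
  · have hsm : ContDiff ℝ ∞ fun x => c * (X x * S x) := by
      have h3 : ContDiff ℝ ∞ X := hχ.1.comp (by fun_prop)
      have h4 : ContDiff ℝ ∞ S := by
        have h5 : ContDiff ℝ ∞ fun x : ℝ => ν * (x - x1) := by fun_prop
        exact contDiff_const.mul (Real.contDiff_sin.comp h5)
      exact contDiff_const.mul (h3.mul h4)
    have hts : tsupport (fun x => c * (X x * S x)) ⊆ Ioo x1 x2 := by
      have h3 : Function.support (fun x => c * (X x * S x)) ⊆ (fun x => x - x1) ⁻¹' tsupport χ := by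
        intro x hx
        refine subset_tsupport χ ?_
        intro h4
        apply hx
        show c * (χ (x - x1) * S x) = 0
        rw [h4]
        ring
      have h4 : IsClosed ((fun x : ℝ => x - x1) ⁻¹' tsupport χ) :=
        (isClosed_tsupport χ).preimage (by fun_prop)
      intro x hx
      have h5 : x - x1 ∈ tsupport χ := closure_minimal h3 h4 hx
      have h6 := hχ.2.2 h5
      exact ⟨by linarith [h6.1], by have := h6.2; rw [hℓ] at this; linarith⟩
    refine ⟨hsm, ?_, hts.trans fun x hx => ⟨by linarith [hx.1], by linarith [hx.2]⟩⟩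
    exact isCompact_Icc.of_isClosed_subset (isClosed_tsupport _) (hts.trans Ioo_subset_Icc_self)
  · intro x hx
    rw [hX0 x hx]
    ring
  · have e1 : ∫ x in x1..x2, (c * (X x * S x)) ^ 2 = c ^ 2 * I := by
      rw [hI, ← intervalIntegral.integral_const_mul]
      refine intervalIntegral.integral_congr fun x _ => ?_
      ring
    rw [e1, hc2]
  · have e1 : ∫ x in x1..x2, (S x - c * (X x * S x)) ^ 2 =
        1 - 2 * c * (∫ x in x1..x2, X x * (S x) ^ 2) + c ^ 2 * I := by
      have e2 : ∫ x in x1..x2, (S x - c * (X x * S x)) ^ 2 =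
          ∫ x in x1..x2, ((S x) ^ 2 - 2 * c * (X x * (S x) ^ 2) + c ^ 2 * (X x * S x) ^ 2) := by
        refine intervalIntegral.integral_congr fun x _ => ?_
        ring
      rw [e2, intervalIntegral.integral_add ((iS _ (by fun_prop)).sub (iS _ (by fun_prop)))
        (iS _ (by fun_prop)), intervalIntegral.integral_sub (iS _ (by fun_prop)) (iS _ (by fun_prop)),
        intervalIntegral.integral_const_mul, intervalIntegral.integral_const_mul, hnS]
    have e3 : I ≤ ∫ x in x1..x2, X x * (S x) ^ 2 := by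
      rw [hI]
      refine intervalIntegral.integral_mono_on h12.le (iS _ (by fun_prop)) (iS _ (by fun_prop))
        fun x _ => ?_
      rw [mul_pow]
      have h3 : (X x) ^ 2 ≤ X x := by
        have := (hχ01 (x - x1)).1
        have := (hχ01 (x - x1)).2
        show (χ (x - x1)) ^ 2 ≤ χ (x - x1)
        nlinarith
      exact mul_le_mul_of_nonneg_right h3 (sq_nonneg _)
    have hc0 : 0 < c := by positivity
    have e4 : Real.sqrt I ≤ c * ∫ x in x1..x2, X x * (S x) ^ 2 := by
      rw [← hcI]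
      exact mul_le_mul_of_nonneg_left e3 hc0.le
    have e5 : I ≤ Real.sqrt I := by
      have h3 : Real.sqrt I ≤ 1 := by
        rw [← Real.sqrt_one]
        exact Real.sqrt_le_sqrt hI1
      calc I = Real.sqrt I * Real.sqrt I := (Real.mul_self_sqrt hI0.le).symm
        _ ≤ Real.sqrt I * 1 := mul_le_mul_of_nonneg_left h3 hsI.le
        _ = _ := mul_one _
    rw [e1, hc2]
    nlinarith

end Pool.Agent.H240.SC
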