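import Pool.Agent.H240.SC.Rep

/-!
# The differential equation with absorption on the cylinder
-/

set_option autoImplicit false

open Set Filter Topology MeasureTheory intervalIntegral
open scoped Real ContDiff

noncomputable section

namespace Pool.Agent.H240.SC

open Pool.Agent.Y262.QE

/-- classical solutions of the system -/
structure Cls2 (L : ℝ) (P Q R U1 U1' U2 U2' : ℝ → ℝ) : Prop where
  d1 : ∀ x, HasDerivAt U1 (U1' x) x
  c1 : Continuous U1'
  d2 : ∀ x, HasDerivAt U2 (U2' x) x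
  c2 : Continuous U2'
  e1 : ∀ x ∈ Ioo 0 L, HasDerivAt U1' (P x * U1 x + Q x * U2 x - R x) x
  e2 : ∀ x ∈ Ioo 0 L, HasDerivAt U2' (P x * U2 x - Q x * U1 x) x

theorem memLp_mul_cont {L : ℝ} {P V : ℝ → ℝ} (hP : ContinuousOn P (Icc 0 L))
    (hV : MemLp V 2 (volume.restrict (Ioo 0 L))) :
    MemLp (fun x => P x * V x) 2 (volume.restrict (Ioo 0 L)) := by
  obtain ⟨C, hC⟩ := isCompact_Icc.exists_bound_of_continuousOn hP
  refine MemLp.of_le_mul (c := C) hV ?_ ?_
  · exact (((hP.mono Ioo_subset_Icc_self).aestronglyMeasurable measurableSet_Ioo)).mul hV.1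
  · filter_upwards [ae_restrict_mem measurableSet_Ioo] with x hx
    rw [norm_mul]
    exact mul_le_mul_of_nonneg_right (hC x (Ioo_subset_Icc_self hx)) (norm_nonneg _)

theorem cont_memLp {L : ℝ} {P : ℝ → ℝ} (hP : ContinuousOn P (Icc 0 L)) :
    MemLp P 2 (volume.restrict (Ioo 0 L)) := by
  obtain ⟨C, hC⟩ := isCompact_Icc.exists_bound_of_continuousOn hP
  refine MemLp.of_bound ((hP.mono Ioo_subset_Icc_self).aestronglyMeasurable measurableSet_Ioo) C ?_
  filter_upwards [ae_restrict_mem measurableSet_Ioo] with x hx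
  exact hC x (Ioo_subset_Icc_self hx)

theorem sys {L : ℝ} (hL : 0 < L) {V1 V2 P Q R : ℝ → ℝ}
    (hV1 : MemLp V1 2 (volume.restrict (Ioo 0 L))) (hV2 : MemLp V2 2 (volume.restrict (Ioo 0 L)))
    (hP : ContinuousOn P (Icc 0 L)) (hQ : ContinuousOn Q (Icc 0 L)) (hR : ContinuousOn R (Icc 0 L))
    (h1 : ∀ η, Tst L η → ∫ x in Ioo 0 L, iteratedDeriv 2 η x * V1 x =
      ∫ x in Ioo 0 L, (P x * V1 x + Q x * V2 x - R x) * η x)
    (h2 : ∀ η, Tst L η → ∫ x in Ioo 0 L, iteratedDeriv 2 η x * V2 x =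
      ∫ x in Ioo 0 L, (P x * V2 x - Q x * V1 x) * η x) :
    ∃ U1 U1' U2 U2' : ℝ → ℝ, Cls2 L P Q R U1 U1' U2 U2' ∧
      V1 =ᵐ[volume.restrict (Ioo 0 L)] U1 ∧ V2 =ᵐ[volume.restrict (Ioo 0 L)] U2 := by
  have mf1 : MemLp (fun x => P x * V1 x + Q x * V2 x - R x) 2 (volume.restrict (Ioo 0 L)) :=
    ((memLp_mul_cont hP hV1).add (memLp_mul_cont hQ hV2)).sub (cont_memLp hR)
  have mf2 : MemLp (fun x => P x * V2 x - Q x * V1 x) 2 (volume.restrict (Ioo 0 L)) :=
    (memLp_mul_cont hP hV2).sub (memLp_mul_cont hQ hV1)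
  -- continuous representatives
  have cr : ∀ (V f : ℝ → ℝ), MemLp V 2 (volume.restrict (Ioo 0 L)) →
      MemLp f 2 (volume.restrict (Ioo 0 L)) →
      (∀ η, Tst L η → ∫ x in Ioo 0 L, iteratedDeriv 2 η x * V x = ∫ x in Ioo 0 L, f x * η x) →
      ∃ W : ℝ → ℝ, ContinuousOn W (Icc 0 L) ∧ V =ᵐ[volume.restrict (Ioo 0 L)] W := by
    intro V f hV hf h
    obtain ⟨α, β, hαβ⟩ := rep hL hV hf h
    have hfi := int_of_memLp hL hf
    have hAac : AbsolutelyContinuousOnInterval (fun x => ∫ r in (0 : ℝ)..x, f r) 0 L :=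
      hfi.absolutelyContinuousOnInterval_intervalIntegral (by simp)
    have hFac : AbsolutelyContinuousOnInterval
        (fun x => ∫ t in (0 : ℝ)..x, ∫ r in (0 : ℝ)..t, f r) 0 L :=
      hAac.continuousOn.intervalIntegrable.absolutelyContinuousOnInterval_intervalIntegral (by simp)
    have hFc := hFac.continuousOn
    rw [uIcc_of_le hL.le] at hFc
    exact ⟨fun x => α + β * x + ∫ t in (0 : ℝ)..x, ∫ r in (0 : ℝ)..t, f r,
      (by fun_prop : Continuous fun x : ℝ => α + β * x).continuousOn.add hFc, hαβ⟩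
  obtain ⟨W1, hW1, hVW1⟩ := cr V1 _ hV1 mf1 h1
  obtain ⟨W2, hW2, hVW2⟩ := cr V2 _ hV2 mf2 h2
  obtain ⟨U1, U1', d1, c1, e1, hU1⟩ := classic hL hV1 mf1 h1
    (g := fun x => P x * W1 x + Q x * W2 x - R x) (((hP.mul hW1).add (hQ.mul hW2)).sub hR) (by
      filter_upwards [hVW1, hVW2] with x hx1 hx2
      rw [hx1, hx2])
  obtain ⟨U2, U2', d2, c2, e2, hU2⟩ := classic hL hV2 mf2 h2
    (g := fun x => P x * W2 x - Q x * W1 x) ((hP.mul hW2).sub (hQ.mul hW1)) (by
      filter_upwards [hVW1, hVW2] with x hx1 hx2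
      rw [hx1, hx2])
  have hc1 : Continuous U1 := continuous_iff_continuousAt.2 fun x => (d1 x).continuousAt
  have hc2 : Continuous U2 := continuous_iff_continuousAt.2 fun x => (d2 x).continuousAt
  have q1 : EqOn W1 U1 (Ioo 0 L) := Measure.eqOn_open_of_ae_eq (hVW1.symm.trans hU1) isOpen_Ioo
    (hW1.mono Ioo_subset_Icc_self) hc1.continuousOn
  have q2 : EqOn W2 U2 (Ioo 0 L) := Measure.eqOn_open_of_ae_eq (hVW2.symm.trans hU2) isOpen_Ioo
    (hW2.mono Ioo_subset_Icc_self) hc2.continuousOn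
  refine ⟨U1, U1', U2, U2', ⟨d1, c1, d2, c2, fun x hx => ?_, fun x hx => ?_⟩, hU1, hU2⟩
  · have := e1 x (Ioo_subset_Icc_self hx)
    simp only [q1 hx, q2 hx] at this
    exact this
  · have := e2 x (Ioo_subset_Icc_self hx)
    simp only [q1 hx, q2 hx] at this
    exact this

section

variable {L : ℝ} {P Q R U1 U1' U2 U2' : ℝ → ℝ}

theorem Cls2.k1 (h : Cls2 L P Q R U1 U1' U2 U2') : Continuous U1 :=
  continuous_iff_continuousAt.2 fun x => (h.d1 x).continuousAt

theorem Cls2.k2 (h : Cls2 L P Q R U1 U1' U2 U2') : Continuous U2 :=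
  continuous_iff_continuousAt.2 fun x => (h.d2 x).continuousAt

/-- the energy identity -/
theorem energy (hL : 0 < L) (h : Cls2 L P Q R U1 U1' U2 U2') (hP : ContinuousOn P (Icc 0 L))
    (hR : ContinuousOn R (Icc 0 L)) {χ : ℝ → ℝ} (hχ : Tst L χ) :
    ∫ x in (0 : ℝ)..L, χ x * ((U1' x) ^ 2 + (U2' x) ^ 2) =
      ∫ x in (0 : ℝ)..L, (1 / 2 * iteratedDeriv 2 χ x * ((U1 x) ^ 2 + (U2 x) ^ 2) -
        χ x * P x * ((U1 x) ^ 2 + (U2 x) ^ 2) + χ x * R x * U1 x) := by
  have hk1 := h.k1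
  have hk2 := h.k2
  have hc1 := h.c1
  have hc2 := h.c2
  have hχc : Continuous χ := hχ.1.continuous
  have hχ1c : Continuous (deriv χ) := continuous_iff_continuousAt.2 fun x =>
    (tst_deriv2 hχ x).continuousAt
  have hχ2c : Continuous (iteratedDeriv 2 χ) := hχ.1.continuous_iteratedDeriv 2 (by norm_cast)
  have h0 : (0 : ℝ) ∉ Ioo 0 L := fun h => lt_irrefl _ h.1
  have hLn : L ∉ Ioo 0 L := fun h => lt_irrefl _ h.2
  have key := intervalIntegral.integral_eq_sub_of_hasDerivAt_of_le hL.le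
    (f := fun x => χ x * (U1 x * U1' x + U2 x * U2' x) -
      1 / 2 * (deriv χ x * ((U1 x) ^ 2 + (U2 x) ^ 2)))
    (f' := fun x => χ x * ((U1' x) ^ 2 + (U2' x) ^ 2) -
      (1 / 2 * iteratedDeriv 2 χ x * ((U1 x) ^ 2 + (U2 x) ^ 2) -
        χ x * P x * ((U1 x) ^ 2 + (U2 x) ^ 2) + χ x * R x * U1 x))
    (by fun_prop) (fun x hx => ?_) ?_
  · simp only [tst_zero hχ h0, tst_zero hχ hLn, tst_dzero hχ h0, tst_dzero hχ hLn] at key
    rw [intervalIntegral.integral_sub] at key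
    · linarith
    · exact (by fun_prop : Continuous fun x => χ x * ((U1' x) ^ 2 + (U2' x) ^ 2)).intervalIntegrable _ _
    · refine ContinuousOn.intervalIntegrable ?_
      rw [uIcc_of_le hL.le]
      exact ((by fun_prop : Continuous fun x => 1 / 2 * iteratedDeriv 2 χ x *
        ((U1 x) ^ 2 + (U2 x) ^ 2)).continuousOn.sub ((hχc.continuousOn.mul hP).mul
        (by fun_prop : Continuous fun x => (U1 x) ^ 2 + (U2 x) ^ 2).continuousOn)).add
        ((hχc.continuousOn.mul hR).mul hk1.continuousOn)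
  · have a1 := h.d1 x
    have a2 := h.d2 x
    have a3 := h.e1 x hx
    have a4 := h.e2 x hx
    have b1 := tst_deriv hχ x
    have b2 := tst_deriv2 hχ x
    have c1 := (b1.mul ((a1.mul a3).add (a2.mul a4))).sub
      (((b2.mul ((a1.pow 2).add (a2.pow 2)))).const_mul (1 / 2))
    refine c1.congr_deriv ?_
    simp only [Pi.add_apply, Pi.mul_apply, Pi.pow_apply]
    push_cast
    ring
  · refine ContinuousOn.intervalIntegrable ?_
    rw [uIcc_of_le hL.le]
    exact (by fun_prop : Continuous fun x => χ x * ((U1' x) ^ 2 + (U2' x) ^ 2)).continuousOn.sub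
      (((by fun_prop : Continuous fun x => 1 / 2 * iteratedDeriv 2 χ x *
        ((U1 x) ^ 2 + (U2 x) ^ 2)).continuousOn.sub ((hχc.continuousOn.mul hP).mul
        (by fun_prop : Continuous fun x => (U1 x) ^ 2 + (U2 x) ^ 2).continuousOn)).add
        ((hχc.continuousOn.mul hR).mul hk1.continuousOn))

end

/-- differences are bounded by the integral of the square of the derivative -/
theorem diff_sq {U U' : ℝ → ℝ} (d : ∀ x, HasDerivAt U (U' x) x) (c : Continuous U') {x y : ℝ}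
    (hxy : x ≤ y) : (U y - U x) ^ 2 ≤ (y - x) * ∫ t in x..y, (U' t) ^ 2 := by
  have h1 : U y - U x = ∫ t in x..y, U' t :=
    (intervalIntegral.integral_eq_sub_of_hasDerivAt (fun t _ => d t)
      (c.intervalIntegrable _ _)).symm
  rcases eq_or_lt_of_le hxy with h | h
  · subst h
    simp
  have h2 : ∀ m : ℝ, 0 ≤ ∫ t in x..y, (U' t - m) ^ 2 := fun m =>
    intervalIntegral.integral_nonneg hxy fun t _ => sq_nonneg _
  have h3 : ∀ m : ℝ, ∫ t in x..y, (U' t - m) ^ 2 =
      (∫ t in x..y, (U' t) ^ 2) - 2 * m * (∫ t in x..y, U' t) + m ^ 2 * (y - x) := by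
    intro m
    have e1 : ∀ t, (U' t - m) ^ 2 = (U' t) ^ 2 - 2 * m * U' t + m ^ 2 := fun t => by ring
    simp only [e1]
    rw [intervalIntegral.integral_add, intervalIntegral.integral_sub,
      intervalIntegral.integral_const_mul, intervalIntegral.integral_const, smul_eq_mul]
    · ring
    · exact (c.pow 2).intervalIntegrable _ _
    · exact (c.const_mul _).intervalIntegrable _ _
    · exact ((c.pow 2).sub (c.const_mul _)).intervalIntegrable _ _
    · exact continuous_const.intervalIntegrable _ _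
  rw [h1]
  have hp : 0 < y - x := sub_pos.2 h
  set I := ∫ t in x..y, U' t with hI
  set J := ∫ t in x..y, (U' t) ^ 2 with hJ
  have h4 := h2 (I / (y - x))
  rw [h3] at h4
  have h5 : J - 2 * (I / (y - x)) * I + (I / (y - x)) ^ 2 * (y - x) = J - I ^ 2 / (y - x) := by
    field_simp
    ring
  rw [h5] at h4
  have h6 : I ^ 2 / (y - x) ≤ J := by linarith
  rw [div_le_iff₀ hp] at h6
  linarith

end Pool.Agent.H240.SC
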