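import Pool.Graph.R_seed8.Y532.QE.Par2
import Pool.Graph.R_seed8.Y291.QE.Pack

/-!
# Fourier coefficients of arbitrary functions on the cylinder
-/

set_option autoImplicit false
set_option linter.unusedSectionVars false

open Set Filter Topology MeasureTheory
open scoped Real ContDiff ComplexConjugate

noncomputable section

namespace Pool.Agent.H240.SC

open Pool.Agent.Y262.QE Pool.Agent.Y532.QE

theorem sin_cs {f : ℝ → ℝ} (hf : MemLp f 2 my) (m : ℕ) :
    ((√π)⁻¹ * ∫ y, Real.sin ((m + 1) * y) * f y ∂my) ^ 2 ≤ ∫ y, (f y) ^ 2 ∂my := by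
  have hsin : MemLp (fun y : ℝ => Real.sin ((m + 1) * y)) 2 my := by
    refine MemLp.of_bound (Continuous.aestronglyMeasurable (by fun_prop)) 1 ?_
    exact Eventually.of_forall fun y => by
      rw [Real.norm_eq_abs]
      exact Real.abs_sin_le_one _
  have i1 : Integrable (fun y => (f y) ^ 2) my := hf.integrable_sq
  have i2 : Integrable (fun y => Real.sin ((m + 1) * y) * f y) my := hsin.integrable_mul hf
  have i3 : Integrable (fun y : ℝ => (Real.sin ((m + 1) * y)) ^ 2) my := hsin.integrable_sq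
  have e0 : ∫ y : ℝ, (Real.sin ((m + 1) * y)) ^ 2 ∂my = π := by
    have h1 := Pool.Agent.Y291.QE.int_sin m m
    rw [if_pos rfl] at h1
    rw [← h1]
    refine integral_congr_ae (Eventually.of_forall fun y => ?_)
    beta_reduce
    ring
  set c := ∫ y, Real.sin ((m + 1) * y) * f y ∂my with hc
  have h1 : 0 ≤ ∫ y, (f y - (π⁻¹ * c) * Real.sin ((m + 1) * y)) ^ 2 ∂my :=
    integral_nonneg fun y => sq_nonneg _
  have h2 : ∫ y, (f y - (π⁻¹ * c) * Real.sin ((m + 1) * y)) ^ 2 ∂my =
      (∫ y, (f y) ^ 2 ∂my) - π⁻¹ * c ^ 2 := by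
    have e1 : ∫ y, (f y - (π⁻¹ * c) * Real.sin ((m + 1) * y)) ^ 2 ∂my =
        ∫ y, ((f y) ^ 2 - (2 * (π⁻¹ * c)) * (Real.sin ((m + 1) * y) * f y) +
          (π⁻¹ * c) ^ 2 * (Real.sin ((m + 1) * y)) ^ 2) ∂my := by
      refine integral_congr_ae (Eventually.of_forall fun y => ?_)
      beta_reduce
      ring
    have j1 : Integrable (fun y => (f y) ^ 2 - (2 * (π⁻¹ * c)) * (Real.sin ((m + 1) * y) * f y)) my :=
      i1.sub (i2.const_mul _)
    rw [e1, integral_add j1 (i3.const_mul _), integral_sub i1 (i2.const_mul _), integral_const_mul,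
      integral_const_mul, e0, ← hc]
    have hp := Real.pi_pos.ne'
    field_simp
    ring
  rw [h2] at h1
  rw [mul_pow]
  have h3 : ((√π)⁻¹) ^ 2 = π⁻¹ := by
    rw [inv_pow, Real.sq_sqrt Real.pi_pos.le]
  rw [h3]
  linarith

theorem par0 {L : ℝ} {U : ℂ → ℝ} (hU : MemLp U 2 (volume.restrict (Rec L (-π)))) :
    (∀ m, MemLp (cf U m) 2 (volume.restrict (Ioo 0 L))) ∧
    (∀ η : ℝ → ℝ, Measurable η → (∃ C, ∀ x, |η x| ≤ C) → ∀ m : ℕ,
      ∫ z in Rec L (-π), η z.re * Real.sin ((m + 1) * z.im) * U z =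
        Real.sqrt π * ∫ x in Ioo 0 L, η x * cf U m x) ∧
    ∀ η : ℝ → ℝ, Measurable η → (∃ C, ∀ x, |η x| ≤ C) → (∀ x, 0 ≤ η x) → ∀ m : ℕ,
      ∫ x in Ioo 0 L, η x * (cf U m x) ^ 2 ≤ ∫ z in Rec L (-π), η z.re * (U z) ^ 2 := by
  have hV : MemLp (vv U) 2 ((mx L).prod my) := vv_mem hU
  have hsq : Integrable (fun q => vv U q ^ 2) ((mx L).prod my) := hV.integrable_sq
  have hx1 : ∀ᵐ x ∂(mx L), Integrable (fun y => vv U (x, y) ^ 2) my := hsq.prod_right_ae
  have hx2 : ∀ᵐ x ∂(mx L), AEStronglyMeasurable (fun y => vv U (x, y)) my :=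
    hV.aestronglyMeasurable.prodMk_left
  set P : ℝ → ℝ := fun x => ∫ y, vv U (x, y) ^ 2 ∂my with hP
  have hPi : Integrable P (mx L) := hsq.integral_prod_left
  have hm : ∀ m : ℕ, AEStronglyMeasurable (cf U m) (mx L) := by
    intro m
    have h1 : AEStronglyMeasurable (fun q : ℝ × ℝ => Real.sin ((m + 1) * q.2) * vv U q)
        ((mx L).prod my) := by
      refine AEStronglyMeasurable.mul ?_ hV.aestronglyMeasurable
      exact (by fun_prop : Continuous fun q : ℝ × ℝ => Real.sin ((m + 1) * q.2)).aestronglyMeasurable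
    exact (h1.integral_prod_right').const_mul _
  have hle : ∀ m : ℕ, ∀ᵐ x ∂(mx L), (cf U m x) ^ 2 ≤ P x := by
    intro m
    filter_upwards [hx1, hx2] with x h1 h2
    exact sin_cs ((memLp_two_iff_integrable_sq h2).2 h1) m
  have hci : ∀ m : ℕ, Integrable (fun x => (cf U m x) ^ 2) (mx L) := by
    intro m
    refine hPi.mono' ((hm m).pow 2) ?_
    filter_upwards [hle m] with x hx
    rw [Real.norm_eq_abs, abs_of_nonneg (sq_nonneg _)]
    exact hx
  have hcm : ∀ m, MemLp (cf U m) 2 (mx L) := fun m => (memLp_two_iff_integrable_sq (hm m)).2 (hci m)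
  refine ⟨hcm, fun η hη hb m => ?_, fun η hη hb hη0 m => ?_⟩
  · obtain ⟨C, hC⟩ := hb
    have hC0 : 0 ≤ C := (abs_nonneg _).trans (hC 0)
    have hVi : Integrable (vv U) ((mx L).prod my) := hV.integrable (by norm_num)
    have hint : Integrable (fun q : ℝ × ℝ => η q.1 * Real.sin ((m + 1) * q.2) * vv U q)
        ((mx L).prod my) := by
      refine hVi.bdd_mul (c := C) ?_ ?_
      · refine Measurable.aestronglyMeasurable ?_
        exact (hη.comp measurable_fst).mul (by fun_prop)
      · refine Eventually.of_forall fun q => ?_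
        rw [Real.norm_eq_abs, abs_mul]
        calc |η q.1| * |Real.sin ((m + 1) * q.2)| ≤ C * 1 :=
              mul_le_mul (hC _) (Real.abs_sin_le_one _) (abs_nonneg _) hC0
          _ = C := mul_one C
    have h1 : ∫ z in Rec L (-π), η z.re * Real.sin ((m + 1) * z.im) * U z =
        ∫ q, η q.1 * Real.sin ((m + 1) * q.2) * vv U q ∂((mx L).prod my) := int_rec L _
    rw [h1, integral_prod _ hint]
    have hpi : Real.sqrt π ≠ 0 := (Real.sqrt_pos.2 Real.pi_pos).ne'
    rw [← integral_const_mul]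
    refine integral_congr_ae (Eventually.of_forall fun x => ?_)
    have h2 : ∀ y, η x * Real.sin ((m + 1) * y) * vv U (x, y) =
        η x * (Real.sin ((m + 1) * y) * vv U (x, y)) := fun y => by ring
    simp only [h2]
    rw [integral_const_mul]
    have h3 : ∫ y, Real.sin ((m + 1) * y) * vv U (x, y) ∂my = Real.sqrt π * cf U m x := by
      unfold cf
      rw [← mul_assoc, mul_inv_cancel₀ hpi, one_mul]
      rfl
    rw [h3]
    ring
  · obtain ⟨C, hC⟩ := hb
    have hC0 : 0 ≤ C := (abs_nonneg _).trans (hC 0)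
    have hF : Integrable (fun x => η x * (cf U m x) ^ 2) (mx L) := by
      refine (hci m).bdd_mul (c := C) hη.aestronglyMeasurable ?_
      exact Eventually.of_forall fun x => by
        rw [Real.norm_eq_abs]
        exact hC x
    have hFP : Integrable (fun x => η x * P x) (mx L) := by
      refine hPi.bdd_mul (c := C) hη.aestronglyMeasurable ?_
      exact Eventually.of_forall fun x => by
        rw [Real.norm_eq_abs]
        exact hC x
    have hint : Integrable (fun q : ℝ × ℝ => η q.1 * vv U q ^ 2) ((mx L).prod my) := by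
      refine hsq.bdd_mul (c := C) (hη.comp measurable_fst).aestronglyMeasurable ?_
      exact Eventually.of_forall fun x => by
        rw [Real.norm_eq_abs]
        exact hC x.1
    have h3 : ∫ z in Rec L (-π), η z.re * (U z) ^ 2 = ∫ x, η x * P x ∂(mx L) := by
      have h4 : ∫ z in Rec L (-π), η z.re * (U z) ^ 2 =
          ∫ q, η q.1 * vv U q ^ 2 ∂((mx L).prod my) := int_rec L _
      rw [h4, integral_prod _ hint]
      refine integral_congr_ae (Eventually.of_forall fun x => ?_)
      exact integral_const_mul (η x) (fun y => vv U (x, y) ^ 2)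
    rw [h3]
    refine integral_mono_ae hF hFP ?_
    filter_upwards [hle m] with x hx
    exact mul_le_mul_of_nonneg_left hx (hη0 x)

/-- the Fourier coefficients depend on the function up to null sets only -/
theorem cf_congr {L : ℝ} {U U' : ℂ → ℝ} (h : U =ᵐ[volume.restrict (Rec L (-π))] U') (m : ℕ) :
    cf U m =ᵐ[volume.restrict (Ioo 0 L)] cf U' m := by
  have h1 : ∀ᵐ q ∂((mx L).prod my), vv U q = vv U' q :=
    (mp L).quasiMeasurePreserving.ae h
  have h2 : ∀ᵐ x ∂(mx L), ∀ᵐ y ∂my, vv U (x, y) = vv U' (x, y) := Measure.ae_ae_of_ae_prod h1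
  filter_upwards [h2] with x hx
  unfold cf
  congr 1
  refine integral_congr_ae ?_
  filter_upwards [hx] with y hy
  have : U ⟨x, y⟩ = U' ⟨x, y⟩ := hy
  rw [this]

/-- the Fourier coefficient of the test function -/
theorem cf_test (η : ℝ → ℝ) (m : ℕ) (x : ℝ) :
    cf (fun z => (√π)⁻¹ * Vf η m z) m x = η x := by
  unfold cf Vf
  have h1 : ∀ y : ℝ, Real.sin ((m + 1) * y) * ((√π)⁻¹ * (η x * Real.sin ((m + 1) * y))) =
      ((√π)⁻¹ * η x) * (Real.sin ((m + 1) * y) * Real.sin ((m + 1) * y)) := fun y => by ring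
  simp only [h1]
  rw [integral_const_mul]
  have h2 := Pool.Agent.Y291.QE.int_sin m m
  rw [if_pos rfl] at h2
  rw [h2]
  have h3 : (√π)⁻¹ * (√π)⁻¹ * π = 1 := by
    rw [← mul_inv, Real.mul_self_sqrt Real.pi_pos.le, inv_mul_cancel₀ Real.pi_pos.ne']
  calc (√π)⁻¹ * ((√π)⁻¹ * η x * π) = ((√π)⁻¹ * (√π)⁻¹ * π) * η x := by ring
    _ = η x := by rw [h3, one_mul]

end Pool.Agent.H240.SC
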