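import Pool.Graph.R_seed8.Y785.QE.Reg
import Pool.Graph.R_seed8.Y421.QE.Csn
import Pool.Graph.R_seed8.Y412.QE.Core

/-!
# Weak solutions of `V'' = f` in one variable
-/

set_option autoImplicit false

open Set Filter Topology MeasureTheory intervalIntegral
open scoped Real ContDiff

noncomputable section

namespace Pool.Agent.H240.SC

open Pool.Agent.Y262.QE

theorem tst_smooth {L : ℝ} {η : ℝ → ℝ} (h : Tst L η) : ContDiff ℝ ∞ η := h.1

theorem tst_deriv {L : ℝ} {η : ℝ → ℝ} (h : Tst L η) (x : ℝ) : HasDerivAt η (deriv η x) x :=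
  ((h.1.differentiable (by simp)) x).hasDerivAt

theorem tst_deriv2 {L : ℝ} {η : ℝ → ℝ} (h : Tst L η) (x : ℝ) :
    HasDerivAt (deriv η) (iteratedDeriv 2 η x) x := by
  have h1 : ContDiff ℝ ∞ (deriv η) := (contDiff_infty_iff_deriv.1 h.1).2
  have h2 := ((h1.differentiable (by simp)) x).hasDerivAt
  have h3 : deriv (deriv η) x = iteratedDeriv 2 η x := by
    rw [iteratedDeriv_succ, iteratedDeriv_one]
  rwa [h3] at h2

theorem tst_zero {L : ℝ} {η : ℝ → ℝ} (h : Tst L η) {x : ℝ} (hx : x ∉ Ioo 0 L) : η x = 0 := by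
  by_contra hne
  exact hx (h.2.2 (subset_tsupport _ hne))

theorem tst_dzero {L : ℝ} {η : ℝ → ℝ} (h : Tst L η) {x : ℝ} (hx : x ∉ Ioo 0 L) :
    deriv η x = 0 := by
  by_contra hne
  exact hx (h.2.2 (support_deriv_subset hne))

theorem tst_ddzero {L : ℝ} {η : ℝ → ℝ} (h : Tst L η) {x : ℝ} (hx : x ∉ Ioo 0 L) :
    iteratedDeriv 2 η x = 0 := by
  have h3 : deriv (deriv η) x = iteratedDeriv 2 η x := by
    rw [iteratedDeriv_succ, iteratedDeriv_one]
  rw [← h3]
  by_contra hne
  exact hx (h.2.2 (closure_minimal support_deriv_subset isClosed_closure (support_deriv_subset hne)))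

theorem ioo_eq {L : ℝ} (hL : 0 < L) (f : ℝ → ℝ) : ∫ x in Ioo 0 L, f x = ∫ x in (0 : ℝ)..L, f x := by
  rw [intervalIntegral.integral_of_le hL.le, integral_Ioc_eq_integral_Ioo]

theorem int_of_memLp {L : ℝ} (hL : 0 < L) {f : ℝ → ℝ} (hf : MemLp f 2 (volume.restrict (Ioo 0 L))) :
    IntervalIntegrable f volume 0 L := by
  rw [intervalIntegrable_iff_integrableOn_Ioo_of_le hL.le]
  exact hf.integrable (by norm_num)

/-- the double primitive is a weak solution -/
theorem weak_prim {L : ℝ} {f : ℝ → ℝ} (hf : IntervalIntegrable f volume 0 L)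
    {η : ℝ → ℝ} (hη : Tst L η) :
    ∫ x in (0 : ℝ)..L, iteratedDeriv 2 η x * ∫ t in (0 : ℝ)..x, ∫ r in (0 : ℝ)..t, f r =
      ∫ x in (0 : ℝ)..L, f x * η x := by
  have h0 : (0 : ℝ) ∉ Ioo 0 L := fun h => lt_irrefl _ h.1
  have hLn : L ∉ Ioo 0 L := fun h => lt_irrefl _ h.2
  set A : ℝ → ℝ := fun x => ∫ r in (0 : ℝ)..x, f r with hA
  have hAac : AbsolutelyContinuousOnInterval A 0 L :=
    hf.absolutelyContinuousOnInterval_intervalIntegral (by simp)
  have hAc : ContinuousOn A (uIcc 0 L) := hAac.continuousOn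
  have hAi : IntervalIntegrable A volume 0 L := hAc.intervalIntegrable
  have hηac : AbsolutelyContinuousOnInterval η 0 L :=
    (hη.1.of_le (by simp)).contDiffOn.absolutelyContinuousOnInterval
  have hη1ac : AbsolutelyContinuousOnInterval (deriv η) 0 L := by
    have h1 : ContDiff ℝ ∞ (deriv η) := (contDiff_infty_iff_deriv.1 hη.1).2
    exact (h1.of_le (by simp)).contDiffOn.absolutelyContinuousOnInterval
  have hBac : AbsolutelyContinuousOnInterval (fun x => ∫ t in (0 : ℝ)..x, A t) 0 L :=
    hAi.absolutelyContinuousOnInterval_intervalIntegral (by simp)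
  have e1 := AbsolutelyContinuousOnInterval.integral_mul_deriv_eq_deriv_mul hBac hη1ac
  have e2 := AbsolutelyContinuousOnInterval.integral_mul_deriv_eq_deriv_mul hAac hηac
  rw [tst_dzero hη h0, tst_dzero hη hLn] at e1
  rw [tst_zero hη h0, tst_zero hη hLn] at e2
  have d2 : deriv (deriv η) = iteratedDeriv 2 η := by
    funext x
    rw [iteratedDeriv_succ, iteratedDeriv_one]
  have e3 : ∫ x in (0 : ℝ)..L, deriv (fun x => ∫ t in (0 : ℝ)..x, A t) x * deriv η x =
      ∫ x in (0 : ℝ)..L, A x * deriv η x := by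
    refine intervalIntegral.integral_congr_ae ?_
    filter_upwards [hAi.ae_hasDerivAt_integral] with x hx hx2
    rw [(hx (uIoc_subset_uIcc hx2) 0 (by simp)).deriv]
  have e4 : ∫ x in (0 : ℝ)..L, deriv A x * η x = ∫ x in (0 : ℝ)..L, f x * η x := by
    refine intervalIntegral.integral_congr_ae ?_
    filter_upwards [hf.ae_hasDerivAt_integral] with x hx hx2
    rw [(hx (uIoc_subset_uIcc hx2) 0 (by simp)).deriv]
  rw [e3, e2, e4, d2] at e1
  simp only [mul_zero, sub_zero, zero_sub, neg_neg] at e1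
  rw [← e1]
  refine intervalIntegral.integral_congr fun x _ => ?_
  exact mul_comm _ _

/-- representation of weak solutions of `V'' = f` -/
theorem rep {L : ℝ} (hL : 0 < L) {V f : ℝ → ℝ} (hV : MemLp V 2 (volume.restrict (Ioo 0 L)))
    (hf : MemLp f 2 (volume.restrict (Ioo 0 L)))
    (h : ∀ η, Tst L η → ∫ x in Ioo 0 L, iteratedDeriv 2 η x * V x = ∫ x in Ioo 0 L, f x * η x) :
    ∃ α β : ℝ, ∀ᵐ x ∂volume.restrict (Ioo 0 L),
      V x = α + β * x + ∫ t in (0 : ℝ)..x, ∫ r in (0 : ℝ)..t, f r := by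
  have hfi := int_of_memLp hL hf
  set A : ℝ → ℝ := fun x => ∫ r in (0 : ℝ)..x, f r with hA
  have hAac : AbsolutelyContinuousOnInterval A 0 L :=
    hfi.absolutelyContinuousOnInterval_intervalIntegral (by simp)
  have hAi : IntervalIntegrable A volume 0 L := hAac.continuousOn.intervalIntegrable
  set F : ℝ → ℝ := fun x => ∫ t in (0 : ℝ)..x, A t with hF
  have hFac : AbsolutelyContinuousOnInterval F 0 L :=
    hAi.absolutelyContinuousOnInterval_intervalIntegral (by simp)
  have hFc : ContinuousOn F (Icc 0 L) := by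
    have := hFac.continuousOn
    rwa [uIcc_of_le hL.le] at this
  have hFm : MemLp F 2 (volume.restrict (Ioo 0 L)) := by
    obtain ⟨C, hC⟩ := isCompact_Icc.exists_bound_of_continuousOn hFc
    refine MemLp.of_bound ((hFc.mono Ioo_subset_Icc_self).aestronglyMeasurable measurableSet_Ioo) C ?_
    filter_upwards [ae_restrict_mem measurableSet_Ioo] with x hx
    exact hC x (Ioo_subset_Icc_self hx)
  have hcs := Pool.Agent.Y421.QE.csn
  obtain ⟨α, β, hαβ⟩ := Pool.Agent.Y785.QE.reg hcs L hL 0 (fun x => V x - F x) (hV.sub hFm)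
    (fun η hη => by
      have hdd : Tst L fun x => -(iteratedDeriv 2 η x) := Pool.Agent.Y412.QE.tst_dd hη
      have i1 := Pool.Agent.Y412.QE.tst_int hdd hV
      have i2 := Pool.Agent.Y412.QE.tst_int hdd hFm
      have e1 : ∫ x in Ioo 0 L, (iteratedDeriv 2 η x + 0 * η x) * (V x - F x) =
          (∫ x in Ioo 0 L, iteratedDeriv 2 η x * V x) - ∫ x in Ioo 0 L, iteratedDeriv 2 η x * F x := by
        rw [← MeasureTheory.integral_sub]
        · refine integral_congr_ae (Eventually.of_forall fun x => ?_)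
          beta_reduce
          ring
        · refine i1.neg.congr (Eventually.of_forall fun x => ?_)
          simp only [Pi.neg_apply]
          ring
        · refine i2.neg.congr (Eventually.of_forall fun x => ?_)
          simp only [Pi.neg_apply]
          ring
      rw [e1, h η hη, ioo_eq hL, ioo_eq hL]
      have e2 := weak_prim hfi hη
      rw [sub_eq_zero, ← e2])
  refine ⟨α, β, ?_⟩
  filter_upwards [hαβ] with x hx
  have h1 : ∀ x, HasDerivAt (cs 0) 0 x := fun x => by
    have := hcs.2.2.1 0 x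
    simpa using this
  have h2 : cs 0 x = 1 := by
    have h3 := is_const_of_deriv_eq_zero (f := cs 0) (fun x => (h1 x).differentiableAt)
      (fun x => (h1 x).deriv) x 0
    rw [h3]
    exact (hcs.2.2.2.2 0).1
  have h4 : sn 0 x = x := by
    have h5 : ∀ x, HasDerivAt (fun x => sn 0 x - x) 0 x := by
      intro x
      have h6 := (hcs.2.2.2.1 0 x).sub (hasDerivAt_id x)
      have h7 : cs 0 x = 1 := by
        have h3 := is_const_of_deriv_eq_zero (f := cs 0) (fun x => (h1 x).differentiableAt)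
          (fun x => (h1 x).deriv) x 0
        rw [h3]
        exact (hcs.2.2.2.2 0).1
      rw [h7, sub_self] at h6
      exact h6
    have h3 := is_const_of_deriv_eq_zero (f := fun x => sn 0 x - x)
      (fun x => (h5 x).differentiableAt) (fun x => (h5 x).deriv) x 0
    have h8 := (hcs.2.2.2.2 0).2
    simp only [h8] at h3
    linarith
  rw [h2, h4] at hx
  simp only [hF, hA] at hx
  linarith

/-- if the right-hand side is continuous, then the weak solution is classical -/
theorem classic {L : ℝ} (hL : 0 < L) {V f g : ℝ → ℝ} (hV : MemLp V 2 (volume.restrict (Ioo 0 L)))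
    (hf : MemLp f 2 (volume.restrict (Ioo 0 L)))
    (h : ∀ η, Tst L η → ∫ x in Ioo 0 L, iteratedDeriv 2 η x * V x = ∫ x in Ioo 0 L, f x * η x)
    (hg : ContinuousOn g (Icc 0 L)) (hfg : f =ᵐ[volume.restrict (Ioo 0 L)] g) :
    ∃ U U' : ℝ → ℝ, (∀ x, HasDerivAt U (U' x) x) ∧ Continuous U' ∧
      (∀ x ∈ Icc 0 L, HasDerivAt U' (g x) x) ∧ V =ᵐ[volume.restrict (Ioo 0 L)] U := by
  obtain ⟨α, β, hαβ⟩ := rep hL hV hf h
  set G : ℝ → ℝ := fun x => g (max 0 (min x L)) with hG
  have hGc : Continuous G := by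
    refine hg.comp_continuous (by fun_prop) fun x => ?_
    refine ⟨le_max_left _ _, ?_⟩
    rw [max_le_iff]
    exact ⟨hL.le, min_le_right _ _⟩
  have hGg : ∀ x ∈ Icc 0 L, G x = g x := by
    intro x hx
    show g (max 0 (min x L)) = g x
    rw [min_eq_left hx.2, max_eq_right hx.1]
  set A : ℝ → ℝ := fun x => ∫ t in (0 : ℝ)..x, G t with hA
  have hAd : ∀ x, HasDerivAt A (G x) x := fun x =>
    intervalIntegral.integral_hasDerivAt_right (hGc.intervalIntegrable _ _)
      (hGc.stronglyMeasurableAtFilter _ _) hGc.continuousAt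
  have hAc : Continuous A := continuous_iff_continuousAt.2 fun x => (hAd x).continuousAt
  refine ⟨fun x => α + β * x + ∫ t in (0 : ℝ)..x, A t, fun x => β + A x, fun x => ?_,
    continuous_const.add hAc, fun x hx => ?_, ?_⟩
  · have h1 : HasDerivAt (fun x => ∫ t in (0 : ℝ)..x, A t) (A x) x :=
      intervalIntegral.integral_hasDerivAt_right (hAc.intervalIntegrable _ _)
        (hAc.stronglyMeasurableAtFilter _ _) hAc.continuousAt
    have h2 : HasDerivAt (fun x => α + β * x) β x := by
      simpa using ((hasDerivAt_id x).const_mul β).const_add α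
    exact h2.add h1
  · have h1 := (hAd x).const_add β
    rwa [hGg x hx] at h1
  · filter_upwards [hαβ, ae_restrict_mem measurableSet_Ioo] with x hx hx2
    rw [hx]
    congr 1
    refine intervalIntegral.integral_congr fun t ht => ?_
    rw [uIcc_of_le hx2.1.le] at ht
    refine intervalIntegral.integral_congr_ae ?_
    rw [EventuallyEq, ae_restrict_iff' measurableSet_Ioo] at hfg
    filter_upwards [hfg, Measure.ae_ne volume L] with r hr hr3 hr2
    rw [uIoc_of_le ht.1] at hr2
    have h3 : r ∈ Ioo 0 L := ⟨hr2.1, lt_of_le_of_ne (hr2.2.trans (ht.2.trans hx2.2.le)) hr3⟩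
    rw [hr h3, hGg r (Ioo_subset_Icc_self h3)]

end Pool.Agent.H240.SC
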