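import Pool.Agent.H240.SC.Gap
import Pool.Agent.H240.SC.ModeEx

/-!
# For most parameters there is an eigenvalue near the value of the mode
-/

set_option autoImplicit false
set_option linter.unusedSectionVars false

open Set Filter Topology MeasureTheory
open scoped Real ContDiff

noncomputable section

namespace Pool.Agent.H240.SC

open Pool.Agent.Y262.QE Pool.Agent.Y264.QR

section

variable {M : Type} [MetricSpace M] [CompactSpace M] [MeasurableSpace M] [BorelSpace M]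
  {μ : Measure M} [IsFiniteMeasure μ]
  {H : Type} [NormedAddCommGroup H] [InnerProductSpace ℝ H] [CompleteSpace H]
  {i : H →L[ℝ] Lp ℝ 2 μ}
  {a : H →L[ℝ] H →L[ℝ] ℝ} {m : C(M, ℝ) → H →L[ℝ] H →L[ℝ] ℝ} {p : H → ℕ → ℝ → ℝ} {L : ℝ}
  {Φ : ℂ → M} {x1 x2 C0 : ℝ} {κ h : C(M, ℝ)} {κ0 h0 : ℝ → ℝ}

/-- for most parameters there is an eigenvalue in the window around the value of the mode -/
theorem vol_win (hS : Sf μ i a) (hm : IsM μ i m) {b : C(M, ℝ) → H →L[ℝ] H →L[ℝ] ℝ}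
    (hB : IsB μ i b) (hF : ∀ φ, Fm a (b φ)) (hC : CyF μ L Φ i a p)
    (hG : Geo L x1 x2 C0 Φ κ h κ0 h0) {s1 s2 : ℝ} (h12 : s1 < s2) (k : ℕ) {ε' : ℝ}
    (hε' : 0 < ε') : ∀ η : ℝ, 0 < η → ∀ᶠ n : ℕ in atTop,
      volume {s : ℝ | s ∈ Icc s1 s2 ∧ ∀ j, ε' ≤ |Ev a (b (κ + s • h)) j -
        (((n : ℝ) + 1) ^ 2 + ee x1 x2 k)|} ≤ ENNReal.ofReal η := by
  intro η hη
  set R : ℝ := |s1| + |s2| with hR
  have hR1 : ∀ x ∈ Icc s1 s2, |x| ≤ R := by
    intro x hx
    rw [abs_le]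
    have a1 := neg_abs_le s1
    have a2 := le_abs_self s2
    have a3 := abs_nonneg s1
    have a4 := abs_nonneg s2
    constructor
    · linarith [hx.1]
    · linarith [hx.2]
  set t : ℝ := 1 / (‖h‖ + 1) with ht
  have hh0 : 0 ≤ ‖h‖ := norm_nonneg h
  have ht0 : 0 < t := by positivity
  have hth : t * ‖h‖ ≤ 1 := by
    rw [ht, one_div, inv_mul_le_iff₀ (by positivity)]
    linarith
  set W : ℝ := s2 - s1 + 2 * t with hW
  have hW0 : 0 < W := by rw [hW]; linarith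
  set δ : ℝ := min 1 (η / (24 * W)) with hδ
  have hδ0 : 0 < δ := lt_min one_pos (by positivity)
  have hδ1 : δ ≤ 1 := min_le_left _ _
  have hδ2 : δ ≤ η / (24 * W) := min_le_right _ _
  obtain ⟨S, S', ρ, hMo⟩ := mode_ex hG.prm.x1p hG.prm.x12 hG.prm.x2L k hδ0 hδ1
  have hβ : 0 < bW ε' κ h R := by
    unfold bW
    positivity
  set En : ℕ → ℝ := fun n => ((n : ℝ) + 1) ^ 2 + ee x1 x2 k with hEn
  have hEn0 : ∀ n, 0 ≤ En n := by
    intro n
    have := hMo.e0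
    show 0 ≤ ((n : ℝ) + 1) ^ 2 + ee x1 x2 k
    positivity
  choose χ hχ using fun n => isT_ex hm hC hMo.tρ n
  have hsol : ∀ (n : ℕ) (s : ℂ), ∃ w1 w2 : H, s ∈ Reg h R →
      Sol m a (cA (En n) ε' κ h s) (cB (En n) ε' κ h s) (χ n) w1 w2 := by
    intro n s
    by_cases hs : s ∈ Reg h R
    · obtain ⟨w1, w2, hw⟩ := sol_ex hS hm (cA (En n) ε' κ h s) (cB (En n) ε' κ h s) hβ
        (fun x => cB_ge' (κ := κ) (hEn0 n) hε'.le hG.hn hs x) (χ n)
      exact ⟨w1, w2, fun _ => hw⟩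
    · exact ⟨0, 0, fun h => absurd h hs⟩
  choose w1 w2 hw using hsol
  set F : ℕ → ℂ → ℂ := fun n s => FF ε' m (χ n) (w1 n s) (w2 n s) with hFd
  have hsub : ∀ z : ℂ, z.re ∈ Icc s1 s2 → z.im ∈ Icc 0 t → z ∈ Reg h R := by
    intro z h1 h2
    refine ⟨hR1 _ h1, h2.1, ?_⟩
    exact (mul_le_mul_of_nonneg_right h2.2 hh0).trans hth
  have hhol : ∀ n, ContinuousOn (F n) (Reg h R) ∧
      ∀ s, Reg h R ∈ 𝓝 s → DifferentiableAt ℂ (F n) s := by
    intro n
    obtain ⟨g1, g2⟩ := gv_hol hS hm (hEn0 n) hε' (κ := κ) hG.hn (R := R) (χ := χ n) (w1 := w1 n)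
      (w2 := w2 n) (fun s hs => hw n s hs)
    refine ⟨?_, fun s hs => ?_⟩
    · exact continuousOn_const.add (continuousOn_const.mul g1)
    · exact (differentiableAt_const _).add ((differentiableAt_const _).mul (g2 s hs))
  have hbd : ∀ n, ∀ z ∈ Reg h R, ‖F n z‖ ≤ 2 ∧ 0 ≤ (F n z).re := fun n z hz =>
    FF_bd hS hm hG hMo (hχ n) (hEn0 n) hε' hz (hw n z hz)
  have hmain := cauchy_lim (θ := 3 * δ) h12 ht0 F
    (fun n => (hhol n).1.mono fun z hz => hsub z hz.1 hz.2)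
    (fun n z h1 h2 => (hhol n).2 z (by
      have h3 : IsOpen {z : ℂ | z.re ∈ Ioo s1 s2 ∧ z.im ∈ Ioo 0 t} :=
        (isOpen_Ioo.preimage Complex.continuous_re).inter
          (isOpen_Ioo.preimage Complex.continuous_im)
      refine mem_of_superset (h3.mem_nhds ⟨h1, h2⟩) fun z hz => ?_
      exact hsub z (Ioo_subset_Icc_self hz.1) (Ioo_subset_Icc_self hz.2)))
    (fun n z h1 h2 => (hbd n z (hsub z h1 h2)).1)
    (fun z h1 h2 ε hε => by
      obtain ⟨N0, hN0⟩ := F_lim hS hm hC hG hMo hε' (hsub z h1 ⟨h2.1.le, h2.2⟩) h2.1 ε hε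
      filter_upwards [eventually_ge_atTop N0] with n hn
      exact hN0 n hn (χ n) _ _ (hχ n) (hw n z (hsub z h1 ⟨h2.1.le, h2.2⟩)))
    (η / 8) (by positivity)
  filter_upwards [hmain] with n hn
  -- the real function
  set f : ℝ → ℝ := fun x => (F n x).re with hf
  have hreg : ∀ x ∈ Icc s1 s2, (x : ℂ) ∈ Reg h R := fun x hx => hsub x
    (by rw [Complex.ofReal_re]; exact hx) (by rw [Complex.ofReal_im]; exact ⟨le_rfl, ht0.le⟩)
  have hfc : ContinuousOn f (Icc s1 s2) := by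
    have h1 : ContinuousOn (fun x : ℝ => F n x) (Icc s1 s2) :=
      (hhol n).1.comp Complex.continuous_ofReal.continuousOn hreg
    exact Complex.continuous_re.comp_continuousOn h1
  have hf0 : ∀ x ∈ Icc s1 s2, 0 ≤ f x := fun x hx => (hbd n x (hreg x hx)).2
  have hint : ∫ x in Icc s1 s2, f x ≤ η / 4 := by
    have h1 : ∫ x in Icc s1 s2, f x = ∫ x in s1..s2, f x := by
      rw [intervalIntegral.integral_of_le h12.le, integral_Icc_eq_integral_Ioc]
    rw [h1]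
    refine (le_abs_self _).trans (hn.trans ?_)
    have h2 : 3 * δ * W ≤ η / 8 := by
      rw [le_div_iff₀ (by positivity)] at hδ2
      nlinarith
    linarith
  have hmark := mul_meas_ge_le_integral_of_nonneg (μ := volume.restrict (Icc s1 s2)) (f := f)
    (by
      filter_upwards [ae_restrict_mem measurableSet_Icc] with x hx
      exact hf0 x hx) (hfc.integrableOn_compact isCompact_Icc) (1 / 2)
  have hle : (volume.restrict (Icc s1 s2)).real {x | 1 / 2 ≤ f x} ≤ η := by linarith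
  have hsubset : {s : ℝ | s ∈ Icc s1 s2 ∧ ∀ j, ε' ≤ |Ev a (b (κ + s • h)) j -
      (((n : ℝ) + 1) ^ 2 + ee x1 x2 k)|} ⊆ {x | 1 / 2 ≤ f x} ∩ Icc s1 s2 := by
    rintro s ⟨hs, hgap⟩
    refine ⟨?_, hs⟩
    obtain ⟨g, E, hE⟩ := tSp H a (b (κ + s • h)) (hF _)
    have hEv := Pool.Agent.Y592.QE.mm H a (b (κ + s • h)) (hF _) g E hE
    refine gap_real hS hm hB hF hG hMo (hχ n) hε' (hw n s (hreg s hs)) hE fun j => ?_
    rw [← hEv j]
    exact hgap j
  refine (measure_mono hsubset).trans ((Measure.le_restrict_apply _ _).trans ?_)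
  rw [← ofReal_measureReal]
  exact ENNReal.ofReal_le_ofReal hle

end

end Pool.Agent.H240.SC
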